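import Pool.Agent.Lib.H82K.Defs

/-!
# Chunk B01 (M, only Mathlib): a pairing of the ordinals

`PL a b x y`: `(a, b)` precedes `(x, y)` in the order by the maximum, then lexicographically. Claim: there is an
isomorphism of the pairs of ordinals with this order onto the ordinals.

Proof: first find `q : O → O → O` with `PL a b x y → q a b < q x y`: for instance
`q x y = ω ^ (ω ^ m) + (m + 1) * x + y` with `m = max x y`: if `m' < m` then `m' + 1 ≤ ω ^ (m' + 1)`, so
`(m' + 1) * x + y < (m' + 1) * (m' + 1) + .. ≤ ω ^ (ω ^ m)` (powers of `ω` are closed under addition, `ω ^ (ω ^ m)` under multiplication of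
smaller ordinals: `Ordinal.isPrincipal_add_omega0_opow`, `isPrincipal_mul_omega0_opow_opow` or similar); if the maxima are equal to `m` and
`a < x` then `(m + 1) * a + b < (m + 1) * (a + 1) ≤ (m + 1) * x + y` as `b < m + 1`. (Any other `q` is fine, e.g. defined by recursion on `m`: `F m` =
supremum of `F m' + (m' + 1) * (m' + 1) + 1`, `m' < m`, and `q x y = F m + (m + 1) * x + y`.)
`PL` is total (for different pairs), so `q` is injective, `m ≤ q x y`, so the range `S` of `q` (on pairs) is not bounded above. Let `E` be the isomorphism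
of the ordinals onto `S` (`Ordinal.enumOrd S`, `Ordinal.enumOrdOrderIso`), and `p x y` the ordinal with `E (p x y) = q x y`.
-/

set_option autoImplicit false

open Set Order

open Pool.Agent.Lib.H45Osc (w1 limitPts)

namespace Pool.Agent.H82K

/-- the order of the pairs by the maximum, then lexicographically -/
def PL (a b x y : O) : Prop :=
  max a b < max x y ∨ (max a b = max x y ∧ (a < x ∨ (a = x ∧ b < y)))

/-- an increasing map of the pairs to the ordinals -/
noncomputable def b01_q (x y : O) : O :=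
  Ordinal.omega0 ^ (Ordinal.omega0 ^ (max x y)) + (max x y + 1) * x + y

theorem b01_le (m : O) : m ≤ Ordinal.omega0 ^ (Ordinal.omega0 ^ m) :=
  (Ordinal.right_le_opow m Ordinal.one_lt_omega0).trans (Ordinal.right_le_opow _ Ordinal.one_lt_omega0)

theorem b01_q_ge (x y : O) : Ordinal.omega0 ^ (Ordinal.omega0 ^ (max x y)) ≤ b01_q x y := by
  unfold b01_q
  exact (le_self_add).trans (le_self_add)

theorem b01_q_lt {a b x y : O} (h : PL a b x y) : b01_q a b < b01_q x y := by
  rcases h with h | ⟨h, h2⟩
  · refine lt_of_lt_of_le ?_ (b01_q_ge x y)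
    have hadd := Ordinal.isPrincipal_add_omega0_opow (Ordinal.omega0 ^ (max x y))
    have hmul := Ordinal.isPrincipal_mul_omega0_opow_opow (max x y)
    have h1 : Ordinal.omega0 ^ (Ordinal.omega0 ^ (max a b)) < Ordinal.omega0 ^ (Ordinal.omega0 ^ (max x y)) :=
      (Ordinal.opow_lt_opow_iff_right Ordinal.one_lt_omega0).mpr
        ((Ordinal.opow_lt_opow_iff_right Ordinal.one_lt_omega0).mpr h)
    have h0 : max a b < Ordinal.omega0 ^ (Ordinal.omega0 ^ (max x y)) := lt_of_lt_of_le h (b01_le _)
    have hone : (1 : O) < Ordinal.omega0 ^ (Ordinal.omega0 ^ (max x y)) := by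
      refine lt_of_le_of_lt ?_ h1
      exact Order.one_le_iff_pos.mpr (Ordinal.opow_pos _ Ordinal.omega0_pos)
    have ha : a < Ordinal.omega0 ^ (Ordinal.omega0 ^ (max x y)) := lt_of_le_of_lt (le_max_left _ _) h0
    have hb : b < Ordinal.omega0 ^ (Ordinal.omega0 ^ (max x y)) := lt_of_le_of_lt (le_max_right _ _) h0
    exact hadd (hadd h1 (hmul (hadd h0 hone) ha)) hb
  · unfold b01_q
    rw [h, add_assoc, add_assoc]
    refine add_lt_add_right ?_ _
    rcases h2 with h2 | ⟨h2, h3⟩
    · have hb : b < max x y + 1 := by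
        rw [Order.lt_add_one_iff, ← h]
        exact le_max_right _ _
      calc (max x y + 1) * a + b < (max x y + 1) * a + (max x y + 1) := add_lt_add_right hb _
        _ = (max x y + 1) * (a + 1) := by rw [mul_add, mul_one]
        _ ≤ (max x y + 1) * x := mul_le_mul_right (Order.add_one_le_of_lt h2) _
        _ ≤ (max x y + 1) * x + y := le_self_add
    · rw [h2]
      exact add_lt_add_right h3 _

theorem exists_pairing : ∃ p : O → O → O, (∀ z, ∃ x y, p x y = z) ∧
    ∀ a b x y, PL a b x y → p a b < p x y := by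
  have hS : ¬ BddAbove {z : O | ∃ x y, b01_q x y = z} := by
    rintro ⟨B, hB⟩
    have h1 : b01_q (B + 1) 0 ≤ B := hB ⟨B + 1, 0, rfl⟩
    have h2 := (b01_le (max (B + 1) 0)).trans (b01_q_ge (B + 1) 0)
    have h3 : B + 1 ≤ B := ((le_max_left (B + 1) 0).trans h2).trans h1
    exact absurd h3 (not_le.mpr (Order.lt_add_one_iff.mpr le_rfl))
  have hex : ∀ x y : O, ∃ z, Ordinal.enumOrd {z : O | ∃ x y, b01_q x y = z} z = b01_q x y := fun x y =>
    Ordinal.enumOrd_surjective hS ⟨x, y, rfl⟩
  choose p hp using hex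
  refine ⟨p, fun z => ?_, fun a b x y h => ?_⟩
  · obtain ⟨x, y, hxy⟩ := Ordinal.enumOrd_mem hS z
    refine ⟨x, y, Ordinal.enumOrd_injective hS ?_⟩
    rw [hp, hxy]
  · rw [← Ordinal.enumOrd_lt_enumOrd hS, hp, hp]
    exact b01_q_lt h

end Pool.Agent.H82K
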