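import Pool.Agent.Lib.H82K.BDefs

/-!
# Chunk B02 (S/M): facts on the pairing, the predecessor and limits

* `PL` is total: if `(a, b) ≠ (x, y)` then `PL a b x y` or `PL x y a b`; hence `pp_inj`, `pp_lt_iff`.
* `le_pp_right`: `y ≤ pp x y`: the map `m ↦ pp 0 m` is strictly increasing, so `m ≤ pp 0 m` (`StrictMono.le_apply`); with `m = max x y`,
  `pp 0 m ≤ pp x y` (equal, or `PL 0 m x y`: for equal maxima, `0 < x`, or `0 = x` and then `y = m`).
* `p1_lt`: let `z ≠ 0` and `p1 z = z`, `y = p2 z ≤ z`. Then `PL 0 z z y`, so `z ≤ pp 0 z < pp z y = z`, contradiction.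
* `prd_add_one`: `{y' | y + 1 ≤ y' + 1} = {y' | y ≤ y'}`. `prd_lim`: for a limit `x`, `x ≤ y + 1` iff `x ≤ y`.
* `exists_lim_part`: by induction on `x` (if `x` is not `0` and not a limit then `x = y + 1`).
* `lim_part_unique`: if `n < n'` then `μ = μ' + (n' - n)` with `n' - n ≥ 1` (cancel on the right: `Ordinal.add_left_cancel` is for the left, use induction on `n`
  with `Order.succ_injective`), which is neither a limit nor `0`.
-/

set_option autoImplicit false

open Set Order

open Pool.Agent.Lib.H45Osc (w1 limitPts)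

namespace Pool.Agent.H82K

private theorem b02_mz (x : O) : max 0 x = x := max_eq_right bot_le

private theorem b02_total {a b x y : O} (h : ¬ (a = x ∧ b = y)) : PL a b x y ∨ PL x y a b := by
  unfold PL
  rcases lt_trichotomy (max a b) (max x y) with h1 | h1 | h1
  · exact Or.inl (Or.inl h1)
  · rcases lt_trichotomy a x with h2 | h2 | h2
    · exact Or.inl (Or.inr ⟨h1, Or.inl h2⟩)
    · rcases lt_trichotomy b y with h3 | h3 | h3
      · exact Or.inl (Or.inr ⟨h1, Or.inr ⟨h2, h3⟩⟩)
      · exact absurd ⟨h2, h3⟩ h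
      · exact Or.inr (Or.inr ⟨h1.symm, Or.inr ⟨h2.symm, h3⟩⟩)
    · exact Or.inr (Or.inr ⟨h1.symm, Or.inl h2⟩)
  · exact Or.inr (Or.inl h1)

theorem pp_inj {a b x y : O} (h : pp a b = pp x y) : a = x ∧ b = y := by
  by_contra h1
  rcases b02_total h1 with h2 | h2
  · exact (pp_lt h2).ne h
  · exact (pp_lt h2).ne h.symm

theorem pp_lt_iff {a b x y : O} : pp a b < pp x y ↔ PL a b x y := by
  refine ⟨fun h => ?_, pp_lt⟩
  by_cases h1 : a = x ∧ b = y
  · obtain ⟨rfl, rfl⟩ := h1
    exact absurd h (lt_irrefl _)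
  · rcases b02_total h1 with h2 | h2
    · exact h2
    · exact absurd h (pp_lt h2).asymm

theorem p1_pp (x y : O) : p1 (pp x y) = x := (pp_inj (pp_p1_p2 (pp x y))).1

theorem p2_pp (x y : O) : p2 (pp x y) = y := (pp_inj (pp_p1_p2 (pp x y))).2

private theorem b02_le_zero (m : O) : m ≤ pp 0 m := by
  have h : StrictMono (fun m : O => pp 0 m) := fun m m' h => pp_lt (Or.inl (by
    rw [b02_mz, b02_mz]
    exact h))
  exact h.le_apply

private theorem b02_max (x y : O) : pp 0 (max x y) ≤ pp x y := by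
  by_cases h : 0 = x
  · subst h
    rw [b02_mz]
  · refine (pp_lt (Or.inr ⟨?_, Or.inl ?_⟩)).le
    · rw [b02_mz]
    · exact lt_of_le_of_ne bot_le h

theorem le_pp_left (x y : O) : x ≤ pp x y :=
  (le_max_left x y).trans ((b02_le_zero _).trans (b02_max x y))

theorem le_pp_right (x y : O) : y ≤ pp x y :=
  (le_max_right x y).trans ((b02_le_zero _).trans (b02_max x y))

theorem p1_le (z : O) : p1 z ≤ z := by
  have h := le_pp_left (p1 z) (p2 z)
  rwa [pp_p1_p2] at h

theorem p2_le (z : O) : p2 z ≤ z := by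
  have h := le_pp_right (p1 z) (p2 z)
  rwa [pp_p1_p2] at h

theorem p1_lt {z : O} (hz : z ≠ 0) : p1 z < z := by
  rcases (p1_le z).eq_or_lt with h | h
  · exfalso
    have h1 := pp_p1_p2 z
    rw [h] at h1
    have h2 : pp 0 z < pp z (p2 z) := by
      refine pp_lt (Or.inr ⟨?_, Or.inl ?_⟩)
      · rw [b02_mz, max_eq_left (p2_le z)]
      · exact lt_of_le_of_ne bot_le (Ne.symm hz)
    rw [h1] at h2
    exact absurd h2 (not_lt.mpr (b02_le_zero z))
  · exact h

theorem pp_zero : pp 0 0 = 0 := by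
  obtain ⟨x, y, h⟩ := pp_surj 0
  by_cases h1 : (0 : O) = x ∧ (0 : O) = y
  · obtain ⟨rfl, rfl⟩ := h1
    exact h
  · exfalso
    have h2 : PL 0 0 x y := by
      by_cases h3 : (0 : O) = x
      · have h4 : (0 : O) ≠ y := fun h5 => h1 ⟨h3, h5⟩
        refine Or.inl ?_
        rw [max_self]
        exact lt_of_lt_of_le (lt_of_le_of_ne bot_le h4) (le_max_right _ _)
      · refine Or.inl ?_
        rw [max_self]
        exact lt_of_lt_of_le (lt_of_le_of_ne bot_le h3) (le_max_left _ _)
    have h3 := pp_lt h2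
    rw [h] at h3
    exact absurd h3 (not_lt.mpr bot_le)

theorem pp_lt_of_max {a b x y : O} (h : max a b < max x y) : pp a b < pp x y :=
  pp_lt (Or.inl h)

theorem prd_add_one (y : O) : prd (y + 1) = y := by
  unfold prd
  have h : {y' : O | y + 1 ≤ y' + 1} = Ici y := by
    ext y'
    simp only [mem_ofPred_eq, mem_Ici, Order.add_one_le_iff, Order.lt_add_one_iff]
  rw [h, csInf_Ici]

theorem prd_lim {x : O} (h : Lim x) : prd x = x := by
  unfold prd
  have h1 : {y' : O | x ≤ y' + 1} = Ici x := by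
    ext y'
    simp only [mem_ofPred_eq, mem_Ici]
    constructor
    · intro h2
      by_contra h3
      exact absurd (h.2 y' (not_le.mp h3)) (not_lt.mpr h2)
    · intro h2
      exact h2.trans (Order.lt_add_one_iff.mpr le_rfl).le
  rw [h1, csInf_Ici]

theorem prd_le (x : O) : prd x ≤ x := by
  have h : x ≤ x + 1 := (Order.lt_add_one_iff.mpr (le_refl x)).le
  exact csInf_le' h

theorem exists_lim_part (x : O) : ∃ (μ : O) (n : ℕ), (Lim μ ∨ μ = 0) ∧ x = μ + n := by
  induction x using WellFoundedLT.induction with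
  | ind x ih =>
    by_cases h0 : x = 0
    · exact ⟨0, 0, Or.inr rfl, by simp [h0]⟩
    · by_cases h1 : Lim x
      · exact ⟨x, 0, Or.inl h1, by simp⟩
      · have h2 : ∃ y < x, x ≤ y + 1 := by
          by_contra h3
          push Not at h3
          exact h1 ⟨lt_of_le_of_ne bot_le (Ne.symm h0), h3⟩
        obtain ⟨y, hy, hxy⟩ := h2
        have h3 : x = y + 1 := le_antisymm hxy (Order.add_one_le_iff.mpr hy)
        obtain ⟨μ, n, hμ, hn⟩ := ih y hy
        refine ⟨μ, n + 1, hμ, ?_⟩
        rw [h3, hn]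
        push_cast
        rw [add_assoc]

private theorem b02_inj {a b : O} (h : a + 1 = b + 1) : a = b := by
  apply le_antisymm
  · rw [← Order.lt_add_one_iff, ← h]
    exact Order.lt_add_one_iff.mpr le_rfl
  · rw [← Order.lt_add_one_iff, h]
    exact Order.lt_add_one_iff.mpr le_rfl

private theorem b02_cancel (μ μ' : O) (k : ℕ) (n : ℕ) (h : μ + n = μ' + ((n + k : ℕ) : O)) : μ = μ' + k := by
  induction n with
  | zero => simpa using h
  | succ n ih =>
    apply ih
    apply b02_inj
    have h1 : (((n + 1 : ℕ)) : O) = (n : O) + 1 := by push_cast; rfl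
    have h2 : (((n + 1 + k : ℕ)) : O) = ((n + k : ℕ) : O) + 1 := by
      rw [show n + 1 + k = n + k + 1 by ring]
      push_cast
      rfl
    rw [h1, h2, ← add_assoc, ← add_assoc] at h
    exact h

private theorem b02_zero {μ μ' : O} {n k : ℕ} (h : Lim μ ∨ μ = 0) (he : μ + n = μ' + ((n + k : ℕ) : O)) : k = 0 := by
  have h1 := b02_cancel μ μ' k n he
  rcases k with _ | k
  · rfl
  · exfalso
    have h2 : μ = (μ' + k) + 1 := by
      rw [h1]
      push_cast
      rw [add_assoc]
    have h3 : μ' + k < μ := by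
      rw [h2]
      exact Order.lt_add_one_iff.mpr le_rfl
    rcases h with h | h
    · have h4 := h.2 _ h3
      rw [← h2] at h4
      exact lt_irrefl _ h4
    · rw [h] at h3
      exact absurd h3 (not_lt.mpr bot_le)

theorem lim_part_unique {μ μ' : O} {n n' : ℕ} (h : Lim μ ∨ μ = 0) (h' : Lim μ' ∨ μ' = 0)
    (he : μ + n = μ' + n') : μ = μ' ∧ n = n' := by
  rcases Nat.le_total n n' with h1 | h1
  · obtain ⟨k, rfl⟩ := Nat.exists_eq_add_of_le h1
    have h2 := b02_zero h he
    subst h2
    have h3 := b02_cancel μ μ' 0 n he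
    exact ⟨by simpa using h3, rfl⟩
  · obtain ⟨k, rfl⟩ := Nat.exists_eq_add_of_le h1
    have h2 := b02_zero h' he.symm
    subst h2
    have h3 := b02_cancel μ' μ 0 n' he.symm
    exact ⟨by simpa using h3.symm, rfl⟩

theorem Lim.add_nat_lt {μ x : O} (h : Lim μ) (hx : x < μ) (n : ℕ) : x + n < μ := by
  induction n with
  | zero => simpa using hx
  | succ n ih =>
    have h1 := h.2 _ ih
    push_cast
    rw [← add_assoc]
    exact h1

/-- above each ordinal there is a limit ordinal closed under a given function and under `pp` -/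
theorem exists_closed (F : O → O) (α : O) : ∃ μ, α < μ ∧ Lim μ ∧ (∀ x < μ, F x < μ) ∧
    ∀ x < μ, ∀ y < μ, pp x y < μ := by
  let G : O → O := fun β => max (max (β + 1) (pp 0 β)) ((⨆ x : Iio β, F x) + 1)
  let s : ℕ → O := fun k => G^[k] (α + 1)
  have hs : ∀ k, s (k + 1) = G (s k) := fun k => Function.iterate_succ_apply' G k (α + 1)
  have hG1 : ∀ β, β + 1 ≤ G β := fun β => (le_max_left _ _).trans (le_max_left _ _)
  have hG2 : ∀ β, pp 0 β ≤ G β := fun β => (le_max_right _ _).trans (le_max_left _ _)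
  have hG3 : ∀ β, ∀ x < β, F x < G β := by
    intro β x hx
    refine lt_of_lt_of_le ?_ (le_max_right _ _)
    rw [Order.lt_add_one_iff]
    exact Ordinal.le_iSup (fun x : Iio β => F x) ⟨x, hx⟩
  have hlt : ∀ β : O, β < β + 1 := fun β => Order.lt_add_one_iff.mpr le_rfl
  have hle : ∀ k, s k ≤ ⨆ k, s k := fun k => Ordinal.le_iSup s k
  have hmono : Monotone s := monotone_nat_of_le_succ fun k => by
    rw [hs]
    exact (hlt _).le.trans (hG1 _)
  have hex : ∀ x < ⨆ k, s k, ∃ k, x < s k := fun x hx => (Ordinal.lt_iSup_iff).1 hx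
  refine ⟨⨆ k, s k, (hlt α).trans_le (hle 0), ⟨?_, ?_⟩, ?_, ?_⟩
  · exact lt_of_le_of_lt bot_le ((hlt α).trans_le (hle 0))
  · intro x hx
    obtain ⟨k, hk⟩ := hex x hx
    have h1 : x + 1 ≤ s k := Order.add_one_le_iff.mpr hk
    refine h1.trans_lt ((hlt (s k)).trans_le ((hG1 (s k)).trans ?_))
    rw [← hs]
    exact hle _
  · intro x hx
    obtain ⟨k, hk⟩ := hex x hx
    refine (hG3 _ x hk).trans_le ?_
    rw [← hs]
    exact hle _
  · intro x hx y hy
    obtain ⟨k, hk⟩ := hex x hx
    obtain ⟨l, hl⟩ := hex y hy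
    have h1 : x < s (max k l) := hk.trans_le (hmono (le_max_left _ _))
    have h2 : y < s (max k l) := hl.trans_le (hmono (le_max_right _ _))
    have h3 : pp x y < pp 0 (s (max k l)) := pp_lt_of_max (by
      rw [b02_mz]
      exact max_lt h1 h2)
    refine h3.trans_le ((hG2 _).trans ?_)
    rw [← hs]
    exact hle _

end Pool.Agent.H82K
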