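import Pool.Agent.Lib.H82K.B02

/-!
# Chunk B03 (S/M): codes of formulas, assignments, and locality of truth

* `enc_inj`: cases, `omega` for the residues modulo 4 (5 for `encAt`), `Nat.pair_eq_pair`.
* `Tr_congr`: induction on `φ`; the atoms are evaluated at `dec w i ≤ w < μ` and at ordinals below these; in `ex` the new argument `pp w ξ` is
  `< μ`.
* `Est_congr`: in the second case `μ ≤ x` (`μ ≤ μ + (enc χ + 1) ≤ x` by `le_pp_right`), and `pp ζ ξ < μ`.
-/

set_option autoImplicit false

open Set Order

open Pool.Agent.Lib.H45Osc (w1 limitPts)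

namespace Pool.Agent.H82K

theorem b03_encAt_inj {a b : At} (h : encAt a = encAt b) : a = b := by
  cases a with
  | eps i j =>
    cases b with
    | eps i' j' =>
      simp only [encAt] at h
      have h1 : Nat.pair i j = Nat.pair i' j' := by omega
      obtain ⟨rfl, rfl⟩ := Nat.pair_eq_pair.1 h1
      rfl
    | lt i' j' => simp only [encAt] at h; omega
    | aa i' => simp only [encAt] at h; omega
    | uk k' i' j' => simp only [encAt] at h; omega
    | pk i' j' k' => simp only [encAt] at h; omega
  | lt i j =>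
    cases b with
    | eps i' j' => simp only [encAt] at h; omega
    | lt i' j' =>
      simp only [encAt] at h
      have h1 : Nat.pair i j = Nat.pair i' j' := by omega
      obtain ⟨rfl, rfl⟩ := Nat.pair_eq_pair.1 h1
      rfl
    | aa i' => simp only [encAt] at h; omega
    | uk k' i' j' => simp only [encAt] at h; omega
    | pk i' j' k' => simp only [encAt] at h; omega
  | aa i =>
    cases b with
    | eps i' j' => simp only [encAt] at h; omega
    | lt i' j' => simp only [encAt] at h; omega
    | aa i' =>
      simp only [encAt] at h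
      have h1 : i = i' := by omega
      rw [h1]
    | uk k' i' j' => simp only [encAt] at h; omega
    | pk i' j' k' => simp only [encAt] at h; omega
  | uk k i j =>
    cases b with
    | eps i' j' => simp only [encAt] at h; omega
    | lt i' j' => simp only [encAt] at h; omega
    | aa i' => simp only [encAt] at h; omega
    | uk k' i' j' =>
      simp only [encAt] at h
      have h1 : Nat.pair k.1 (Nat.pair i j) = Nat.pair k'.1 (Nat.pair i' j') := by omega
      obtain ⟨h2, h3⟩ := Nat.pair_eq_pair.1 h1
      obtain ⟨rfl, rfl⟩ := Nat.pair_eq_pair.1 h3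
      rw [Fin.ext h2]
    | pk i' j' k' => simp only [encAt] at h; omega
  | pk i j k =>
    cases b with
    | eps i' j' => simp only [encAt] at h; omega
    | lt i' j' => simp only [encAt] at h; omega
    | aa i' => simp only [encAt] at h; omega
    | uk k' i' j' => simp only [encAt] at h; omega
    | pk i' j' k' =>
      simp only [encAt] at h
      have h1 : Nat.pair i (Nat.pair j k) = Nat.pair i' (Nat.pair j' k') := by omega
      obtain ⟨rfl, h3⟩ := Nat.pair_eq_pair.1 h1
      obtain ⟨rfl, rfl⟩ := Nat.pair_eq_pair.1 h3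
      rfl

theorem enc_inj {φ ψ : Fm} (h : enc φ = enc ψ) : φ = ψ := by
  induction φ generalizing ψ with
  | atom a =>
    cases ψ with
    | atom b =>
      simp only [enc] at h
      rw [b03_encAt_inj (a := a) (b := b) (by omega)]
    | bot => simp only [enc] at h; omega
    | imp φ' ψ' => simp only [enc] at h; omega
    | ex φ' => simp only [enc] at h; omega
  | bot =>
    cases ψ with
    | atom b => simp only [enc] at h; omega
    | bot => rfl
    | imp φ' ψ' => simp only [enc] at h; omega
    | ex φ' => simp only [enc] at h; omega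
  | imp φ1 φ2 ih1 ih2 =>
    cases ψ with
    | atom b => simp only [enc] at h; omega
    | bot => simp only [enc] at h; omega
    | imp φ' ψ' =>
      simp only [enc] at h
      have h1 : Nat.pair (enc φ1) (enc φ2) = Nat.pair (enc φ') (enc ψ') := by omega
      obtain ⟨h2, h3⟩ := Nat.pair_eq_pair.1 h1
      rw [ih1 h2, ih2 h3]
    | ex φ' => simp only [enc] at h; omega
  | ex φ1 ih1 =>
    cases ψ with
    | atom b => simp only [enc] at h; omega
    | bot => simp only [enc] at h; omega
    | imp φ' ψ' => simp only [enc] at h; omega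
    | ex φ' =>
      simp only [enc] at h
      rw [ih1 (by omega : enc φ1 = enc φ')]

theorem enc_left (φ ψ : Fm) : enc φ < enc (Fm.imp φ ψ) := by
  have h := Nat.left_le_pair (enc φ) (enc ψ)
  simp only [enc]
  omega

theorem enc_right (φ ψ : Fm) : enc ψ < enc (Fm.imp φ ψ) := by
  have h := Nat.right_le_pair (enc φ) (enc ψ)
  simp only [enc]
  omega

theorem enc_ex (φ : Fm) : enc φ < enc (Fm.ex φ) := by
  simp only [enc]
  omega

theorem dec_le (w : O) (i : ℕ) : dec w i ≤ w := by
  induction i generalizing w with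
  | zero => exact p2_le w
  | succ i ih => exact (ih (p1 w)).trans (p1_le w)

theorem dec_pp (w ξ : O) : dec (pp w ξ) = cons ξ (dec w) := by
  funext i
  cases i with
  | zero => exact p2_pp w ξ
  | succ i =>
    change dec (p1 (pp w ξ)) i = dec w i
    rw [p1_pp]

theorem uf_congr {v v' : O → ZFSet.{0}} {E E' : O → Set O} {x : O} (hv : ∀ y < x, v y = v' y)
    (hE : ∀ y < x, E y = E' y) (k : Fin 3) {y : O} (hy : y < x) : uf v E k y = uf v' E' k y := by
  have h1 : p1 y < x := (p1_le y).trans_lt hy
  have h2 : p2 y < x := (p2_le y).trans_lt hy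
  have e1 := hE _ h1
  have e2 := hE _ h2
  have e3 := hv _ h1
  have e4 := hv _ h2
  match k with
  | 0 =>
    change sInf _ = sInf _
    rw [hE y hy]
  | 1 =>
    change sInf _ = sInf _
    refine congrArg sInf (Set.ext fun ξ => ?_)
    simp only [Set.mem_setOf_eq]
    rw [e1, e2, e3, e4]
    refine or_congr (and_congr_right fun h => ?_) (and_congr_right fun h => ?_)
    · rw [hv ξ (h.trans h1)]
    · rw [hv ξ (h.trans h2)]
  | 2 =>
    change sInf _ = sInf _
    refine congrArg sInf (Set.ext fun ξ => ?_)
    simp only [Set.mem_setOf_eq]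
    rw [e2, e3]
    refine and_congr_right fun h => ?_
    rw [hv ξ (h.trans h2)]

theorem b03_AtS_congr (A : Set O) {v v' : O → ZFSet.{0}} {E E' : O → Set O} {μ : O}
    (hv : ∀ y < μ, v y = v' y) (hE : ∀ y < μ, E y = E' y) {s : ℕ → O} (hs : ∀ i, s i < μ)
    (a : At) : AtS A v E s a ↔ AtS A v' E' s a := by
  cases a with
  | eps i j =>
    change v (s i) ∈ v (s j) ↔ v' (s i) ∈ v' (s j)
    rw [hv _ (hs i), hv _ (hs j)]
  | lt i j => exact Iff.rfl
  | aa i => exact Iff.rfl
  | uk k i j =>
    change uf v E k (p1 (s i)) = p1 (s j) ↔ uf v' E' k (p1 (s i)) = p1 (s j)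
    rw [uf_congr hv hE k ((p1_le _).trans_lt (hs i))]
  | pk i j k => exact Iff.rfl

theorem Tr_congr (A : Set O) {v v' : O → ZFSet.{0}} {E E' : O → Set O} {μ : O}
    (hv : ∀ y < μ, v y = v' y) (hE : ∀ y < μ, E y = E' y) (φ : Fm) {w : O} (hw : w < μ) :
    Tr A v E μ φ w ↔ Tr A v' E' μ φ w := by
  induction φ generalizing w with
  | atom a => exact b03_AtS_congr A hv hE (fun i => (dec_le w i).trans_lt hw) a
  | bot => exact Iff.rfl
  | imp φ ψ ih1 ih2 =>
    change (Tr A v E μ φ w → Tr A v E μ ψ w) ↔ (Tr A v' E' μ φ w → Tr A v' E' μ ψ w)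
    rw [ih1 hw, ih2 hw]
  | ex φ ih =>
    change (∃ ξ, pp w ξ < μ ∧ Tr A v E μ φ (pp w ξ)) ↔ ∃ ξ, pp w ξ < μ ∧ Tr A v' E' μ φ (pp w ξ)
    exact exists_congr fun ξ => and_congr_right fun h => ih h

theorem Est_congr (A : Set O) {v v' : O → ZFSet.{0}} {E E' : O → Set O} {x : O}
    (hv : ∀ y < x, v y = v' y) (hE : ∀ y < x, E y = E' y) : Est A v E x = Est A v' E' x := by
  refine Set.ext fun ξ => ?_
  change (∃ ζ μ, _) ↔ ∃ ζ μ, _
  refine exists_congr fun ζ => exists_congr fun μ => and_congr_right fun _ =>
    and_congr_right fun _ => or_congr Iff.rfl (exists_congr fun χ => and_congr_right fun hx =>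
      and_congr_right fun hw => ?_)
  have hμ : μ ≤ x := by
    rw [hx]
    exact (le_self_add).trans (le_pp_right _ _)
  exact Tr_congr A (fun y hy => hv y (hy.trans_le hμ)) (fun y hy => hE y (hy.trans_le hμ)) χ hw

end Pool.Agent.H82K
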