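import Pool.Agent.Lib.H82K.B03

/-!
# Chunk B04 (M): existence of the values

Well-founded recursion on `x` of the pair `(v x, E x)`: given the pairs for `y < x`, extend them to all ordinals by `(∅, ∅)`; `E x = Est A v E x`
and `v x` is the set of all `v ξ`, `ξ < x`, `ξ ∈ E x` (`ZFSet.range` of a function on the small type `{ξ // ξ < x ∧ ξ ∈ E x}`, `ZFSet.mem_range`). The extended
functions agree with `v`, `E` below `x`; `Est_congr`. (`WellFounded.fix`, `WellFounded.fix_eq`.)
-/

set_option autoImplicit false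

open Set Order

open Pool.Agent.Lib.H45Osc (w1 limitPts)

namespace Pool.Agent.H82K

theorem b04_small (x : O) (S : Set O) : Small.{0} {ξ | ξ < x ∧ ξ ∈ S} :=
  @small_subset O (Iio x) {ξ | ξ < x ∧ ξ ∈ S} (fun _ h => h.1) _

open Classical in
/-- extension by the empty set -/
noncomputable def b04_v (x : O) (ih : (y : O) → y < x → ZFSet.{0} × Set O) (y : O) : ZFSet.{0} :=
  if h : y < x then (ih y h).1 else ∅

open Classical in
/-- extension by the empty set -/
noncomputable def b04_E (x : O) (ih : (y : O) → y < x → ZFSet.{0} × Set O) (y : O) : Set O :=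
  if h : y < x then (ih y h).2 else ∅

/-- the step of the recursion -/
noncomputable def b04_F (A : Set O) (x : O) (ih : (y : O) → y < x → ZFSet.{0} × Set O) :
    ZFSet.{0} × Set O :=
  haveI := b04_small x (Est A (b04_v x ih) (b04_E x ih) x)
  (ZFSet.range (fun ξ : {ξ | ξ < x ∧ ξ ∈ Est A (b04_v x ih) (b04_E x ih) x} => b04_v x ih ξ.1),
    Est A (b04_v x ih) (b04_E x ih) x)

theorem b04_spec (A : Set O) (x : O) (G : O → ZFSet.{0} × Set O) :
    (b04_F A x (fun y _ => G y)).2 = Est A (fun y => (G y).1) (fun y => (G y).2) x ∧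
      ∀ y, y ∈ (b04_F A x (fun y _ => G y)).1 ↔
        ∃ ξ < x, ξ ∈ Est A (fun y => (G y).1) (fun y => (G y).2) x ∧ y = (G ξ).1 := by
  have hv : ∀ y < x, b04_v x (fun y _ => G y) y = (G y).1 := by
    intro y hy
    unfold b04_v
    rw [dif_pos hy]
  have hE : ∀ y < x, b04_E x (fun y _ => G y) y = (G y).2 := by
    intro y hy
    unfold b04_E
    rw [dif_pos hy]
  have h1 : Est A (b04_v x (fun y _ => G y)) (b04_E x (fun y _ => G y)) x =
      Est A (fun y => (G y).1) (fun y => (G y).2) x :=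
    Est_congr A (v' := fun y => (G y).1) (E' := fun y => (G y).2) hv hE
  refine ⟨h1, fun y => ?_⟩
  haveI := b04_small x (Est A (b04_v x fun y _ => G y) (b04_E x fun y _ => G y) x)
  unfold b04_F
  rw [ZFSet.mem_range]
  constructor
  · rintro ⟨⟨ξ, hξ1, hξ2⟩, hξ⟩
    refine ⟨ξ, hξ1, ?_, ?_⟩
    · rw [← h1]
      exact hξ2
    · rw [← hξ]
      exact hv ξ hξ1
  · rintro ⟨ξ, hξ1, hξ2, hξ⟩
    refine ⟨⟨ξ, hξ1, ?_⟩, ?_⟩
    · rw [h1]
      exact hξ2
    · rw [hξ]
      exact hv ξ hξ1

theorem exists_val (A : Set O) : ∃ (v : O → ZFSet.{0}) (E : O → Set O), ∀ x,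
    E x = Est A v E x ∧ ∀ y, y ∈ v x ↔ ∃ ξ < x, ξ ∈ E x ∧ y = v ξ := by
  let G : O → ZFSet.{0} × Set O := (wellFounded_lt (α := O)).fix (fun x ih => b04_F A x ih)
  have hG : ∀ x, G x = b04_F A x (fun y _ => G y) := fun x =>
    (wellFounded_lt (α := O)).fix_eq (fun x ih => b04_F A x ih) x
  refine ⟨fun y => (G y).1, fun y => (G y).2, fun x => ?_⟩
  have h := b04_spec A x G
  rw [← hG x] at h
  refine ⟨h.1, fun y => ?_⟩
  have h2 := h.2 y
  rw [← h.1] at h2
  exact h2

/-- the value of the name `x` -/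
noncomputable def val (A : Set O) : O → ZFSet.{0} := Classical.choose (exists_val A)

/-- the elements of the name `x` -/
noncomputable def El (A : Set O) : O → Set O := Classical.choose (Classical.choose_spec (exists_val A))

theorem El_eq (A : Set O) (x : O) : El A x = Est A (val A) (El A) x :=
  (Classical.choose_spec (Classical.choose_spec (exists_val A)) x).1

theorem mem_val' (A : Set O) (x : O) (y : ZFSet.{0}) :
    y ∈ val A x ↔ ∃ ξ < x, ξ ∈ El A x ∧ y = val A ξ :=
  (Classical.choose_spec (Classical.choose_spec (exists_val A)) x).2 y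

/-- truth below `μ` -/
def TT (A : Set O) (μ : O) (φ : Fm) (w : O) : Prop := Tr A (val A) (El A) μ φ w

/-- the machine -/
noncomputable def mach (A : Set O) : Ops where
  p := pp
  u := ![fun x => x + 1, prd, p1, p2, uf (val A) (El A) 0, uf (val A) (El A) 1, uf (val A) (El A) 2]
  b := ⊤

end Pool.Agent.H82K
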