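import Pool.Agent.Lib.H82K.B04

/-!
# Chunk B05 (S/M): the elements of the names

Unfold `El_eq`, `Est`; the representations `x = pp ζ μ`, `x = pp ζ (μ + (enc χ + 1))` are unique by `pp_inj`, `lim_part_unique`, `enc_inj` (`μ = μ + 0`).

* `El_lt`: first case: `ζ' < ζ < μ`, so `PL ζ' μ ζ μ`. Second case: `ξ ≤ pp ζ ξ < μ ≤ x`.
* `val_ord`: induction on `ζ`: the elements are the `val (pp ζ' μ)`, `ζ' < ζ`; `Ordinal.mem_toZFSet_iff`, `ZFSet.ext`.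
* `uf_le`: `sInf` of a set of ordinals `< y` (or empty: `0`); `p1 y ≤ y`, `p2 y ≤ y`.
-/

set_option autoImplicit false

open Set Order

open Pool.Agent.Lib.H45Osc (w1 limitPts)

namespace Pool.Agent.H82K

theorem b05_ne {ζ μ ζ' μ' : O} (hμ : Lim μ) (hμ' : Lim μ') {n : ℕ}
    (h : pp ζ μ = pp ζ' (μ' + (n + 1 : ℕ))) : False := by
  have h1 := (pp_inj h).2
  have h2 := lim_part_unique (n := 0) (n' := n + 1) (Or.inl hμ) (Or.inl hμ') (by simpa using h1)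
  exact absurd h2.2 (by omega)

theorem b05_sInf {S : Set O} {y : O} (h : ∀ ξ ∈ S, ξ ≤ y) : sInf S ≤ y := by
  rcases S.eq_empty_or_nonempty with h0 | ⟨ξ, hξ⟩
  · rw [h0, Ordinal.sInf_empty]
    exact bot_le
  · exact (csInf_le' hξ).trans (h ξ hξ)

variable (A : Set O)

theorem El_zero {ζ μ : O} (hμ : Lim μ) (hζ : ζ < μ) :
    El A (pp ζ μ) = {ξ | ∃ ζ' < ζ, ξ = pp ζ' μ} := by
  rw [El_eq]
  ext ξ
  constructor
  · rintro ⟨ζ₁, μ₁, hμ₁, h1, (⟨he, h⟩ | ⟨χ, he, -⟩)⟩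
    · obtain ⟨rfl, rfl⟩ := pp_inj he
      exact h
    · exact (b05_ne hμ hμ₁ he).elim
  · intro h
    exact ⟨ζ, μ, hμ, hζ, Or.inl ⟨rfl, h⟩⟩

theorem El_code {ζ μ : O} (hμ : Lim μ) (hζ : ζ < μ) (χ : Fm) :
    El A (pp ζ (μ + (enc χ + 1 : ℕ))) = {ξ | pp ζ ξ < μ ∧ TT A μ χ (pp ζ ξ)} := by
  rw [El_eq]
  ext ξ
  constructor
  · rintro ⟨ζ₁, μ₁, hμ₁, h1, (⟨he, -⟩ | ⟨χ₁, he, h⟩)⟩
    · exact (b05_ne hμ₁ hμ he.symm).elim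
    · obtain ⟨rfl, h2⟩ := pp_inj he
      obtain ⟨rfl, h3⟩ := lim_part_unique (Or.inl hμ) (Or.inl hμ₁) h2
      obtain rfl : χ = χ₁ := enc_inj (by omega)
      exact h
  · intro h
    exact ⟨ζ, μ, hμ, hζ, Or.inr ⟨χ, rfl, h⟩⟩

/-- a name with an element is a code -/
theorem El_cases {x ξ : O} (h : ξ ∈ El A x) : ∃ ζ μ, Lim μ ∧ ζ < μ ∧
    (x = pp ζ μ ∨ ∃ χ, x = pp ζ (μ + (enc χ + 1 : ℕ))) := by
  rw [El_eq] at h
  obtain ⟨ζ, μ, hμ, hζ, (⟨he, -⟩ | ⟨χ, he, -⟩)⟩ := h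
  · exact ⟨ζ, μ, hμ, hζ, Or.inl he⟩
  · exact ⟨ζ, μ, hμ, hζ, Or.inr ⟨χ, he⟩⟩

theorem El_lt {x ξ : O} (h : ξ ∈ El A x) : ξ < x := by
  rw [El_eq] at h
  obtain ⟨ζ, μ, hμ, hζ, (⟨he, ζ', h1, rfl⟩ | ⟨χ, he, h1, -⟩)⟩ := h
  · rw [he, pp_lt_iff]
    right
    refine ⟨?_, Or.inl h1⟩
    rw [max_eq_right (h1.trans hζ).le, max_eq_right hζ.le]
  · rw [he]
    exact ((le_pp_right ζ ξ).trans_lt h1).trans_le
      ((le_self_add).trans (le_pp_right ζ (μ + (enc χ + 1 : ℕ))))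

theorem mem_val {x : O} {y : ZFSet.{0}} : y ∈ val A x ↔ ∃ ξ ∈ El A x, y = val A ξ := by
  rw [mem_val']
  constructor
  · rintro ⟨ξ, -, h1, h2⟩
    exact ⟨ξ, h1, h2⟩
  · rintro ⟨ξ, h1, h2⟩
    exact ⟨ξ, El_lt A h1, h1, h2⟩

theorem val_ord {ζ μ : O} (hμ : Lim μ) (hζ : ζ < μ) : val A (pp ζ μ) = ζ.toZFSet := by
  induction ζ using WellFoundedLT.induction with
  | ind ζ ih =>
    ext y
    rw [mem_val, El_zero A hμ hζ, Ordinal.mem_toZFSet_iff]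
    constructor
    · rintro ⟨ξ, ⟨ζ', h1, rfl⟩, rfl⟩
      exact ⟨ζ', h1, (ih ζ' h1 (h1.trans hζ)).symm⟩
    · rintro ⟨a, h1, rfl⟩
      exact ⟨pp a μ, ⟨a, h1, rfl⟩, (ih a h1 (h1.trans hζ)).symm⟩

theorem uf_le (k : Fin 3) (y : O) : uf (val A) (El A) k y ≤ y := by
  fin_cases k
  · exact b05_sInf fun ξ hξ => hξ.1.le
  · refine b05_sInf fun ξ hξ => ?_
    rcases hξ with hξ | hξ
    · exact hξ.1.le.trans (p1_le y)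
    · exact hξ.1.le.trans (p2_le y)
  · exact b05_sInf fun ξ hξ => hξ.1.le.trans (p2_le y)

theorem TT_ex {μ w : O} (hμ : Lim μ) (hw : w < μ) (χ : Fm) :
    TT A μ (Fm.ex χ) w ↔ ∃ ξ, ξ ∈ El A (pp w (μ + (enc χ + 1 : ℕ))) := by
  rw [El_code A hμ hw χ]
  exact Iff.rfl

end Pool.Agent.H82K
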