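import Pool.Agent.Lib.H82K.Defs

/-!
# Chunk C04 (M, only Mathlib): collapse of a set of ordinals

`exists_collapse`: for instance by well-founded recursion `π x = sSup {π y + 1 | y ∈ X, y < x}` (that is
the order type of `X ∩ x`) and `lb = sSup {π y + 1 | y ∈ X}`; the sets are bounded above since
`π y ≤ y` for `y ∈ X`. Or use `Ordinal.type`, `Ordinal.typein` for the small well-ordered set `X`.

The others: `le`: induction on `x ∈ X`: if `x < π x` then `x < lb`, `x = π y` with `y ∈ X`; `y < x`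
(otherwise `π x ≤ π y = x`), so `π y < ...`: by induction `x = π y ≤ y < x`, contradiction. `eq_self`:
induction on `x < c`: `π x ≤ x`; if `π x < x` then `π x ∈ X` and `π (π x) = π x` by induction, so `π x = x` by
injectivity. `le_of_le`: if `π x < c` then `π (π x) = π x`, `x = π x < c`. `lb_le`: if `l < lb` then
`l = π y` with `y ∈ X`, `y < l`, but `π y ≤ y`.
-/

set_option autoImplicit false

open Set Order

open Pool.Agent.Lib.H45Osc (w1 limitPts)

namespace Pool.Agent.H82K

/-- the collapse of `X` -/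
private noncomputable def c04_pi (X : Set O) : O → O :=
  WellFounded.fix (Ordinal.lt_wf : WellFounded ((· < ·) : O → O → Prop))
    (fun x rec => ⨆ y : {y : O // y ∈ X ∧ y < x}, (rec y.1 y.2.2 + 1))

private theorem c04_pi_eq (X : Set O) (x : O) :
    c04_pi X x = ⨆ y : {y : O // y ∈ X ∧ y < x}, (c04_pi X y.1 + 1) := by
  unfold c04_pi
  rw [WellFounded.fix_eq]

private theorem c04_bdd {S : Set O} {l : O} (hS : ∀ x ∈ S, x < l) (f : O → O) :
    BddAbove (Set.range fun y : {y : O // y ∈ S} => f y.1) := by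
  have h1 : Small.{0} {y : O // y ∈ S} :=
    small_subset (s := Set.Iio l) (t := S) (fun x hx => hS x hx)
  exact Ordinal.bddAbove_of_small

private theorem c04_lt (X : Set O) {x y : O} (hy : y ∈ X) (hyx : y < x) :
    c04_pi X y < c04_pi X x := by
  rw [c04_pi_eq X x]
  have hb : BddAbove (Set.range fun y : {y : O // y ∈ X ∧ y < x} => (c04_pi X y.1 + 1)) :=
    c04_bdd (S := {y | y ∈ X ∧ y < x}) (l := x) (fun z hz => hz.2) (fun y => c04_pi X y + 1)
  have h1 := le_ciSup hb ⟨y, hy, hyx⟩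
  exact lt_of_lt_of_le (Order.lt_succ _) h1

theorem exists_collapse {X : Set O} {l : O} (hX : ∀ x ∈ X, x < l) :
    ∃ (lb : O) (π : O → O), IsCollapse X lb π := by
  have hb : BddAbove (Set.range fun y : {y : O // y ∈ X} => (c04_pi X y.1 + 1)) :=
    c04_bdd (S := X) hX (fun y => c04_pi X y + 1)
  refine ⟨⨆ y : {y : O // y ∈ X}, (c04_pi X y.1 + 1), c04_pi X, ?_, ?_, ?_⟩
  · intro x hx y _ hxy
    exact c04_lt X hx hxy
  · intro x hx
    exact lt_of_lt_of_le (Order.lt_succ _) (le_ciSup hb ⟨x, hx⟩)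
  · intro z hz
    have hne : ∃ x, x ∈ X ∧ z ≤ c04_pi X x := by
      by_contra hcon
      push Not at hcon
      refine absurd hz (not_lt.mpr ?_)
      rcases isEmpty_or_nonempty {y : O // y ∈ X} with he | hne
      · rw [ciSup_of_empty]
        exact bot_le
      · exact ciSup_le fun y => Order.succ_le_of_lt (hcon y.1 y.2)
    let x := WellFounded.min (Ordinal.lt_wf : WellFounded ((· < ·) : O → O → Prop)) {x | x ∈ X ∧ z ≤ c04_pi X x} hne
    have hx : x ∈ X ∧ z ≤ c04_pi X x := WellFounded.min_mem _ _ hne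
    refine ⟨x, hx.1, le_antisymm ?_ hx.2⟩
    rw [c04_pi_eq X x]
    rcases isEmpty_or_nonempty {y : O // y ∈ X ∧ y < x} with he | hne'
    · rw [ciSup_of_empty]
      exact bot_le
    · refine ciSup_le fun y => Order.succ_le_of_lt ?_
      by_contra hlt
      exact WellFounded.not_lt_min (Ordinal.lt_wf : WellFounded ((· < ·) : O → O → Prop))
        {x | x ∈ X ∧ z ≤ c04_pi X x} (x := y.1) ⟨y.2.1, not_lt.mp hlt⟩ y.2.2

namespace IsCollapse

variable {X : Set O} {lb : O} {π : O → O} (h : IsCollapse X lb π)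

include h

theorem lt_iff {x y : O} (hx : x ∈ X) (hy : y ∈ X) : π x < π y ↔ x < y := by
  refine ⟨fun hlt => ?_, fun hlt => h.mono x hx y hy hlt⟩
  rcases lt_trichotomy x y with h1 | h1 | h1
  · exact h1
  · rw [h1] at hlt
    exact absurd hlt (lt_irrefl _)
  · exact absurd hlt (lt_asymm (h.mono y hy x hx h1))

theorem le_iff {x y : O} (hx : x ∈ X) (hy : y ∈ X) : π x ≤ π y ↔ x ≤ y := by
  rw [← not_lt, ← not_lt, h.lt_iff hy hx]

theorem inj {x y : O} (hx : x ∈ X) (hy : y ∈ X) (he : π x = π y) : x = y :=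
  le_antisymm ((h.le_iff hx hy).mp he.le) ((h.le_iff hy hx).mp he.ge)

theorem le_self {x : O} (hx : x ∈ X) : π x ≤ x := by
  induction x using WellFoundedLT.induction with
  | ind x ih =>
    by_contra hlt
    have h1 : x < π x := not_le.mp hlt
    obtain ⟨y, hy, hyx⟩ := h.onto x (h1.trans (h.maps x hx))
    have h2 : y < x := (h.lt_iff hy hx).mp (by rw [hyx]; exact h1)
    have h3 := ih y h2 hy
    rw [hyx] at h3
    exact absurd h2 (not_lt.mpr h3)

theorem eq_self {c : O} (hc : ∀ x < c, x ∈ X) {x : O} (hx : x < c) : π x = x := by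
  induction x using WellFoundedLT.induction with
  | ind x ih =>
    rcases lt_or_eq_of_le (h.le_self (hc x hx)) with h1 | h1
    · exact h.inj (hc _ (h1.trans hx)) (hc x hx) (ih _ h1 (h1.trans hx))
    · exact h1

theorem le_of_le {c : O} (hc : ∀ x < c, x ∈ X) {x : O} (hx : x ∈ X) (hcx : c ≤ x) : c ≤ π x := by
  by_contra hlt
  have h1 : π x < c := not_le.mp hlt
  have h2 : π x = x := h.inj (hc _ h1) hx (h.eq_self hc h1)
  rw [h2] at h1
  exact absurd h1 (not_lt.mpr hcx)

theorem lb_le {l : O} (hX : ∀ x ∈ X, x < l) : lb ≤ l := by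
  by_contra hlt
  obtain ⟨y, hy, hyl⟩ := h.onto l (not_le.mp hlt)
  have h1 := h.le_self hy
  rw [hyl] at h1
  exact absurd (hX y hy) (not_lt.mpr h1)

theorem le_lb {c : O} (hc : ∀ x < c, x ∈ X) : c ≤ lb := by
  by_contra hlt
  have h1 : lb < c := not_le.mp hlt
  have h2 := h.maps lb (hc lb h1)
  rw [h.eq_self hc h1] at h2
  exact absurd h2 (lt_irrefl _)

/-- the part of `X` below `m ∈ X` is collapsed to `π m` -/
theorem restrict {m : O} (hm : m ∈ X) : IsCollapse {x | x ∈ X ∧ x < m} (π m) π := by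
  refine ⟨fun x hx y hy hxy => h.mono x hx.1 y hy.1 hxy, fun x hx => h.mono x hx.1 m hm hx.2, ?_⟩
  intro z hz
  obtain ⟨x, hx, hxz⟩ := h.onto z (hz.trans (h.maps m hm))
  exact ⟨x, ⟨hx, (h.lt_iff hx hm).mp (by rw [hxz]; exact hz)⟩, hxz⟩

/-- the collapse is unique -/
theorem unique {lb' : O} {π' : O → O} (h' : IsCollapse X lb' π') : lb = lb' ∧ ∀ x ∈ X, π x = π' x := by
  have hpi : ∀ x ∈ X, π x = π' x := by
    intro x
    induction x using WellFoundedLT.induction with
    | ind x ih =>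
      intro hx
      rcases lt_trichotomy (π x) (π' x) with h1 | h1 | h1
      · obtain ⟨y, hy, hyx⟩ := h'.onto (π x) (h1.trans (h'.maps x hx))
        have h2 : y < x := (h'.lt_iff hy hx).mp (by rw [hyx]; exact h1)
        have h3 : π y = π x := by rw [ih y h2 hy, hyx]
        exact absurd h2 (by rw [h.inj hy hx h3]; exact lt_irrefl _)
      · exact h1
      · obtain ⟨y, hy, hyx⟩ := h.onto (π' x) (h1.trans (h.maps x hx))
        have h2 : y < x := (h.lt_iff hy hx).mp (by rw [hyx]; exact h1)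
        have h3 : π' y = π' x := by rw [← ih y h2 hy, hyx]
        exact absurd h2 (by rw [h'.inj hy hx h3]; exact lt_irrefl _)
  refine ⟨?_, hpi⟩
  rcases lt_trichotomy lb lb' with h1 | h1 | h1
  · obtain ⟨x, hx, hxl⟩ := h'.onto lb h1
    have h2 := h.maps x hx
    rw [hpi x hx, hxl] at h2
    exact absurd h2 (lt_irrefl _)
  · exact h1
  · obtain ⟨x, hx, hxl⟩ := h.onto lb' h1
    have h2 := h'.maps x hx
    rw [← hpi x hx, hxl] at h2
    exact absurd h2 (lt_irrefl _)

/-- a finite set below `lb` is the image of a finite subset of `X` -/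
theorem exists_preimage (F : Finset O) (hF : ∀ z ∈ F, z < lb) :
    ∃ G : Finset O, (∀ x ∈ G, x ∈ X) ∧ G.image π = F := by
  classical
  have hch : ∀ z : {z // z ∈ F}, ∃ x ∈ X, π x = z.1 := fun z => h.onto z.1 (hF z.1 z.2)
  choose g hg hgz using hch
  refine ⟨F.attach.image g, ?_, ?_⟩
  · intro x hx
    obtain ⟨z, -, rfl⟩ := Finset.mem_image.mp hx
    exact hg z
  · ext z
    rw [Finset.mem_image]
    constructor
    · rintro ⟨x, hx, rfl⟩
      obtain ⟨w, -, rfl⟩ := Finset.mem_image.mp hx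
      rw [hgz w]
      exact w.2
    · intro hz
      exact ⟨g ⟨z, hz⟩, Finset.mem_image.mpr ⟨⟨z, hz⟩, Finset.mem_attach _ _, rfl⟩, hgz ⟨z, hz⟩⟩

end IsCollapse

end Pool.Agent.H82K
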