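import Pool.Agent.Lib.H82K.BX
import Pool.Agent.Lib.H82K.B05
import Pool.Agent.Lib.H82K.C04

/-!
# Chunk B06 (S/M): closure of `X`

Use `Clo.un` with `k = 0, .., 6` (the values of `(mach A).u` at numerals reduce: `show`, `simp [mach]` or `rfl` lemmas) and `Clo.bin`. The values of
`u 1 .. u 6` at `x` are `≤ x < l` (`prd_le`, `p1_le`, `p2_le`, `uf_le`). `lim_mem`: `μ + n ∈ X` gives `μ ∈ X`: induction on `n` with `prd (μ + (n + 1)) = μ + n`. `add_mem`:
`μ ∈ X`, `μ + n < l` gives `μ + n ∈ X`: induction on `n`. `dec_mem`: induction on `i`.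
-/

set_option autoImplicit false

open Set Order

open Pool.Agent.Lib.H45Osc (w1 limitPts)

namespace Pool.Agent.H82K.Col

variable {A : Set O} {l lb : O} {X : Set O} {π : O → O} (h : Col A l lb X π)

include h

theorem zero_mem : (0 : O) ∈ X :=
  h.om 0 (by
    rw [show (w1 : O) = (Cardinal.aleph.{0} 1).ord from rfl, Cardinal.ord_aleph]
    exact Ordinal.omega_pos 1)

theorem succ_mem {x : O} (hx : x ∈ X) (hl : x + 1 < l) : x + 1 ∈ X :=
  h.clo.un 0 x hx hl

theorem prd_mem {x : O} (hx : x ∈ X) : prd x ∈ X :=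
  h.clo.un 1 x hx (lt_of_le_of_lt (prd_le x) (h.clo.lt x hx))

theorem p1_mem {x : O} (hx : x ∈ X) : p1 x ∈ X :=
  h.clo.un 2 x hx (lt_of_le_of_lt (p1_le x) (h.clo.lt x hx))

theorem p2_mem {x : O} (hx : x ∈ X) : p2 x ∈ X :=
  h.clo.un 3 x hx (lt_of_le_of_lt (p2_le x) (h.clo.lt x hx))

theorem uf_mem (k : Fin 3) {x : O} (hx : x ∈ X) : uf (val A) (El A) k x ∈ X := by
  have hl : uf (val A) (El A) k x < l := lt_of_le_of_lt (uf_le A k x) (h.clo.lt x hx)
  match k, hl with
  | 0, hl => exact h.clo.un 4 x hx hl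
  | 1, hl => exact h.clo.un 5 x hx hl
  | 2, hl => exact h.clo.un 6 x hx hl

theorem pp_mem {x y : O} (hx : x ∈ X) (hy : y ∈ X) (hl : pp x y < l) : pp x y ∈ X :=
  h.clo.bin x hx y hy hl

theorem lim_mem {μ : O} {n : ℕ} (hx : μ + n ∈ X) : μ ∈ X := by
  induction n with
  | zero => simpa using hx
  | succ n ih =>
    apply ih
    have h1 := h.prd_mem hx
    have h2 : μ + ((n + 1 : ℕ) : O) = (μ + n) + 1 := by
      push_cast
      rw [add_assoc]
    rw [h2, prd_add_one] at h1
    exact h1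

theorem add_mem {μ : O} {n : ℕ} (hμ : μ ∈ X) (hl : μ + n < l) : μ + n ∈ X := by
  induction n with
  | zero => simpa using hμ
  | succ n ih =>
    have h2 : μ + ((n + 1 : ℕ) : O) = (μ + n) + 1 := by
      push_cast
      rw [add_assoc]
    rw [h2] at hl ⊢
    exact h.succ_mem (ih (lt_of_le_of_lt (le_self_add) hl)) hl

theorem dec_mem {w : O} (hw : w ∈ X) (i : ℕ) : dec w i ∈ X := by
  induction i generalizing w with
  | zero => exact h.p2_mem hw
  | succ i ih => exact ih (h.p1_mem hw)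

theorem pi_zero : π 0 = 0 := by
  have h1 := h.col.le_self h.zero_mem
  exact le_antisymm h1 zero_le

end Pool.Agent.H82K.Col
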