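import Pool.Agent.Lib.H82K.B06

/-!
# Chunk B07 (M): the collapse and the pairing

`pi_coords`: for `z ∈ X`: `π z = pp (π (p1 z)) (π (p2 z))`. Strong induction on `z`. Let `w = pp (π (p1 z)) (π (p2 z))`.
If `w < π z`, then `w < lb`, `w = π z'`, `z' ∈ X`, `z' < z`, and by induction `w = pp (π (p1 z')) (π (p2 z'))`; so by `pp_inj` and injectivity of
`π` (`p1 z' ∈ X` etc.) `z' = z`, contradiction. If `π z < w`: write `π z = pp a' b'`; `PL a' b' (π (p1 z)) (π (p2 z))` (`pp_lt_iff`), so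
`a', b' ≤ max (π (p1 z)) (π (p2 z)) < lb`, hence `a' = π a`, `b' = π b` with `a, b ∈ X`; `π` preserves `<`, `=` and `max` on `X`, so `PL a b (p1 z) (p2 z)`, `pp a b < z < l`, `pp a b ∈ X`,
and by induction `π (pp a b) = pp (π a) (π b) = π z`, so `pp a b = z`, contradiction.

`pi_pp`: `pi_coords` with `z = pp x y`. `le_pp`: if `pp (π x) (π y) < lb` it is `π z`, `z ∈ X`, and `pi_coords` gives `p1 z = x`, `p2 z = y`, so `pp x y = z < l`. `pi_p1`, `pi_p2`: apply
`p1`, `p2` to `pi_coords`. `pi_max`: cases.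
-/

set_option autoImplicit false

open Set Order

open Pool.Agent.Lib.H45Osc (w1 limitPts)

namespace Pool.Agent.H82K.Col

variable {A : Set O} {l lb : O} {X : Set O} {π : O → O} (h : Col A l lb X π)

include h

theorem b07_max {x y : O} (hx : x ∈ X) (hy : y ∈ X) : max (π x) (π y) = π (max x y) ∧ max x y ∈ X := by
  rcases le_total x y with h1 | h1
  · rw [max_eq_right h1, max_eq_right ((h.col.le_iff hx hy).2 h1)]
    exact ⟨rfl, hy⟩
  · rw [max_eq_left h1, max_eq_left ((h.col.le_iff hy hx).2 h1)]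
    exact ⟨rfl, hx⟩

theorem b07_PL {a b x y : O} (ha : a ∈ X) (hb : b ∈ X) (hx : x ∈ X) (hy : y ∈ X)
    (hp : PL (π a) (π b) (π x) (π y)) : PL a b x y := by
  obtain ⟨e1, m1⟩ := h.b07_max ha hb
  obtain ⟨e2, m2⟩ := h.b07_max hx hy
  unfold PL at hp ⊢
  rw [e1, e2] at hp
  rcases hp with hp | ⟨hp1, hp2⟩
  · exact Or.inl ((h.col.lt_iff m1 m2).1 hp)
  · refine Or.inr ⟨h.col.inj m1 m2 hp1, ?_⟩
    rcases hp2 with h3 | ⟨h3, h4⟩
    · exact Or.inl ((h.col.lt_iff ha hx).1 h3)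
    · exact Or.inr ⟨h.col.inj ha hx h3, (h.col.lt_iff hb hy).1 h4⟩

theorem pi_coords {z : O} (hz : z ∈ X) : π z = pp (π (p1 z)) (π (p2 z)) := by
  induction z using WellFoundedLT.induction with
  | ind z ih =>
    have h1 := h.p1_mem hz
    have h2 := h.p2_mem hz
    have hzl := h.clo.lt z hz
    rcases lt_trichotomy (pp (π (p1 z)) (π (p2 z))) (π z) with hlt | heq | hgt
    · exfalso
      obtain ⟨z', hz', he⟩ := h.col.onto _ (hlt.trans (h.col.maps z hz))
      have h3 : z' < z := (h.col.lt_iff hz' hz).1 (by rw [he]; exact hlt)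
      have h4 := ih z' h3 hz'
      rw [he] at h4
      obtain ⟨h5, h6⟩ := pp_inj h4
      have h7 := h.col.inj h1 (h.p1_mem hz') h5
      have h8 := h.col.inj h2 (h.p2_mem hz') h6
      have h9 : z = z' := by rw [← pp_p1_p2 z, ← pp_p1_p2 z', h7, h8]
      exact h3.ne h9.symm
    · exact heq.symm
    · exfalso
      have h3 : pp (p1 (π z)) (p2 (π z)) = π z := pp_p1_p2 _
      have h4 : PL (p1 (π z)) (p2 (π z)) (π (p1 z)) (π (p2 z)) := pp_lt_iff.1 (by rw [h3]; exact hgt)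
      have h5 : max (p1 (π z)) (p2 (π z)) ≤ max (π (p1 z)) (π (p2 z)) := by
        rcases h4 with h4 | h4
        · exact h4.le
        · exact h4.1.le
      have h6 : max (π (p1 z)) (π (p2 z)) < lb := max_lt (h.col.maps _ h1) (h.col.maps _ h2)
      obtain ⟨a, ha, ha'⟩ := h.col.onto _ ((le_max_left _ _).trans_lt (h5.trans_lt h6))
      obtain ⟨b, hb, hb'⟩ := h.col.onto _ ((le_max_right _ _).trans_lt (h5.trans_lt h6))
      rw [← ha', ← hb'] at h4
      have h7 : PL a b (p1 z) (p2 z) := h.b07_PL ha hb h1 h2 h4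
      have h8 : pp a b < z := by
        have h9 := pp_lt h7
        rwa [pp_p1_p2] at h9
      have h9 : pp a b ∈ X := h.pp_mem ha hb (h8.trans hzl)
      have h10 := ih _ h8 h9
      rw [p1_pp, p2_pp, ha', hb', h3] at h10
      exact h8.ne (h.col.inj h9 hz h10)

theorem pi_pp {x y : O} (hx : x ∈ X) (hy : y ∈ X) (hl : pp x y < l) :
    pp (π x) (π y) = π (pp x y) := by
  have h1 := h.pi_coords (h.pp_mem hx hy hl)
  rw [p1_pp, p2_pp] at h1
  exact h1.symm

theorem le_pp {x y : O} (hx : x ∈ X) (hy : y ∈ X) (hl : l ≤ pp x y) : lb ≤ pp (π x) (π y) := by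
  by_contra hlt
  obtain ⟨z, hz, hz'⟩ := h.col.onto _ (not_le.1 hlt)
  have h1 := h.pi_coords hz
  rw [hz'] at h1
  obtain ⟨h2, h3⟩ := pp_inj h1
  have h4 := h.col.inj hx (h.p1_mem hz) h2
  have h5 := h.col.inj hy (h.p2_mem hz) h3
  rw [h4, h5, pp_p1_p2] at hl
  exact absurd (h.clo.lt z hz) (not_lt.2 hl)

theorem pi_p1 {x : O} (hx : x ∈ X) : π (p1 x) = p1 (π x) := by
  rw [h.pi_coords hx, p1_pp]

theorem pi_p2 {x : O} (hx : x ∈ X) : π (p2 x) = p2 (π x) := by
  rw [h.pi_coords hx, p2_pp]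

theorem pi_dec {w : O} (hw : w ∈ X) (i : ℕ) : π (dec w i) = dec (π w) i := by
  induction i generalizing w with
  | zero => exact h.pi_p2 hw
  | succ i ih =>
    show π (dec (p1 w) i) = dec (p1 (π w)) i
    rw [ih (h.p1_mem hw), h.pi_p1 hw]

end Pool.Agent.H82K.Col
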