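import Pool.Agent.Lib.H82K.B06

/-!
# Chunk B08 (S/M): the collapse, successors and limits

* `pi_succ`: `x + 1 ∈ X`; `π x < π (x + 1)`, so `π x + 1 ≤ π (x + 1)`. If `π x + 1 < π (x + 1) < lb` then `π x + 1 = π z`, `z ∈ X`, `x < z < x + 1`, impossible.
* `le_succ`: if `π x + 1 < lb` then it is `π z` with `z ∈ X`, `x < z < l ≤ x + 1`, impossible.
* `lim_iff`: if `x` is a limit: `0 < x` gives `0 < π x` (`pi_zero`); a `z < π x` is `π y`, `y ∈ X`, `y < x`, so `y + 1 < x`, `π z + 1 = π (y + 1) < π x`. If `π x`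
  is a limit then `x ≠ 0`, and if `x = y + 1` then `y = prd x ∈ X` and `π x = π y + 1`. (Every ordinal is `0`, a successor or a limit; `exists_lim_part`.)
* `pi_prd`: by cases (`0`, successor, limit).
* `pi_add`: induction on `n` with `pi_succ` (`μ + n < μ + (n + 1) < l`).
-/

set_option autoImplicit false

open Set Order

open Pool.Agent.Lib.H45Osc (w1 limitPts)

namespace Pool.Agent.H82K.Col

variable {A : Set O} {l lb : O} {X : Set O} {π : O → O} (h : Col A l lb X π)

include h

theorem pi_succ {x : O} (hx : x ∈ X) (hl : x + 1 < l) : π x + 1 = π (x + 1) := by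
  have hm : x + 1 ∈ X := h.succ_mem hx hl
  have hlt : π x < π (x + 1) := h.col.mono x hx (x + 1) hm (lt_add_one x)
  refine le_antisymm (Order.add_one_le_of_lt hlt) ?_
  by_contra hcon
  obtain ⟨z, hz, hzz⟩ := h.col.onto (π x + 1) (lt_trans (not_le.mp hcon) (h.col.maps _ hm))
  have h1 : x < z := by
    rw [← h.col.lt_iff hx hz, hzz]
    exact lt_add_one _
  have h2 : z < x + 1 := by
    rw [← h.col.lt_iff hz hm, hzz]
    exact not_le.mp hcon
  exact absurd h1 (not_lt.mpr (Order.lt_add_one_iff.mp h2))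

theorem le_succ {x : O} (hx : x ∈ X) (hl : l ≤ x + 1) : lb ≤ π x + 1 := by
  by_contra hcon
  obtain ⟨z, hz, hzz⟩ := h.col.onto (π x + 1) (not_le.mp hcon)
  have h1 : x < z := by
    rw [← h.col.lt_iff hx hz, hzz]
    exact lt_add_one _
  have h2 : z < x + 1 := lt_of_lt_of_le (h.clo.lt z hz) hl
  exact absurd h1 (not_lt.mpr (Order.lt_add_one_iff.mp h2))

theorem lim_iff {x : O} (hx : x ∈ X) : Lim (π x) ↔ Lim x := by
  constructor
  · intro hp
    obtain ⟨μ, n, hμ, hxn⟩ := exists_lim_part x
    cases n with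
    | zero =>
      simp only [Nat.cast_zero, add_zero] at hxn
      rcases hμ with hμ | hμ
      · rw [hxn]; exact hμ
      · exfalso
        rw [hxn, hμ, h.pi_zero] at hp
        exact lt_irrefl _ hp.1
    | succ n =>
      exfalso
      have hy : x = (μ + n) + 1 := by rw [hxn, Nat.cast_succ, add_assoc]
      have hyX : μ + n ∈ X := by
        have := h.prd_mem hx
        rwa [hy, prd_add_one] at this
      have hxl : (μ + n) + 1 < l := by rw [← hy]; exact h.clo.lt x hx
      have e := h.pi_succ hyX hxl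
      rw [← hy] at e
      have := hp.2 (π (μ + n)) (by rw [← e]; exact lt_add_one _)
      rw [e] at this
      exact lt_irrefl _ this
  · intro hL
    refine ⟨?_, ?_⟩
    · have := h.col.mono 0 h.zero_mem x hx hL.1
      rwa [h.pi_zero] at this
    · intro z hz
      obtain ⟨y, hy, rfl⟩ := h.col.onto z (lt_trans hz (h.col.maps x hx))
      have hyx : y < x := (h.col.lt_iff hy hx).mp hz
      have hy1 : y + 1 < x := hL.2 y hyx
      have hyl : y + 1 < l := lt_trans hy1 (h.clo.lt x hx)
      rw [h.pi_succ hy hyl]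
      exact h.col.mono _ (h.succ_mem hy hyl) _ hx hy1

theorem pi_prd {x : O} (hx : x ∈ X) : π (prd x) = prd (π x) := by
  obtain ⟨μ, n, hμ, hxn⟩ := exists_lim_part x
  cases n with
  | zero =>
    simp only [Nat.cast_zero, add_zero] at hxn
    rcases hμ with hμ | hμ
    · have hL : Lim x := by rw [hxn]; exact hμ
      rw [prd_lim hL, prd_lim ((h.lim_iff hx).mpr hL)]
    · have hx0 : x = 0 := by rw [hxn, hμ]
      have h0 : prd (0 : O) = 0 := le_antisymm (prd_le 0) zero_le
      rw [hx0, h0, h.pi_zero, h0]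
  | succ n =>
    have hy : x = (μ + n) + 1 := by rw [hxn, Nat.cast_succ, add_assoc]
    have hyX : μ + n ∈ X := by
      have := h.prd_mem hx
      rwa [hy, prd_add_one] at this
    have hxl : (μ + n) + 1 < l := by rw [← hy]; exact h.clo.lt x hx
    rw [hy, ← h.pi_succ hyX hxl, prd_add_one, prd_add_one]

theorem pi_add {μ : O} {n : ℕ} (hμ : μ ∈ X) (hl : μ + n < l) : π (μ + n) = π μ + n := by
  induction n with
  | zero => simp only [Nat.cast_zero, add_zero]
  | succ n ih =>
    have e : μ + ((n + 1 : ℕ) : O) = (μ + n) + 1 := by rw [Nat.cast_succ, add_assoc]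
    rw [e] at hl ⊢
    have hl' : μ + n < l := lt_trans (lt_add_one _) hl
    rw [← h.pi_succ (h.add_mem hμ hl') hl, ih hl', Nat.cast_succ, add_assoc]

end Pool.Agent.H82K.Col
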