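import Pool.Agent.Lib.H82K.B06

/-!
# Chunk B09 (S): least elements and the collapse

`R ξ` implies `ξ < b`, `R' ξ` implies `ξ < π b`, where `b ∈ X`; `R ξ ↔ R' (π ξ)` for `ξ ∈ X`, and the least element of `R` is in `X`. If some
`R ξ` then `m = sInf R` satisfies `R m` (`csInf_mem`), `m ∈ X`, so `R' (π m)`; if `R' ξ'` then `ξ' < π b < lb`, `ξ' = π ξ` with `ξ ∈ X`,
so `R ξ`, `m ≤ ξ`, `π m ≤ ξ'`. So `sInf R' = π m`. If no `R ξ`, then no `R' ξ'` and both infima are `0` (`csInf_empty`), `π 0 = 0`.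
-/

set_option autoImplicit false

open Set Order

open Pool.Agent.Lib.H45Osc (w1 limitPts)

namespace Pool.Agent.H82K.Col

variable {A : Set O} {l lb : O} {X : Set O} {π : O → O} (h : Col A l lb X π)

include h

theorem least {b : O} (hb : b ∈ X) {R R' : O → Prop} (hR : ∀ ξ, R ξ → ξ < b)
    (hR' : ∀ ξ, R' ξ → ξ < π b) (hi : ∀ ξ ∈ X, R ξ ↔ R' (π ξ)) (hX : sInf {ξ | R ξ} ∈ X) :
    π (sInf {ξ | R ξ}) = sInf {ξ | R' ξ} ∧ ((∃ ξ, R ξ) ↔ ∃ ξ, R' ξ) := by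
  have hback : ∀ ξ', R' ξ' → ∃ ξ ∈ X, π ξ = ξ' ∧ R ξ := by
    intro ξ' hξ'
    obtain ⟨ξ, hξ, rfl⟩ := h.col.onto ξ' ((hR' ξ' hξ').trans (h.col.maps b hb))
    exact ⟨ξ, hξ, rfl, (hi ξ hξ).2 hξ'⟩
  by_cases hex : ∃ ξ, R ξ
  · have hm : R (sInf {ξ | R ξ}) := csInf_mem (s := {ξ | R ξ}) hex
    have hm' : R' (π (sInf {ξ | R ξ})) := (hi _ hX).1 hm
    refine ⟨le_antisymm ?_ (csInf_le' hm'), ⟨fun _ => ⟨_, hm'⟩, fun _ => hex⟩⟩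
    refine le_csInf ⟨_, hm'⟩ ?_
    intro ξ' hξ'
    obtain ⟨ξ, hξ, rfl, hRξ⟩ := hback ξ' hξ'
    have hle : sInf {ξ | R ξ} ≤ ξ := csInf_le' hRξ
    rcases hle.eq_or_lt with h1 | h1
    · rw [h1]
    · exact (h.col.mono _ hX _ hξ h1).le
  · have hex' : ¬ ∃ ξ, R' ξ := by
      rintro ⟨ξ', hξ'⟩
      obtain ⟨ξ, -, -, hRξ⟩ := hback ξ' hξ'
      exact hex ⟨ξ, hRξ⟩
    have e1 : {ξ | R ξ} = ∅ := by
      rw [Set.eq_empty_iff_forall_notMem]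
      exact fun ξ hξ => hex ⟨ξ, hξ⟩
    have e2 : {ξ | R' ξ} = ∅ := by
      rw [Set.eq_empty_iff_forall_notMem]
      exact fun ξ hξ => hex' ⟨ξ, hξ⟩
    refine ⟨?_, iff_of_false hex hex'⟩
    rw [e1, e2]
    have h0 : sInf (∅ : Set O) = 0 := Ordinal.sInf_empty
    rw [h0]
    exact h.pi_zero

end Pool.Agent.H82K.Col
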