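import Pool.Agent.Lib.H82K.B07
import Pool.Agent.Lib.H82K.B08
import Pool.Agent.Lib.H82K.B09

/-!
# Chunk B10 (M): preservation of truth

`μ ∈ X` is a limit, `y = pp ζ (μ + (k + 1)) ∈ X`, `ζ < μ`, all names `y' ∈ X`, `y' < y` are preserved. Claim: for `χ` with `enc χ ≤ k` and `w ∈ X`, `w < μ`:
`TT μ χ w ↔ TT (π μ) χ (π w)`. (`π w < π μ`, `Lim (π μ)` by `lim_iff`.)

Induction on `χ`. `bot`, `imp`: clear (`enc_left`, `enc_right`). `ex χ'`: `y' = pp w (μ + (enc χ' + 1))` satisfies `y' < y`: `pp_lt_of_max`, since `w, ζ < μ` and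
`enc χ' + 1 ≤ k < k + 1` (`enc_ex`). So `y' < l`; `μ + (enc χ' + 1) ∈ X` (`add_mem`), `y' ∈ X`, `π y' = pp (π w) (π μ + (enc χ' + 1))` (`pi_pp`, `pi_add`);
`TT_ex` (twice) and `PresAt.ne`. Atoms: let `s = dec w`, `dec (π w) i = π (s i)` (`pi_dec`), `s i ∈ X`, `s i ≤ w < μ ≤ y`.
* `eps i j`: `y' = pp (s i) (s j) < y` (`pp_lt_of_max`, maximum `< μ`), `y' ∈ X`, `PresAt.mem` with `p1_pp`, `p2_pp`, `pi_pp`.
* `lt i j`: `IsCollapse.lt_iff`. * `aa i`: `a = p1 (s i) ∈ X`, `p1 (π (s i)) = π a` (`pi_p1`); if `a < w1` then `π a = a` (`eq_self` with `c = w1`), otherwise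
  `w1 ≤ π a` (`le_of_le`), and the elements of `A` are `< w1`.
* `uk k i j`: `y' = p1 (s i) ≤ s i < μ ≤ y`, `PresAt.u`, injectivity. * `pk i j k`: `pp a b = c` with `a, b, c ∈ X`: if `pp a b = c` then `pp a b < l`, `pi_pp`. Conversely if
  `pp (π a) (π b) = π c < lb` then `pp a b < l` (otherwise `le_pp`), so `π (pp a b) = π c`.
-/

set_option autoImplicit false

open Set Order

open Pool.Agent.Lib.H45Osc (w1 limitPts)

namespace Pool.Agent.H82K.Col

variable {A : Set O} {l lb : O} {X : Set O} {π : O → O} (h : Col A l lb X π)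

include h

theorem TT_iff {ζ μ : O} {k : ℕ} (hμ : Lim μ) (hμX : μ ∈ X) (hζ : ζ < μ)
    (hy : pp ζ (μ + (k + 1 : ℕ)) ∈ X)
    (hP : ∀ y' ∈ X, y' < pp ζ (μ + (k + 1 : ℕ)) → PresAt A X π y') :
    ∀ χ : Fm, enc χ ≤ k → ∀ w ∈ X, w < μ → (TT A μ χ w ↔ TT A (π μ) χ (π w)) := by
  have hyl : pp ζ (μ + (k + 1 : ℕ)) < l := h.clo.lt _ hy
  have hμk : μ < μ + (k + 1 : ℕ) := by
    have h0 : (0 : O) < ((k + 1 : ℕ) : O) := by exact_mod_cast Nat.succ_pos k
    calc μ = μ + 0 := (add_zero μ).symm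
      _ < μ + (k + 1 : ℕ) := by gcongr
  have hμy : μ < pp ζ (μ + (k + 1 : ℕ)) := lt_of_lt_of_le hμk (le_pp_right _ _)
  have hL : Lim (π μ) := (h.lim_iff hμX).mpr hμ
  intro χ
  induction χ with
  | bot => intro _ w _ _; exact Iff.rfl
  | imp φ ψ ih1 ih2 =>
    intro hk w hw hwμ
    have e1 := ih1 ((enc_left φ ψ).le.trans hk) w hw hwμ
    have e2 := ih2 ((enc_right φ ψ).le.trans hk) w hw hwμ
    exact imp_congr e1 e2
  | ex χ' _ =>
    intro hk w hw hwμ
    have hk' : enc χ' + 1 ≤ k := (Nat.succ_le_of_lt (enc_ex χ')).trans hk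
    have hk2 : enc χ' + 1 < k + 1 := Nat.lt_succ_of_le hk'
    have hlt0 : μ + ((enc χ' + 1 : ℕ) : O) < μ + (k + 1 : ℕ) := by
      have : ((enc χ' + 1 : ℕ) : O) < ((k + 1 : ℕ) : O) := by exact_mod_cast hk2
      gcongr
    have hwle : w ≤ μ + ((enc χ' + 1 : ℕ) : O) := hwμ.le.trans le_self_add
    have hlt : pp w (μ + ((enc χ' + 1 : ℕ) : O)) < pp ζ (μ + (k + 1 : ℕ)) := by
      apply pp_lt_of_max
      rw [max_eq_right hwle]
      exact lt_of_lt_of_le hlt0 (le_max_right _ _)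
    have hl1 : μ + ((enc χ' + 1 : ℕ) : O) < l :=
      lt_of_le_of_lt (le_pp_right w _) (hlt.trans hyl)
    have hmem1 : μ + ((enc χ' + 1 : ℕ) : O) ∈ X := h.add_mem hμX hl1
    have hmem : pp w (μ + ((enc χ' + 1 : ℕ) : O)) ∈ X := h.pp_mem hw hmem1 (hlt.trans hyl)
    have hpi : π (pp w (μ + ((enc χ' + 1 : ℕ) : O))) = pp (π w) (π μ + ((enc χ' + 1 : ℕ) : O)) := by
      rw [← h.pi_pp hw hmem1 (hlt.trans hyl), h.pi_add hμX hl1]
    rw [TT_ex A hμ hwμ χ', TT_ex A hL (h.col.mono w hw μ hμX hwμ) χ', (hP _ hmem hlt).ne, hpi]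
  | atom a =>
    intro _ w hw hwμ
    have hs : ∀ i, dec w i ∈ X := fun i => h.dec_mem hw i
    have hsμ : ∀ i, dec w i < μ := fun i => lt_of_le_of_lt (dec_le w i) hwμ
    have hd : ∀ i, dec (π w) i = π (dec w i) := fun i => (h.pi_dec hw i).symm
    cases a with
    | eps i j =>
      show val A (dec w i) ∈ val A (dec w j) ↔ val A (dec (π w) i) ∈ val A (dec (π w) j)
      have hlt : pp (dec w i) (dec w j) < pp ζ (μ + (k + 1 : ℕ)) := by
        apply pp_lt_of_max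
        exact lt_of_lt_of_le ((max_lt (hsμ i) (hsμ j)).trans hμk) (le_max_right _ _)
      have hmem : pp (dec w i) (dec w j) ∈ X := h.pp_mem (hs i) (hs j) (hlt.trans hyl)
      have hm := (hP _ hmem hlt).mem
      rw [← h.pi_pp (hs i) (hs j) (hlt.trans hyl), p1_pp, p2_pp, p1_pp, p2_pp] at hm
      rw [hd, hd]
      exact hm
    | lt i j =>
      show dec w i < dec w j ↔ dec (π w) i < dec (π w) j
      rw [hd, hd]
      exact (h.col.lt_iff (hs i) (hs j)).symm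
    | aa i =>
      show p1 (dec w i) ∈ A ↔ p1 (dec (π w) i) ∈ A
      rw [hd, ← h.pi_p1 (hs i)]
      have hm : p1 (dec w i) ∈ X := h.p1_mem (hs i)
      rcases lt_or_ge (p1 (dec w i)) w1 with h1 | h1
      · rw [h.col.eq_self h.om h1]
      · have h2 := h.col.le_of_le h.om hm h1
        exact ⟨fun h3 => absurd (h.sub _ h3) (not_lt.mpr h1),
          fun h3 => absurd (h.sub _ h3) (not_lt.mpr h2)⟩
    | uk k' i j =>
      show uf (val A) (El A) k' (p1 (dec w i)) = p1 (dec w j) ↔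
        uf (val A) (El A) k' (p1 (dec (π w) i)) = p1 (dec (π w) j)
      rw [hd, hd, ← h.pi_p1 (hs i), ← h.pi_p1 (hs j)]
      have hm : p1 (dec w i) ∈ X := h.p1_mem (hs i)
      have hm2 : p1 (dec w j) ∈ X := h.p1_mem (hs j)
      have hlt : p1 (dec w i) < pp ζ (μ + (k + 1 : ℕ)) :=
        lt_of_le_of_lt (p1_le _) ((hsμ i).trans hμy)
      rw [← (hP _ hm hlt).u k']
      exact ⟨fun h3 => by rw [h3], fun h3 => h.col.inj (h.uf_mem k' hm) hm2 h3⟩
    | pk i j k' =>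
      show pp (p1 (dec w i)) (p1 (dec w j)) = p1 (dec w k') ↔
        pp (p1 (dec (π w) i)) (p1 (dec (π w) j)) = p1 (dec (π w) k')
      rw [hd, hd, hd, ← h.pi_p1 (hs i), ← h.pi_p1 (hs j), ← h.pi_p1 (hs k')]
      have hmi : p1 (dec w i) ∈ X := h.p1_mem (hs i)
      have hmj : p1 (dec w j) ∈ X := h.p1_mem (hs j)
      have hmk : p1 (dec w k') ∈ X := h.p1_mem (hs k')
      constructor
      · intro h3
        have hl : pp (p1 (dec w i)) (p1 (dec w j)) < l := by rw [h3]; exact h.clo.lt _ hmk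
        rw [h.pi_pp hmi hmj hl, h3]
      · intro h3
        have hl : pp (p1 (dec w i)) (p1 (dec w j)) < l := by
          by_contra hn
          have h4 := h.le_pp hmi hmj (not_lt.mp hn)
          rw [h3] at h4
          exact absurd (h.col.maps _ hmk) (not_lt.mpr h4)
        rw [h.pi_pp hmi hmj hl] at h3
        exact h.col.inj (h.pp_mem hmi hmj hl) hmk h3

end Pool.Agent.H82K.Col
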