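import Pool.Agent.Lib.H82K.B10

/-!
# Chunk B11 (M): the elements of a name are preserved

`y ∈ X`, all `y' ∈ X` below `y` are preserved. Claim: for `ξ ∈ X`: `ξ ∈ El y ↔ π ξ ∈ El (π y)`.

Write `p2 y = μ + n` with `μ` a limit or `0` (`exists_lim_part`), `y = pp (p1 y) (μ + n)`, `ζ = p1 y ∈ X`, `μ ∈ X` (`lim_mem`), `π y = pp (π ζ) (π μ + n)` (`pi_coords`, `pi_add`),
`π μ` is a limit iff `μ` is (and `π 0 = 0`). If `μ` is not a limit or `μ ≤ ζ`, or `n = m + 1` and `m ≠ enc χ` for all `χ`: then `y` is not a code and `El y` is empty (`El_cases`, `pp_inj`,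
`lim_part_unique`), and the same for `π y`.
Case `n = 0`, `μ` a limit, `ζ < μ`: `El_zero` for both. `ξ = pp ζ' μ ∈ X` with `ζ' < ζ` gives `π ξ = pp (π ζ') (π μ)` (`pi_coords`, `p1_pp`, `p2_pp`), `π ζ' < π ζ`.
Conversely `π ξ = pp ζ'' (π μ)`, `ζ'' < π ζ`; by `pi_coords` for `ξ`, `π (p1 ξ) = ζ''`, `π (p2 ξ) = π μ`, so `p2 ξ = μ`, `p1 ξ < ζ`.
Case `n = enc χ + 1`: `El_code` for both. `pp ζ ξ < μ ↔ pp (π ζ) (π ξ) < π μ`: if `pp ζ ξ < μ < l`, `pi_pp`, monotone; if `pp (π ζ) (π ξ) < π μ < lb` then not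
`l ≤ pp ζ ξ` (`le_pp`), so `π (pp ζ ξ) < π μ`. Then `pp ζ ξ ∈ X` and `TT_iff` with `k = enc χ`, `w = pp ζ ξ`.
-/

set_option autoImplicit false

open Set Order

open Pool.Agent.Lib.H45Osc (w1 limitPts)

namespace Pool.Agent.H82K.Col

theorem b11_char (A : Set O) {z ζ μ ξ : O} {n : ℕ} (hm : Lim μ ∨ μ = 0) (hz : z = pp ζ (μ + n)) :
    ξ ∈ El A z ↔ Lim μ ∧ ζ < μ ∧ ((n = 0 ∧ ∃ ζ' < ζ, ξ = pp ζ' μ) ∨
      ∃ χ, n = enc χ + 1 ∧ pp ζ ξ < μ ∧ TT A μ χ (pp ζ ξ)) := by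
  constructor
  · intro h
    obtain ⟨ζ₁, μ₁, h1, h2, h3⟩ := El_cases A h
    rcases h3 with h3 | ⟨χ, h3⟩
    · have h4 : pp ζ₁ (μ₁ + (0 : ℕ)) = pp ζ (μ + n) := by
        rw [Nat.cast_zero, add_zero, ← h3, hz]
      obtain ⟨e1, e2⟩ := pp_inj h4
      obtain ⟨e3, e4⟩ := lim_part_unique (Or.inl h1) hm e2
      rw [h3, El_zero A h1 h2] at h
      rw [← e1, ← e3, ← e4]
      exact ⟨h1, h2, Or.inl ⟨rfl, h⟩⟩
    · have h4 : pp ζ₁ (μ₁ + (enc χ + 1 : ℕ)) = pp ζ (μ + n) := by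
        rw [← h3, hz]
      obtain ⟨e1, e2⟩ := pp_inj h4
      obtain ⟨e3, e4⟩ := lim_part_unique (Or.inl h1) hm e2
      rw [h3, El_code A h1 h2] at h
      rw [← e1, ← e3, ← e4]
      exact ⟨h1, h2, Or.inr ⟨χ, rfl, h⟩⟩
  · rintro ⟨h1, h2, ⟨h3, h4⟩ | ⟨χ, h3, h4⟩⟩
    · rw [hz, h3, Nat.cast_zero, add_zero, El_zero A h1 h2]
      exact h4
    · rw [hz, h3, El_code A h1 h2]
      exact h4

variable {A : Set O} {l lb : O} {X : Set O} {π : O → O} (h : Col A l lb X π)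

include h

theorem el_iff {y : O} (hy : y ∈ X) (hP : ∀ y' ∈ X, y' < y → PresAt A X π y') :
    ∀ ξ ∈ X, ξ ∈ El A y ↔ π ξ ∈ El A (π y) := by
  have hzX : p1 y ∈ X := h.p1_mem hy
  have hp2 : p2 y ∈ X := h.p2_mem hy
  obtain ⟨μ, n, hm, hn⟩ := exists_lim_part (p2 y)
  have hμX : μ ∈ X := h.lim_mem (n := n) (by rw [← hn]; exact hp2)
  have hye : y = pp (p1 y) (μ + n) := by
    rw [← hn, pp_p1_p2]
  have hlt : μ + (n : O) < l := by
    rw [← hn]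
    exact h.clo.lt _ hp2
  have hπy : π y = pp (π (p1 y)) (π μ + n) := by
    rw [h.pi_coords hy, hn, h.pi_add hμX hlt]
  have hlim := h.lim_iff hμX
  have hm' : Lim (π μ) ∨ π μ = 0 := by
    rcases hm with h1 | h1
    · exact Or.inl (hlim.2 h1)
    · right
      rw [h1]
      exact h.pi_zero
  intro ξ hξ
  rw [b11_char A hm hye, b11_char A hm' hπy, hlim, h.col.lt_iff hzX hμX]
  refine and_congr_right fun hL => and_congr_right fun hζ => ?_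
  refine or_congr (and_congr_right fun hn0 => ?_) (exists_congr fun χ => and_congr_right fun hnχ => ?_)
  · constructor
    · rintro ⟨ζ', h1, h2⟩
      refine ⟨π ζ', ?_, ?_⟩
      · have h3 : ζ' ∈ X := by
          have h4 := h.p1_mem hξ
          rw [h2, p1_pp] at h4
          exact h4
        exact h.col.mono ζ' h3 _ hzX h1
      · rw [h.pi_coords hξ, h2, p1_pp, p2_pp]
    · rintro ⟨ζ', h1, h2⟩
      have h3 := h.pi_coords hξ
      rw [h2] at h3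
      obtain ⟨e1, e2⟩ := pp_inj h3
      have e3 : μ = p2 ξ := h.col.inj hμX (h.p2_mem hξ) e2
      refine ⟨p1 ξ, ?_, ?_⟩
      · rw [← h.col.lt_iff (h.p1_mem hξ) hzX, ← e1]
        exact h1
      · rw [e3, pp_p1_p2]
  · have hyX : pp (p1 y) (μ + (enc χ + 1 : ℕ)) ∈ X := by
      rw [← hnχ, ← hye]
      exact hy
    have hT := h.TT_iff (k := enc χ) hL hμX hζ hyX (fun y' h1 h2 => hP y' h1 (by
      rw [hye, hnχ]
      exact h2)) χ le_rfl
    constructor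
    · rintro ⟨h1, h2⟩
      have h3 : pp (p1 y) ξ < l := h1.trans (h.clo.lt _ hμX)
      have h4 : pp (p1 y) ξ ∈ X := h.pp_mem hzX hξ h3
      have h5 := h.pi_pp hzX hξ h3
      rw [h5]
      exact ⟨h.col.mono _ h4 _ hμX h1, (hT _ h4 h1).1 h2⟩
    · rintro ⟨h1, h2⟩
      have h3 : pp (p1 y) ξ < l := by
        by_contra h6
        have h7 := h.le_pp hzX hξ (not_lt.1 h6)
        exact absurd (h1.trans (h.col.maps _ hμX)) (not_lt.2 h7)
      have h4 : pp (p1 y) ξ ∈ X := h.pp_mem hzX hξ h3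
      have h5 := h.pi_pp hzX hξ h3
      rw [h5] at h1 h2
      have h6 : pp (p1 y) ξ < μ := (h.col.lt_iff h4 hμX).1 h1
      exact ⟨h6, (hT _ h4 h6).2 h2⟩

end Pool.Agent.H82K.Col
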