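import Pool.Agent.Lib.H82K.B11

/-!
# Chunk B12 (M): preservation of all names

Strong induction on `y ∈ X`; all `y' ∈ X`, `y' < y`, are preserved. `el` by `el_iff`, for `y` and for all smaller elements of `X`. `ne` and `u 0`: `Col.least` with `b = y`,
`R ξ := ξ < y ∧ ξ ∈ El y`, `R' ξ := ξ < π y ∧ ξ ∈ El (π y)` (`El_lt`, `uf_mem 0`; `uf .. 0 y = Sf (El A) y` is `sInf {ξ | R ξ}` by definition).

Let `x = p1 y`, `z = p2 y`, `y = pp x z`; `x, z ≤ y` are in `X`, and `el` holds for `x` and `z`. (i) for `ξ ∈ X`, `ξ < z`: `y' = pp ξ x` is in `X` and `< y` (PL: if `x < z` the maximum is smaller;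
if `z ≤ x` the maxima are both `x` and `ξ < x`); so `val ξ = val x ↔ val (π ξ) = val (π x)` and `val ξ ∈ val x ↔ val (π ξ) ∈ val (π x)` (`PresAt.eq`, `PresAt.mem` with `p1_pp`, `p2_pp`, `pi_pp`).
(ii) for `ξ ∈ X`, `ξ < x`: `y' = pp ξ z` is in `X` and `< y` (if `z < x` the maximum is smaller; if `x ≤ z` the maxima are both `z`, and `ξ < x`); so the same with `z` in place of `x`.

`u 2` and `mem`: `least` with `b = z`, `R ξ := ξ < z ∧ ξ ∈ El z ∧ val ξ = val x` and `R'` the same for `π z`, `π x` (`p1 (π y) = π x`, `p2 (π y) = π z` by `pi_p1`, `pi_p2`); by (i) and `el`.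
`mem`: `val x ∈ val z ↔ ∃ ξ, R ξ` (`mem_val`, `El_lt`). `u 1` and `eq`: `least` with `b = max x z`, `R ξ := (ξ < x ∧ ξ ∈ El x ∧ val ξ ∉ val z) ∨ (ξ < z ∧ ξ ∈ El z ∧ val ξ ∉ val x)`; by (i), (ii);
`val x ≠ val z ↔ ∃ ξ, R ξ` (`ZFSet.ext`, `mem_val`).
-/

set_option autoImplicit false

open Set Order

open Pool.Agent.Lib.H45Osc (w1 limitPts)

namespace Pool.Agent.H82K.Col

theorem b12_ne (A : Set O) (x z : O) :
    (∃ ξ, (ξ < x ∧ ξ ∈ El A x ∧ val A ξ ∉ val A z) ∨ (ξ < z ∧ ξ ∈ El A z ∧ val A ξ ∉ val A x)) ↔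
      val A x ≠ val A z := by
  constructor
  · rintro ⟨ξ, h | h⟩ he
    · exact h.2.2 (he ▸ (mem_val A).2 ⟨ξ, h.2.1, rfl⟩)
    · exact h.2.2 (he ▸ (mem_val A).2 ⟨ξ, h.2.1, rfl⟩)
  · intro hne
    by_contra hno
    push Not at hno
    refine hne (ZFSet.ext fun w => ⟨fun hw => ?_, fun hw => ?_⟩)
    · obtain ⟨ξ, hξ, rfl⟩ := (mem_val A).1 hw
      exact (hno ξ).1 (El_lt A hξ) hξ
    · obtain ⟨ξ, hξ, rfl⟩ := (mem_val A).1 hw
      exact (hno ξ).2 (El_lt A hξ) hξ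

variable {A : Set O} {l lb : O} {X : Set O} {π : O → O} (h : Col A l lb X π)

include h

theorem b12_pair {a b y : O} (ha : a ∈ X) (hb : b ∈ X) (hy : y ∈ X) (hab : pp a b < y)
    (hP : ∀ y' ∈ X, y' < y → PresAt A X π y') :
    (val A a = val A b ↔ val A (π a) = val A (π b)) ∧ (val A a ∈ val A b ↔ val A (π a) ∈ val A (π b)) := by
  have hl : pp a b < l := hab.trans (h.clo.lt y hy)
  have hX := h.pp_mem ha hb hl
  have hp := hP _ hX hab
  have h1 := hp.eq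
  have h2 := hp.mem
  rw [← h.pi_pp ha hb hl] at h1 h2
  simp only [p1_pp, p2_pp] at h1 h2
  exact ⟨h1, h2⟩

theorem presAt {y : O} (hy : y ∈ X) : PresAt A X π y := by
  revert hy
  induction y using WellFoundedLT.induction with
  | ind y ih =>
  intro hy
  have hP : ∀ y' ∈ X, y' < y → PresAt A X π y' := fun y' hy' hlt => ih y' hlt hy'
  have hel := h.el_iff hy hP
  obtain ⟨x, hxd⟩ : ∃ x, x = p1 y := ⟨_, rfl⟩
  obtain ⟨z, hzd⟩ : ∃ z, z = p2 y := ⟨_, rfl⟩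
  have hyxz : pp x z = y := by rw [hxd, hzd]; exact pp_p1_p2 y
  have hx : x ∈ X := by rw [hxd]; exact h.p1_mem hy
  have hz : z ∈ X := by rw [hzd]; exact h.p2_mem hy
  have hxy : x ≤ y := by rw [hxd]; exact p1_le y
  have hzy : z ≤ y := by rw [hzd]; exact p2_le y
  have helx := h.el_iff hx fun y' hy' hlt => hP y' hy' (hlt.trans_le hxy)
  have helz := h.el_iff hz fun y' hy' hlt => hP y' hy' (hlt.trans_le hzy)
  have hpx : p1 (π y) = π x := by rw [hxd]; exact (h.pi_p1 hy).symm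
  have hpz : p2 (π y) = π z := by rw [hzd]; exact (h.pi_p2 hy).symm
  have hi : ∀ ξ ∈ X, ξ < z → (val A ξ = val A x ↔ val A (π ξ) = val A (π x)) ∧
      (val A ξ ∈ val A x ↔ val A (π ξ) ∈ val A (π x)) := by
    intro ξ hξ hlt
    refine h.b12_pair hξ hx hy ?_ hP
    rw [← hyxz, pp_lt_iff]
    rcases lt_or_ge x z with h1 | h1
    · left
      rw [max_eq_right h1.le]
      exact max_lt hlt h1
    · right
      rw [max_eq_left h1, max_eq_right (hlt.le.trans h1)]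
      exact ⟨rfl, Or.inl (hlt.trans_le h1)⟩
  have hii : ∀ ξ ∈ X, ξ < x → (val A ξ = val A z ↔ val A (π ξ) = val A (π z)) ∧
      (val A ξ ∈ val A z ↔ val A (π ξ) ∈ val A (π z)) := by
    intro ξ hξ hlt
    refine h.b12_pair hξ hz hy ?_ hP
    rw [← hyxz, pp_lt_iff]
    rcases lt_or_ge z x with h1 | h1
    · left
      rw [max_eq_left h1.le]
      exact max_lt hlt h1
    · right
      rw [max_eq_right h1, max_eq_right (hlt.le.trans h1)]
      exact ⟨rfl, Or.inl hlt⟩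
  -- the three least elements
  have k0 := h.least hy (R := fun ξ => ξ < y ∧ ξ ∈ El A y) (R' := fun ξ => ξ < π y ∧ ξ ∈ El A (π y))
    (fun ξ hξ => hξ.1) (fun ξ hξ => hξ.1)
    (fun ξ hξ => by rw [h.col.lt_iff hξ hy, hel ξ hξ]) (h.uf_mem 0 hy)
  have m2 : sInf {ξ | ξ < z ∧ ξ ∈ El A z ∧ val A ξ = val A x} ∈ X := by
    have h1 := h.uf_mem 2 hy
    rw [hzd, hxd]
    exact h1
  have k2 := h.least hz (R := fun ξ => ξ < z ∧ ξ ∈ El A z ∧ val A ξ = val A x)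
    (R' := fun ξ => ξ < π z ∧ ξ ∈ El A (π z) ∧ val A ξ = val A (π x))
    (fun ξ hξ => hξ.1) (fun ξ hξ => hξ.1)
    (fun ξ hξ => by
      rw [h.col.lt_iff hξ hz, helz ξ hξ]
      constructor
      · rintro ⟨a1, a2, a3⟩
        exact ⟨a1, a2, (hi ξ hξ a1).1.1 a3⟩
      · rintro ⟨a1, a2, a3⟩
        exact ⟨a1, a2, (hi ξ hξ a1).1.2 a3⟩) m2
  have m1 : sInf {ξ | (ξ < x ∧ ξ ∈ El A x ∧ val A ξ ∉ val A z) ∨ (ξ < z ∧ ξ ∈ El A z ∧ val A ξ ∉ val A x)} ∈ X := by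
    have h1 := h.uf_mem 1 hy
    rw [hzd, hxd]
    exact h1
  have hmax : max x z ∈ X := by
    rcases le_total x z with h1 | h1
    · rw [max_eq_right h1]
      exact hz
    · rw [max_eq_left h1]
      exact hx
  have hxm : π x ≤ π (max x z) := (h.col.le_iff hx hmax).2 (le_max_left _ _)
  have hzm : π z ≤ π (max x z) := (h.col.le_iff hz hmax).2 (le_max_right _ _)
  have k1 := h.least hmax
    (R := fun ξ => (ξ < x ∧ ξ ∈ El A x ∧ val A ξ ∉ val A z) ∨ (ξ < z ∧ ξ ∈ El A z ∧ val A ξ ∉ val A x))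
    (R' := fun ξ => (ξ < π x ∧ ξ ∈ El A (π x) ∧ val A ξ ∉ val A (π z)) ∨
      (ξ < π z ∧ ξ ∈ El A (π z) ∧ val A ξ ∉ val A (π x)))
    (fun ξ hξ => hξ.elim (fun a => a.1.trans_le (le_max_left _ _)) fun a => a.1.trans_le (le_max_right _ _))
    (fun ξ hξ => hξ.elim (fun a => a.1.trans_le hxm) fun a => a.1.trans_le hzm)
    (fun ξ hξ => by
      rw [h.col.lt_iff hξ hz, helz ξ hξ, h.col.lt_iff hξ hx, helx ξ hξ]
      constructor
      · rintro (⟨a1, a2, a3⟩ | ⟨a1, a2, a3⟩)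
        · exact Or.inl ⟨a1, a2, fun hc => a3 ((hii ξ hξ a1).2.2 hc)⟩
        · exact Or.inr ⟨a1, a2, fun hc => a3 ((hi ξ hξ a1).2.2 hc)⟩
      · rintro (⟨a1, a2, a3⟩ | ⟨a1, a2, a3⟩)
        · exact Or.inl ⟨a1, a2, fun hc => a3 ((hii ξ hξ a1).2.1 hc)⟩
        · exact Or.inr ⟨a1, a2, fun hc => a3 ((hi ξ hξ a1).2.1 hc)⟩) m1
  refine ⟨hel, ?_, ?_, ?_, ?_⟩
  · constructor
    · rintro ⟨ξ, hξ⟩
      obtain ⟨ξ', hξ'⟩ := k0.2.1 ⟨ξ, El_lt A hξ, hξ⟩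
      exact ⟨ξ', hξ'.2⟩
    · rintro ⟨ξ, hξ⟩
      obtain ⟨ξ', hξ'⟩ := k0.2.2 ⟨ξ, El_lt A hξ, hξ⟩
      exact ⟨ξ', hξ'.2⟩
  · intro k
    fin_cases k
    · exact k0.1
    · show π (Vf (val A) (El A) y) = Vf (val A) (El A) (π y)
      unfold Vf
      rw [hpx, hpz, ← hxd, ← hzd]
      exact k1.1
    · show π (Wf (val A) (El A) y) = Wf (val A) (El A) (π y)
      unfold Wf
      rw [hpx, hpz, ← hxd, ← hzd]
      exact k2.1
  · rw [hpx, hpz, ← hxd, ← hzd, mem_val, mem_val]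
    constructor
    · rintro ⟨ξ, hξ, he⟩
      obtain ⟨ξ', hξ'⟩ := k2.2.1 ⟨ξ, El_lt A hξ, hξ, he.symm⟩
      exact ⟨ξ', hξ'.2.1, hξ'.2.2.symm⟩
    · rintro ⟨ξ, hξ, he⟩
      obtain ⟨ξ', hξ'⟩ := k2.2.2 ⟨ξ, El_lt A hξ, hξ, he.symm⟩
      exact ⟨ξ', hξ'.2.1, hξ'.2.2.symm⟩
  · rw [hpx, hpz, ← hxd, ← hzd]
    have e1 := b12_ne A x z
    have e2 := b12_ne A (π x) (π z)
    have e3 := k1.2
    exact not_iff_not.1 (e1.symm.trans (e3.trans e2))

end Pool.Agent.H82K.Col
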