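import Pool.Agent.Lib.H82K.B12

/-!
# Chunk B13 (S/M): condensation for the machine

`left`, `right`: `le_pp_left`, `le_pp_right`. `bin`: `Col.pi_pp`, `Col.le_pp`. `un`: for `k = 0`: `pi_succ`, `le_succ`; `k = 1`: `pi_prd`; `k = 2, 3`: `pi_p1`, `pi_p2`; `k = 4, 5, 6`:
`PresAt.u` (`Col.presAt`). For `k ≥ 1` the value is `≤ x < l` (`prd_le`, `p1_le`, `p2_le`, `uf_le`), so the second alternative is impossible. `fin_cases k` (and `show` with the
explicit function) or `Fin.forall_fin_succ`.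
-/

set_option autoImplicit false

open Set Order

open Pool.Agent.Lib.H45Osc (w1 limitPts)

namespace Pool.Agent.H82K

theorem good_mach {A : Set O} (hA : ∀ x ∈ A, x < w1) : (mach A).Good := by
  refine ⟨fun x y => le_pp_left x y, fun x y => le_pp_right x y, ?_, ?_⟩
  · intro l X _ hclo hω lb π hπ k x hx
    have h : Col A l lb X π := ⟨hA, hclo, hω, hπ⟩
    have hxl : x < l := hclo.lt x hx
    fin_cases k
    · exact ⟨fun hl => h.pi_succ hx hl, fun hl => h.le_succ hx hl⟩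
    · exact ⟨fun _ => (h.pi_prd hx).symm, fun hl => absurd ((prd_le x).trans_lt hxl) (not_lt.2 hl)⟩
    · exact ⟨fun _ => (h.pi_p1 hx).symm, fun hl => absurd ((p1_le x).trans_lt hxl) (not_lt.2 hl)⟩
    · exact ⟨fun _ => (h.pi_p2 hx).symm, fun hl => absurd ((p2_le x).trans_lt hxl) (not_lt.2 hl)⟩
    · exact ⟨fun _ => ((h.presAt hx).u 0).symm, fun hl => absurd ((uf_le A 0 x).trans_lt hxl) (not_lt.2 hl)⟩
    · exact ⟨fun _ => ((h.presAt hx).u 1).symm, fun hl => absurd ((uf_le A 1 x).trans_lt hxl) (not_lt.2 hl)⟩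
    · exact ⟨fun _ => ((h.presAt hx).u 2).symm, fun hl => absurd ((uf_le A 2 x).trans_lt hxl) (not_lt.2 hl)⟩
  · intro l X _ hclo hω lb π hπ x hx y hy
    have h : Col A l lb X π := ⟨hA, hclo, hω, hπ⟩
    exact ⟨fun hl => h.pi_pp hx hy hl, fun hl => h.le_pp hx hy hl⟩

end Pool.Agent.H82K
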