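import Pool.Agent.Lib.H82K.B01

/-!
# H82K, part B: the machine for a set `A` of countable ordinals (definitions)

`pp` is the pairing, `p1`, `p2` its inverses. An ordinal `x = pp ζ (μ + n)` with `ζ < μ`, `μ` a limit, is a name of a set
`val x = {val ξ | ξ ∈ El x}`: for `n = 0` the ordinal `ζ`, for `n = enc χ + 1` the set of the values of the `ξ` with `Tr μ χ (pp ζ ξ)`.
`Tr μ χ w`: truth of the formula `χ` in the structure of the ordinals `< μ` for the assignment `dec w`.
-/

set_option autoImplicit false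

open Set Order

open Pool.Agent.Lib.H45Osc (w1 limitPts)

namespace Pool.Agent.H82K

/-- the pairing of the ordinals -/
noncomputable def pp : O → O → O := Classical.choose exists_pairing

theorem pp_surj (z : O) : ∃ x y, pp x y = z := (Classical.choose_spec exists_pairing).1 z

theorem pp_lt {a b x y : O} (h : PL a b x y) : pp a b < pp x y :=
  (Classical.choose_spec exists_pairing).2 a b x y h

/-- the first coordinate -/
noncomputable def p1 (z : O) : O := Classical.choose (pp_surj z)

/-- the second coordinate -/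
noncomputable def p2 (z : O) : O := Classical.choose (Classical.choose_spec (pp_surj z))

theorem pp_p1_p2 (z : O) : pp (p1 z) (p2 z) = z :=
  Classical.choose_spec (Classical.choose_spec (pp_surj z))

/-- the predecessor (`x` itself if there is none) -/
noncomputable def prd (x : O) : O := sInf {y | x ≤ y + 1}

/-- atomic formulas -/
inductive At : Type
  | eps (i j : ℕ) : At
  | lt (i j : ℕ) : At
  | aa (i : ℕ) : At
  | uk (k : Fin 3) (i j : ℕ) : At
  | pk (i j k : ℕ) : At

/-- formulas, with de Bruijn indices -/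
inductive Fm : Type
  | atom (a : At) : Fm
  | bot : Fm
  | imp (φ ψ : Fm) : Fm
  | ex (φ : Fm) : Fm

/-- the number of an atomic formula -/
def encAt : At → ℕ
  | At.eps i j => 5 * Nat.pair i j
  | At.lt i j => 5 * Nat.pair i j + 1
  | At.aa i => 5 * i + 2
  | At.uk k i j => 5 * Nat.pair k.1 (Nat.pair i j) + 3
  | At.pk i j k => 5 * Nat.pair i (Nat.pair j k) + 4

/-- the number of a formula -/
def enc : Fm → ℕ
  | Fm.atom a => 4 * encAt a
  | Fm.bot => 1
  | Fm.imp φ ψ => 4 * Nat.pair (enc φ) (enc ψ) + 2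
  | Fm.ex φ => 4 * enc φ + 3

/-- the assignment coded by `w` -/
noncomputable def dec : O → ℕ → O
  | w, 0 => p2 w
  | w, i + 1 => dec (p1 w) i

/-- `ξ` followed by the sequence `s` -/
def cons {α : Type*} (a : α) (s : ℕ → α) : ℕ → α
  | 0 => a
  | n + 1 => s n

section

variable (A : Set O) (v : O → ZFSet.{0}) (E : O → Set O)

/-- the least element -/
noncomputable def Sf (y : O) : O := sInf {ξ | ξ < y ∧ ξ ∈ E y}

/-- the least name which shows that the values of `p1 y` and `p2 y` are different -/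
noncomputable def Vf (y : O) : O :=
  sInf {ξ | (ξ < p1 y ∧ ξ ∈ E (p1 y) ∧ v ξ ∉ v (p2 y)) ∨ (ξ < p2 y ∧ ξ ∈ E (p2 y) ∧ v ξ ∉ v (p1 y))}

/-- the least name which shows that the value of `p1 y` is an element of the value of `p2 y` -/
noncomputable def Wf (y : O) : O := sInf {ξ | ξ < p2 y ∧ ξ ∈ E (p2 y) ∧ v ξ = v (p1 y)}

/-- the three functions -/
noncomputable def uf : Fin 3 → O → O
  | 0 => Sf E
  | 1 => Vf v E
  | 2 => Wf v E

/-- truth of an atomic formula -/
def AtS (s : ℕ → O) : At → Prop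
  | At.eps i j => v (s i) ∈ v (s j)
  | At.lt i j => s i < s j
  | At.aa i => p1 (s i) ∈ A
  | At.uk k i j => uf v E k (p1 (s i)) = p1 (s j)
  | At.pk i j k => pp (p1 (s i)) (p1 (s j)) = p1 (s k)

/-- truth in the structure of the ordinals below `μ` -/
def Tr (μ : O) : Fm → O → Prop
  | Fm.atom a, w => AtS A v E (dec w) a
  | Fm.bot, _ => False
  | Fm.imp φ ψ, w => Tr μ φ w → Tr μ ψ w
  | Fm.ex φ, w => ∃ ξ, pp w ξ < μ ∧ Tr μ φ (pp w ξ)

/-- the elements (as names) of the name `x` -/
def Est (x : O) : Set O :=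
  {ξ | ∃ ζ μ, Lim μ ∧ ζ < μ ∧ ((x = pp ζ μ ∧ ∃ ζ' < ζ, ξ = pp ζ' μ) ∨
    ∃ χ, x = pp ζ (μ + (enc χ + 1 : ℕ)) ∧ pp ζ ξ < μ ∧ Tr A v E μ χ (pp ζ ξ))}

end

end Pool.Agent.H82K
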