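import Pool.Agent.Lib.H82K.B04

/-!
# H82K, part B: the setting of condensation (definitions only)

`X` is a closed set below `l` which contains `ω₁`, `π` is its collapse. `PresAt y`: the name `y` is preserved.
-/

set_option autoImplicit false

open Set Order

open Pool.Agent.Lib.H45Osc (w1 limitPts)

namespace Pool.Agent.H82K

/-- `X` is closed below `l`, contains `ω₁`, and is collapsed by `π` to `lb` -/
structure Col (A : Set O) (l lb : O) (X : Set O) (π : O → O) : Prop where
  sub : ∀ x ∈ A, x < w1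
  clo : (mach A).Clo l X
  om : ∀ x < w1, x ∈ X
  col : IsCollapse X lb π

/-- the name `y` is preserved by the collapse -/
structure PresAt (A : Set O) (X : Set O) (π : O → O) (y : O) : Prop where
  el : ∀ ξ ∈ X, ξ ∈ El A y ↔ π ξ ∈ El A (π y)
  ne : (∃ ξ, ξ ∈ El A y) ↔ ∃ ξ, ξ ∈ El A (π y)
  u : ∀ k : Fin 3, π (uf (val A) (El A) k y) = uf (val A) (El A) k (π y)
  mem : val A (p1 y) ∈ val A (p2 y) ↔ val A (p1 (π y)) ∈ val A (p2 (π y))
  eq : val A (p1 y) = val A (p2 y) ↔ val A (p1 (π y)) = val A (p2 (π y))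

end Pool.Agent.H82K
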