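import Pool.Agent.Lib.H82K.Defs

/-!
# Chunk C00 (S/M, only Mathlib): the colexicographic order of the finite sets of ordinals is a well-order

`toColex s < toColex t` means (`Finset.Colex.toColex_lt_toColex`, or
`toColex_lt_toColex_iff_exists_forall_lt`): `s ≠ t` and for each `a ∈ s ∖ t` there is `b ∈ t ∖ s` with
`a ≤ b` (so `a < b`). Hence `s.val` is smaller than `t.val` in the Dershowitz-Manna order of multisets
(`Multiset.IsDershowitzMannaLT`, with `X = (s ∩ t).val`, `Y = (s \ t).val`, `Z = (t \ s).val`; `Z ≠ 0`
because `s ≠ t` and every element of `s ∖ t` has a bound in `t ∖ s`), which is well-founded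
(`Multiset.wellFounded_isDershowitzMannaLT`, in `Mathlib.Data.Multiset.DershowitzManna`). Use
`Subrelation.wf` and `InvImage.wf`.
-/

set_option autoImplicit false

open Set Order

open Pool.Agent.Lib.H45Osc (w1 limitPts)

namespace Pool.Agent.H82K

theorem c00_dm (s t : Finset O) (h : toColex s < toColex t) :
    Multiset.IsDershowitzMannaLT s.val t.val := by
  classical
  rw [Finset.Colex.toColex_lt_toColex_iff_exists_forall_lt] at h
  obtain ⟨a, hat, has, hb⟩ := h
  refine ⟨(s ∩ t).val, (s \ t).val, (t \ s).val, ?_, ?_, ?_, ?_⟩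
  · intro h0
    have h1 : a ∈ (t \ s).val := by
      rw [Finset.mem_val, Finset.mem_sdiff]
      exact ⟨hat, has⟩
    rw [h0] at h1
    exact absurd h1 (Multiset.notMem_zero a)
  · have h1 : (s ∩ t).disjUnion (s \ t) (Finset.disjoint_left.2 fun x hx hy =>
        (Finset.mem_sdiff.1 hy).2 (Finset.mem_inter.1 hx).2) = s := by
      ext x
      simp only [Finset.mem_disjUnion, Finset.mem_inter, Finset.mem_sdiff]
      tauto
    have h2 := congrArg Finset.val h1
    exact h2.symm
  · have h1 : (s ∩ t).disjUnion (t \ s) (Finset.disjoint_left.2 fun x hx hy =>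
        (Finset.mem_sdiff.1 hy).2 (Finset.mem_inter.1 hx).1) = t := by
      ext x
      simp only [Finset.mem_disjUnion, Finset.mem_inter, Finset.mem_sdiff]
      tauto
    have h2 := congrArg Finset.val h1
    exact h2.symm
  · intro y hy
    rw [Finset.mem_val, Finset.mem_sdiff] at hy
    refine ⟨a, ?_, hb y hy.1 hy.2⟩
    rw [Finset.mem_val, Finset.mem_sdiff]
    exact ⟨hat, has⟩

theorem wf_colex : WellFounded fun P Q : Finset O => toColex P < toColex Q :=
  Subrelation.wf (fun {s t} h => c00_dm s t h)
    (InvImage.wf Finset.val (Multiset.wellFounded_isDershowitzMannaLT (α := O)))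

/-- every nonempty class of finite sets of ordinals has a least element -/
theorem exists_min_colex (R : Finset O → Prop) (h : ∃ P, R P) :
    ∃ P, R P ∧ ∀ Q, R Q → toColex P ≤ toColex Q := by
  obtain ⟨P, hP, hmin⟩ := wf_colex.has_min {P | R P} h
  exact ⟨P, hP, fun Q hQ => not_lt.1 (hmin Q hQ)⟩

end Pool.Agent.H82K
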