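import Pool.Agent.Lib.H82K.Defs

/-!
# Chunk C01 (S): basic properties of hulls

All by induction on `Hull` (`induction h with | base .. | un .. | bin ..`) or directly from the
constructors.
-/

set_option autoImplicit false

open Set Order

open Pool.Agent.Lib.H45Osc (w1 limitPts)

namespace Pool.Agent.H82K.Ops

variable (M : Ops)

theorem hull_lt {l : O} {X : Set O} {x : O} (h : M.Hull l X x) : x < l := by
  cases h with
  | base _ h => exact h
  | un _ _ h => exact h
  | bin _ _ h => exact h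

theorem clo_hull (l : O) (X : Set O) : M.Clo l {x | M.Hull l X x} :=
  ⟨fun _ hx => M.hull_lt hx, fun k _ hx h => Hull.un k hx h, fun _ hx _ hy h => Hull.bin hx hy h⟩

/-- the hull is contained in every closed set which contains `X ∩ l` -/
theorem hull_min {l : O} {X Y : Set O} (hY : M.Clo l Y) (h : ∀ x ∈ X, x < l → x ∈ Y) {x : O}
    (hx : M.Hull l X x) : x ∈ Y := by
  induction hx with
  | base hx hl => exact h _ hx hl
  | un k _ hl ih => exact hY.un k _ ih hl
  | bin _ _ hl ih1 ih2 => exact hY.bin _ ih1 _ ih2 hl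

theorem hull_mono {l l' : O} {X Y : Set O} (hl : l ≤ l') (h : ∀ x ∈ X, x < l → x ∈ Y) {x : O}
    (hx : M.Hull l X x) : M.Hull l' Y x := by
  induction hx with
  | base hx hxl => exact Hull.base (h _ hx hxl) (lt_of_lt_of_le hxl hl)
  | un k _ hxl ih => exact Hull.un k ih (lt_of_lt_of_le hxl hl)
  | bin _ _ hxl ih1 ih2 => exact Hull.bin ih1 ih2 (lt_of_lt_of_le hxl hl)

/-- `Y ∩ l ⊆ Hull l' X` and `l ≤ l'` give `Hull l Y ⊆ Hull l' X` -/
theorem hull_hull {l l' : O} {X Y : Set O} (hl : l ≤ l') (h : ∀ x ∈ Y, x < l → M.Hull l' X x) {x : O}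
    (hx : M.Hull l Y x) : M.Hull l' X x := by
  induction hx with
  | base hx hxl => exact h _ hx hxl
  | un k _ hxl ih => exact Hull.un k ih (lt_of_lt_of_le hxl hl)
  | bin _ _ hxl ih1 ih2 => exact Hull.bin ih1 ih2 (lt_of_lt_of_le hxl hl)

theorem hl_mono {l l' α α' : O} {P P' : Finset O} (h1 : l ≤ l') (h2 : α ≤ α') (h3 : P ⊆ P') :
    M.hl l α P ⊆ M.hl l' α' P' := by
  intro x hx
  refine M.hull_mono h1 (fun y hy _ => ?_) hx
  rcases hy with hy | hy
  · exact Or.inl (lt_of_lt_of_le hy h2)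
  · exact Or.inr (Finset.mem_coe.2 (h3 (Finset.mem_coe.1 hy)))

/-- the part of a closed set below `m ≤ l` is closed below `m` -/
theorem Clo.restrict {l m : O} {X : Set O} (h : M.Clo l X) (hm : m ≤ l) :
    M.Clo m {x | x ∈ X ∧ x < m} :=
  ⟨fun _ hx => hx.2, fun k x hx hl => ⟨h.un k x hx.1 (lt_of_lt_of_le hl hm), hl⟩,
    fun x hx y hy hl => ⟨h.bin x hx.1 y hy.1 (lt_of_lt_of_le hl hm), hl⟩⟩

end Pool.Agent.H82K.Ops
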