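import Pool.Agent.Lib.H82K.C01

/-!
# Chunk C02 (S/M): finite character, countable hulls, directed unions

* `hull_finite`: induction on `Hull`; unions of two finite sets in the case `bin`.
* `hull_countable`: if `X` is countable then so is the hull. For instance: the sets
  `H 0 = X`, `H (n+1) = H n ∪ ⋃ k, u k '' H n ∪ image2 p (H n) (H n)` are countable and the hull is
  contained in their union (induction on `Hull`); `Set.Countable.image2`, `Set.countable_iUnion`.
* `hull_directed`: `m` and `X` are increasing in `j ∈ J`, `l ≤ sup m j`, `Y ⊆ ⋃ X j`. Induction on `Hull`;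
  in each case take an index which is large enough for the hulls of the arguments (use `hull_mono`)
  and with `value < m j`.
-/

set_option autoImplicit false

open Set Order

open Pool.Agent.Lib.H45Osc (w1 limitPts)

namespace Pool.Agent.H82K.Ops

variable (M : Ops)

theorem hull_finite {l : O} {X : Set O} {x : O} (h : M.Hull l X x) :
    ∃ F : Finset O, ↑F ⊆ X ∧ M.Hull l (↑F) x := by
  induction h with
  | base hx h =>
    rename_i x
    exact ⟨{x}, by simpa using hx, Hull.base (by simp) h⟩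
  | un k hx h ih =>
    obtain ⟨F, hF, h1⟩ := ih
    exact ⟨F, hF, Hull.un k h1 h⟩
  | bin hx hy h ihx ihy =>
    classical
    obtain ⟨F, hF, h1⟩ := ihx
    obtain ⟨G, hG, h2⟩ := ihy
    refine ⟨F ∪ G, ?_, ?_⟩
    · rw [Finset.coe_union]
      exact union_subset hF hG
    · refine Hull.bin (M.hull_mono le_rfl (fun z hz _ => ?_) h1) (M.hull_mono le_rfl (fun z hz _ => ?_) h2) h
      · rw [Finset.coe_union]
        exact Or.inl hz
      · rw [Finset.coe_union]
        exact Or.inr hz

/-- the iterated closure -/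
def c02_H (X : Set O) : ℕ → Set O
  | 0 => X
  | n + 1 => c02_H X n ∪ (⋃ k, M.u k '' c02_H X n) ∪ image2 M.p (c02_H X n) (c02_H X n)

theorem c02_H_mono (X : Set O) : Monotone (M.c02_H X) := by
  refine monotone_nat_of_le_succ fun n x hx => ?_
  exact Or.inl (Or.inl hx)

theorem c02_H_count {X : Set O} (hX : X.Countable) (n : ℕ) : (M.c02_H X n).Countable := by
  induction n with
  | zero => exact hX
  | succ n ih =>
    refine (ih.union ?_).union (ih.image2 ih _)
    exact countable_iUnion fun k => ih.image _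

theorem hull_countable {l : O} {X : Set O} (hX : X.Countable) : {x | M.Hull l X x}.Countable := by
  refine (countable_iUnion (M.c02_H_count hX)).mono fun x hx => ?_
  rw [mem_iUnion]
  change M.Hull l X x at hx
  induction hx with
  | base hx h => exact ⟨0, hx⟩
  | un k hx h ih =>
    obtain ⟨n, hn⟩ := ih
    exact ⟨n + 1, Or.inl (Or.inr (mem_iUnion.2 ⟨k, mem_image_of_mem _ hn⟩))⟩
  | bin hx hy h ihx ihy =>
    obtain ⟨n, hn⟩ := ihx
    obtain ⟨n', hn'⟩ := ihy
    exact ⟨max n n' + 1, Or.inr (mem_image2_of_mem (M.c02_H_mono X (le_max_left _ _) hn)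
      (M.c02_H_mono X (le_max_right _ _) hn'))⟩

theorem hull_directed {J : Type*} [LinearOrder J] [Nonempty J] {m : J → O} {X : J → Set O}
    (hm : Monotone m) (hX : Monotone X) {l : O} {Y : Set O} (hl : ∀ x < l, ∃ j, x < m j)
    (hY : ∀ y ∈ Y, ∃ j, y ∈ X j) {x : O} (h : M.Hull l Y x) : ∃ j, M.Hull (m j) (X j) x := by
  induction h with
  | base hx h =>
    obtain ⟨j1, h1⟩ := hl _ h
    obtain ⟨j2, h2⟩ := hY _ hx
    exact ⟨max j1 j2, Hull.base (hX (le_max_right j1 j2) h2) (h1.trans_le (hm (le_max_left j1 j2)))⟩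
  | un k hx h ih =>
    obtain ⟨j1, h1⟩ := hl _ h
    obtain ⟨j2, h2⟩ := ih
    exact ⟨max j1 j2, Hull.un k (M.hull_mono (hm (le_max_right j1 j2))
      (fun y hy _ => hX (le_max_right j1 j2) hy) h2) (h1.trans_le (hm (le_max_left j1 j2)))⟩
  | bin hx hy h ihx ihy =>
    obtain ⟨j1, h1⟩ := hl _ h
    obtain ⟨j2, h2⟩ := ihx
    obtain ⟨j3, h3⟩ := ihy
    have e2 : j2 ≤ max j1 (max j2 j3) := (le_max_left j2 j3).trans (le_max_right _ _)
    have e3 : j3 ≤ max j1 (max j2 j3) := (le_max_right j2 j3).trans (le_max_right _ _)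
    exact ⟨max j1 (max j2 j3), Hull.bin (M.hull_mono (hm e2) (fun y hy _ => hX e2 hy) h2)
      (M.hull_mono (hm e3) (fun y hy _ => hX e3 hy) h3) (h1.trans_le (hm (le_max_left _ _)))⟩

/-- the same for finitely many elements -/
theorem hull_directed_finset {J : Type*} [LinearOrder J] [Nonempty J] {m : J → O} {X : J → Set O}
    (hm : Monotone m) (hX : Monotone X) {l : O} {Y : Set O} (hl : ∀ x < l, ∃ j, x < m j)
    (hY : ∀ y ∈ Y, ∃ j, y ∈ X j) (F : Finset O) (h : ∀ x ∈ F, M.Hull l Y x) :
    ∃ j, ∀ x ∈ F, M.Hull (m j) (X j) x := by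
  classical
  induction F using Finset.induction_on with
  | empty =>
    obtain ⟨j⟩ := (inferInstance : Nonempty J)
    exact ⟨j, fun x hx => absurd hx (Finset.notMem_empty x)⟩
  | insert a F ha ih =>
    obtain ⟨j1, h1⟩ := ih fun x hx => h x (Finset.mem_insert_of_mem hx)
    obtain ⟨j2, h2⟩ := M.hull_directed hm hX hl hY (h a (Finset.mem_insert_self a F))
    refine ⟨max j1 j2, fun x hx => ?_⟩
    rcases Finset.mem_insert.1 hx with rfl | hx
    · exact M.hull_mono (hm (le_max_right j1 j2)) (fun y hy _ => hX (le_max_right j1 j2) hy) h2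
    · exact M.hull_mono (hm (le_max_left j1 j2)) (fun y hy _ => hX (le_max_left j1 j2) hy) (h1 x hx)

/-- at a limit `l` an element of the hull is in the hull for a smaller `m` -/
theorem hl_limit {l α : O} (hlim : Lim l) {P : Finset O} {x : O} (h : x ∈ M.hl l α P) :
    ∃ m < l, x ∈ M.hl m α P := by
  have hn : Nonempty (Iio l) := ⟨⟨0, hlim.1⟩⟩
  obtain ⟨j, hj⟩ := M.hull_directed (J := Iio l) (m := fun j => (j : O)) (X := fun _ => Iio α ∪ ↑P)
    (fun _ _ h => h) (fun _ _ _ => le_rfl) (l := l) (Y := Iio α ∪ ↑P)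
    (fun y hy => ⟨⟨y + 1, hlim.2 y hy⟩, by
      show y < y + 1
      exact Order.lt_add_one_iff.2 le_rfl⟩) (fun y hy => ⟨hn.some, hy⟩) h
  exact ⟨j, j.2, hj⟩

/-- at a limit `α` an element of the hull is in the hull for a smaller `e` -/
theorem hl_limit' {l α : O} (hlim : Lim α) {P : Finset O} {x : O} (h : x ∈ M.hl l α P) :
    ∃ e < α, x ∈ M.hl l e P := by
  have hn : Nonempty (Iio α) := ⟨⟨0, hlim.1⟩⟩
  obtain ⟨j, hj⟩ := M.hull_directed (J := Iio α) (m := fun _ => l) (X := fun j => Iio (j : O) ∪ ↑P)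
    (fun _ _ _ => le_rfl) (fun a b hab => union_subset_union_left _ (Iio_subset_Iio hab)) (l := l) (Y := Iio α ∪ ↑P)
    (fun y hy => ⟨hn.some, hy⟩) (fun y hy => by
      rcases hy with hy | hy
      · exact ⟨⟨y + 1, hlim.2 y hy⟩, Or.inl (by
          show y < y + 1
          exact Order.lt_add_one_iff.2 le_rfl)⟩
      · exact ⟨hn.some, Or.inr hy⟩) h
  exact ⟨j, j.2, hj⟩

end Pool.Agent.H82K.Ops
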