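import Pool.Agent.Lib.H82K.C01

/-!
# Chunk C03 (S/M): the finiteness property

`hl_succ`: the set of all `z` with `z = l` or `z ∈ Hull l (α ∪ P')`, `P'` = `P` and the values `u k l`
(`k : Fin 7`), contains `(Iio α ∪ P) ∩ (l + 1)` and is closed below `l + 1`: `u k l < l + 1` is `= l` or `< l`
(then it is in `P'`, `Hull.base`); `u k z` with `z ∈ Hull` is `= l` or `< l`; `p z w < l + 1` with `z = l` or
`w = l` is `≥ l` by `left`, `right`, so it is `= l`; other values of `p` are `= l` or `< l`. Induction on `Hull (l + 1)`.
-/

set_option autoImplicit false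

open Set Order

open Pool.Agent.Lib.H45Osc (w1 limitPts)

namespace Pool.Agent.H82K.Ops

variable (M : Ops)

theorem c03_lt {l x : O} (h : x < l + 1) : x = l ∨ x < l := by
  exact (Order.lt_add_one_iff.1 h).eq_or_lt

theorem hl_succ (hM : M.Good) {l α : O} (P : Finset O) : ∃ P' : Finset O,
    (∀ x ∈ P', x < l) ∧ ∀ z ∈ M.hl (l + 1) α P, z = l ∨ z ∈ M.hl l α P' := by
  classical
  refine ⟨(P ∪ Finset.univ.image fun k => M.u k l).filter (fun x => x < l), ?_, ?_⟩
  · intro x hx
    exact (Finset.mem_filter.1 hx).2
  · intro z hz
    have key : ∀ z, M.Hull (l + 1) (Iio α ∪ ↑P) z → z = l ∨ M.Hull l (Iio α ∪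
        ↑((P ∪ Finset.univ.image fun k => M.u k l).filter (fun x => x < l))) z := by
      intro z hz
      induction hz with
      | base hx h =>
        rcases c03_lt h with h | h
        · exact Or.inl h
        · refine Or.inr (Hull.base ?_ h)
          rcases hx with hx | hx
          · exact Or.inl hx
          · refine Or.inr ?_
            rw [Finset.mem_coe, Finset.mem_filter]
            exact ⟨Finset.mem_union_left _ (Finset.mem_coe.1 hx), h⟩
      | un k hx h ih =>
        rcases c03_lt h with h | h
        · exact Or.inl h
        · rcases ih with ih | ih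
          · subst ih
            refine Or.inr (Hull.base (Or.inr ?_) h)
            rw [Finset.mem_coe, Finset.mem_filter]
            exact ⟨Finset.mem_union_right _ (Finset.mem_image_of_mem _ (Finset.mem_univ k)), h⟩
          · exact Or.inr (Hull.un k ih h)
      | bin hx hy h ihx ihy =>
        rcases c03_lt h with h | h
        · exact Or.inl h
        · rcases ihx with ihx | ihx
          · subst ihx
            exact absurd h (not_lt.2 (hM.left _ _))
          · rcases ihy with ihy | ihy
            · subst ihy
              exact absurd h (not_lt.2 (hM.right _ _))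
            · exact Or.inr (Hull.bin ihx ihy h)
    exact key z hz

end Pool.Agent.H82K.Ops
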