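import Pool.Agent.Lib.H82K.C01
import Pool.Agent.Lib.H82K.C04

/-!
# Chunk C05 (M): hulls and the collapse

`X` is closed below `l`, contains `ω₁`, and is collapsed by `π` to `lb`. Let either `m = l`, `mb = lb` or
`m ∈ X`, `mb = π m`. For `z ∈ X`: `z < m` iff `π z < mb` (in the second case by `lt_iff`; in the first both are
true).

* `hull_sub`: `Z ⊆ X` gives `Hull m Z ⊆ X`: the set of the elements of `X` below `m` is closed below `m`
  (`Clo.restrict`), `hull_min`.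
* `hull_map`: induction on `Hull m Z z`: `base`: `π z ∈ π '' Z`, `π z < mb`. `un`: by induction
  `Hull mb (π '' Z) (π x)`; `u k x < m ≤ l` and `x ∈ X` (first part), so `u k (π x) = π (u k x) < mb` by `Good.un`. `bin` is similar.
* `hull_map_inv`: induction on `Hull mb (π '' Z) w`: `base`: clear. `un`: `w = u k (π z)`, `Hull m Z z`, `w < mb ≤ lb`; so
  not `lb ≤ u k (π z)`, hence `u k z < l` and `u k (π z) = π (u k z) < mb`; `u k z ∈ X` by `Clo.un`, so `u k z < m`. `bin` is similar.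
* `hl_map`, `hl_map_inv`: the case `Z = Iio α ∪ P`, where `α ≤ c`, `c ⊆ X`: then `π '' Z = Iio α ∪ P.image π` since `π`
  fixes the ordinals below `α`.
-/

set_option autoImplicit false

open Set Order

open Pool.Agent.Lib.H45Osc (w1 limitPts)

namespace Pool.Agent.H82K.Ops

variable (M : Ops)

theorem hull_sub {l m : O} {X Z : Set O} (hX : M.Clo l X) (hm : m ≤ l) (hZ : ∀ z ∈ Z, z < m → z ∈ X)
    {z : O} (h : M.Hull m Z z) : z ∈ X := by
  have hr := M.hull_min (Clo.restrict M hX hm) (X := Z) (fun x hx hxm => ⟨hZ x hx hxm, hxm⟩) h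
  exact hr.1

theorem c05_m_le {l lb m mb : O} {X : Set O} {π : O → O} (hX : M.Clo l X)
    (hm : (m = l ∧ mb = lb) ∨ (m ∈ X ∧ mb = π m)) : m ≤ l := by
  rcases hm with ⟨h, _⟩ | ⟨h, _⟩
  · exact h.le
  · exact (hX.lt m h).le

theorem c05_mb_le {l lb m mb : O} {X : Set O} {π : O → O} (hπ : IsCollapse X lb π)
    (hm : (m = l ∧ mb = lb) ∨ (m ∈ X ∧ mb = π m)) : mb ≤ lb := by
  rcases hm with ⟨_, h⟩ | ⟨h, h'⟩
  · exact h.le
  · rw [h']
    exact (hπ.maps m h).le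

theorem c05_lt_iff {l lb m mb : O} {X : Set O} {π : O → O} (hX : M.Clo l X)
    (hπ : IsCollapse X lb π) (hm : (m = l ∧ mb = lb) ∨ (m ∈ X ∧ mb = π m)) {z : O} (hz : z ∈ X) :
    π z < mb ↔ z < m := by
  rcases hm with ⟨h, h'⟩ | ⟨h, h'⟩
  · rw [h, h']
    exact ⟨fun _ => hX.lt z hz, fun _ => hπ.maps z hz⟩
  · rw [h']
    exact hπ.lt_iff hz h

theorem hull_map (hM : M.Good) {l lb m mb : O} {X Z : Set O} {π : O → O} (hlb : (l : WithTop O) ≤ M.b)
    (hX : M.Clo l X)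
    (hω : ∀ x < w1, x ∈ X) (hπ : IsCollapse X lb π) (hm : (m = l ∧ mb = lb) ∨ (m ∈ X ∧ mb = π m))
    (hZ : ∀ z ∈ Z, z ∈ X) {z : O} (h : M.Hull m Z z) : M.Hull mb (π '' Z) (π z) := by
  have hml := c05_m_le M hX hm
  have hsub : ∀ {w : O}, M.Hull m Z w → w ∈ X := fun hw =>
    M.hull_sub hX hml (fun z hz _ => hZ z hz) hw
  induction h with
  | base hx h =>
    exact Hull.base (mem_image_of_mem _ hx) ((c05_lt_iff M hX hπ hm (hZ _ hx)).2 h)
  | un k hx h ih =>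
    have hxX := hsub hx
    have h1 := (hM.un l X hlb hX hω lb π hπ k _ hxX).1 (lt_of_lt_of_le h hml)
    have h2 := (c05_lt_iff M hX hπ hm (hsub (Hull.un k hx h))).2 h
    rw [← h1] at h2 ⊢
    exact Hull.un k ih h2
  | bin hx hy h ihx ihy =>
    have hxX := hsub hx
    have hyX := hsub hy
    have h1 := (hM.bin l X hlb hX hω lb π hπ _ hxX _ hyX).1 (lt_of_lt_of_le h hml)
    have h2 := (c05_lt_iff M hX hπ hm (hsub (Hull.bin hx hy h))).2 h
    rw [← h1] at h2 ⊢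
    exact Hull.bin ihx ihy h2

theorem hull_map_inv (hM : M.Good) {l lb m mb : O} {X Z : Set O} {π : O → O} (hlb : (l : WithTop O) ≤ M.b)
    (hX : M.Clo l X)
    (hω : ∀ x < w1, x ∈ X) (hπ : IsCollapse X lb π) (hm : (m = l ∧ mb = lb) ∨ (m ∈ X ∧ mb = π m))
    (hZ : ∀ z ∈ Z, z ∈ X) {w : O} (h : M.Hull mb (π '' Z) w) : ∃ z, M.Hull m Z z ∧ π z = w := by
  have hml := c05_m_le M hX hm
  have hmbl := c05_mb_le hπ hm
  have hsub : ∀ {w : O}, M.Hull m Z w → w ∈ X := fun hw =>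
    M.hull_sub hX hml (fun z hz _ => hZ z hz) hw
  induction h with
  | base hx h =>
    obtain ⟨z, hz, rfl⟩ := hx
    exact ⟨z, Hull.base hz ((c05_lt_iff M hX hπ hm (hZ z hz)).1 h), rfl⟩
  | un k hx h ih =>
    obtain ⟨z, hz, rfl⟩ := ih
    have hzX := hsub hz
    have hlb' := lt_of_lt_of_le h hmbl
    have hul : M.u k z < l := by
      by_contra hcon
      exact absurd hlb' (not_lt.2 ((hM.un l X hlb hX hω lb π hπ k z hzX).2 (not_lt.1 hcon)))
    have h1 := (hM.un l X hlb hX hω lb π hπ k z hzX).1 hul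
    have huX := hX.un k z hzX hul
    rw [h1] at h ⊢
    exact ⟨M.u k z, Hull.un k hz ((c05_lt_iff M hX hπ hm huX).1 h), rfl⟩
  | bin hx hy h ihx ihy =>
    obtain ⟨z, hz, rfl⟩ := ihx
    obtain ⟨z', hz', rfl⟩ := ihy
    have hzX := hsub hz
    have hzX' := hsub hz'
    have hlb' := lt_of_lt_of_le h hmbl
    have hul : M.p z z' < l := by
      by_contra hcon
      exact absurd hlb' (not_lt.2 ((hM.bin l X hlb hX hω lb π hπ z hzX z' hzX').2 (not_lt.1 hcon)))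
    have h1 := (hM.bin l X hlb hX hω lb π hπ z hzX z' hzX').1 hul
    have huX := hX.bin z hzX z' hzX' hul
    rw [h1] at h ⊢
    exact ⟨M.p z z', Hull.bin hz hz' ((c05_lt_iff M hX hπ hm huX).1 h), rfl⟩

theorem c05_image {lb : O} {X : Set O} {π : O → O} (hπ : IsCollapse X lb π)
    {α : O} (hα : ∀ x < α, x ∈ X) (P : Finset O) :
    π '' (Iio α ∪ ↑P) = Iio α ∪ ↑(P.image π) := by
  rw [image_union, Finset.coe_image]
  have : π '' Iio α = Iio α := by
    ext x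
    constructor
    · rintro ⟨y, hy, rfl⟩
      rw [hπ.eq_self hα hy]
      exact hy
    · intro hx
      exact ⟨x, hx, hπ.eq_self hα hx⟩
  rw [this]

theorem hl_map (hM : M.Good) {l lb m mb : O} {X : Set O} {π : O → O} (hlb : (l : WithTop O) ≤ M.b)
    (hX : M.Clo l X)
    (hω : ∀ x < w1, x ∈ X) (hπ : IsCollapse X lb π) (hm : (m = l ∧ mb = lb) ∨ (m ∈ X ∧ mb = π m))
    {α : O} (hα : ∀ x < α, x ∈ X) {P : Finset O} (hP : ∀ x ∈ P, x ∈ X) {z : O}
    (h : z ∈ M.hl m α P) : π z ∈ M.hl mb α (P.image π) := by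
  have hZ : ∀ z ∈ (Iio α ∪ ↑P : Set O), z ∈ X := by
    rintro z (hz | hz)
    · exact hα z hz
    · exact hP z hz
  have := M.hull_map hM hlb hX hω hπ hm hZ h
  rw [c05_image hπ hα P] at this
  exact this

theorem hl_map_inv (hM : M.Good) {l lb m mb : O} {X : Set O} {π : O → O} (hlb : (l : WithTop O) ≤ M.b)
    (hX : M.Clo l X)
    (hω : ∀ x < w1, x ∈ X) (hπ : IsCollapse X lb π) (hm : (m = l ∧ mb = lb) ∨ (m ∈ X ∧ mb = π m))
    {α : O} (hα : ∀ x < α, x ∈ X) {P : Finset O} (hP : ∀ x ∈ P, x ∈ X) {w : O}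
    (h : w ∈ M.hl mb α (P.image π)) : ∃ z ∈ M.hl m α P, π z = w := by
  have hZ : ∀ z ∈ (Iio α ∪ ↑P : Set O), z ∈ X := by
    rintro z (hz | hz)
    · exact hα z hz
    · exact hP z hz
  have h' : M.Hull mb (Iio α ∪ ↑(P.image π)) w := h
  rw [← c05_image hπ hα P] at h'
  obtain ⟨z, hz, hzw⟩ := M.hull_map_inv hM hlb hX hω hπ hm hZ h'
  exact ⟨z, hz, hzw⟩

end Pool.Agent.H82K.Ops
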