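import Pool.Agent.Lib.H82K.C00
import Pool.Agent.Lib.H82K.C02
import Pool.Agent.Lib.H82K.C03

/-!
# Chunk C06 (M): the least data

`l = lam d`, `p = par d`.

* `isPar`: the class of `l` with some `Capt l P α d` is not empty, `csInf_mem`; then `exists_min_colex`; `Classical.epsilon_spec`.
* `le_lam`: `Capt l P α d` gives `d ≤ l`: if `l < d` take `ξ = l` in `unb`: `η ∈ hl l α P` is `< l` by `hull_lt`.
* `not_capt`: by definition of the infimum (`notMem_of_lt_csInf'`).
* `bounded`: if `m < lam d`, `α < d`: the set `hl m α P` is not unbounded in `d` (otherwise `Capt m (P.filter (· < m)) α d`, the hulls are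
  the same by `hull_mono`), so there is `ξ < d` with `η < ξ` for all `η ∈ hl m α P` with `η < d`.
* `lim_lam`: `0 < d ≤ l`. If `l` is not a limit then `l = l' + 1` for some `l'` (`Ordinal.zero_or_succ_or_isSuccLimit` or similar). By
  `hl_succ` there is `P'` below `l'` such that each element of `hl (l' + 1) α p` is `l'` or in `hl l' α P'`. Since `d` is a
  limit and `d ≤ l' + 1`, `d ≤ l'`; so elements `< d` are in `hl l' α P'`, and `Capt l' P' α d`, contradicting minimality.
* `le_par`: let `x ∈ p`, `x < d`. Take `Q = p.erase x` and `α' = max α (x + 1) < d`: `Iio α ∪ p ⊆ Iio α' ∪ Q`, so `Capt l Q α' d`, but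
  `toColex Q < toColex p` (`toColex_lt_toColex_of_ssubset`).
-/

set_option autoImplicit false

open Set Order

open Pool.Agent.Lib.H45Osc (w1 limitPts)

namespace Pool.Agent.H82K.Ops

variable (M : Ops)

theorem Capt.le {l α d : O} {P : Finset O} (h : M.Capt l P α d) : d ≤ l := by
  by_contra hcon
  obtain ⟨η, hη, h1, _⟩ := h.unb l (not_le.mp hcon)
  exact absurd (M.hull_lt hη) (not_lt.mpr h1)

theorem lam_le {l α d : O} {P : Finset O} (h : M.Capt l P α d) : M.lam d ≤ l := by
  exact csInf_le' ⟨P, α, h⟩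

theorem isPar {d : O} (h : M.Captured d) : M.IsPar d (M.par d) := by
  have hne : {l | ∃ P α, M.Capt l P α d}.Nonempty := h
  have hmem : ∃ P α, M.Capt (M.lam d) P α d := csInf_mem hne
  obtain ⟨P, hP, hmin⟩ := exists_min_colex (fun P => ∃ α, M.Capt (M.lam d) P α d) hmem
  exact Classical.epsilon_spec (p := M.IsPar d) ⟨P, hP, hmin⟩

theorem exists_capt {d : O} (h : M.Captured d) : ∃ α, M.Capt (M.lam d) (M.par d) α d := by
  exact (M.isPar h).1

/-- a smaller finite set is not a parameter -/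
theorem not_capt {d α : O} (h : M.Captured d) {Q : Finset O} (hQ : toColex Q < toColex (M.par d)) :
    ¬ M.Capt (M.lam d) Q α d := by
  intro hc
  exact absurd hQ (not_lt.mpr ((M.isPar h).2 Q ⟨α, hc⟩))

/-- a description of `par` -/
theorem par_eq {d : O} {P : Finset O} (h : ∃ α, M.Capt (M.lam d) P α d)
    (hP : ∀ Q : Finset O, toColex Q < toColex P → ∀ α, ¬ M.Capt (M.lam d) Q α d) : M.par d = P := by
  have hcap : M.Captured d := ⟨M.lam d, P, h⟩
  have h1 : toColex (M.par d) ≤ toColex P := (M.isPar hcap).2 P h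
  rcases lt_or_eq_of_le h1 with h2 | h2
  · obtain ⟨α, hα⟩ := (M.isPar hcap).1
    exact absurd hα (hP _ h2 α)
  · exact toColex.injective h2

theorem bounded {d m α : O} (h : M.Captured d) (hm : m < M.lam d) (hα : α < d) (P : Finset O) :
    ∃ ξ < d, ∀ η ∈ M.hl m α P, η < d → η < ξ := by
  by_contra hcon
  push Not at hcon
  obtain ⟨α', hα'⟩ := M.exists_capt h
  have hc : M.Capt m (P.filter (· < m)) α d := by
    refine ⟨fun x hx => (Finset.mem_filter.mp hx).2, hα, fun ξ hξ => ?_,
      (WithTop.coe_le_coe.2 hm.le).trans hα'.bd⟩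
    obtain ⟨η, h1, h2, h3⟩ := hcon ξ hξ
    refine ⟨η, M.hull_mono le_rfl ?_ h1, h3, h2⟩
    rintro x (hx | hx) hxm
    · exact Or.inl hx
    · exact Or.inr (Finset.mem_coe.mpr (Finset.mem_filter.mpr ⟨hx, hxm⟩))
  exact absurd hm (not_lt.mpr (M.lam_le hc))

theorem lim_lam (hM : M.Good) {d : O} (hd : Lim d) (h : M.Captured d) : Lim (M.lam d) := by
  obtain ⟨α, hα⟩ := M.exists_capt h
  have hdl : d ≤ M.lam d := Capt.le M hα
  refine ⟨lt_of_lt_of_le hd.1 hdl, fun x hx => ?_⟩
  by_contra hcon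
  have heq : M.lam d = x + 1 := le_antisymm (not_lt.mp hcon) (Order.add_one_le_of_lt hx)
  obtain ⟨P', hP', hz⟩ := M.hl_succ hM (l := x) (α := α) (M.par d)
  have hdx : d ≤ x := by
    by_contra h1
    have h2 := hd.2 x (not_le.mp h1)
    rw [← heq] at h2
    exact absurd h2 (not_lt.mpr hdl)
  have hc : M.Capt x P' α d := by
    refine ⟨hP', hα.lt, fun ξ hξ => ?_, (WithTop.coe_le_coe.2 hx.le).trans hα.bd⟩
    obtain ⟨η, h1, h2, h3⟩ := hα.unb ξ hξ
    rw [heq] at h1
    rcases hz η h1 with h4 | h4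
    · rw [h4] at h3
      exact absurd h3 (not_lt.mpr hdx)
    · exact ⟨η, h4, h2, h3⟩
  exact absurd hx (not_lt.mpr (M.lam_le hc))

theorem le_lam {d : O} (h : M.Captured d) : d ≤ M.lam d := by
  obtain ⟨α, hα⟩ := M.exists_capt h
  exact Capt.le M hα

theorem le_par {d : O} (hd : Lim d) (h : M.Captured d) : ∀ x ∈ M.par d, d ≤ x := by
  intro x hx
  by_contra hcon
  have hxd : x < d := not_le.mp hcon
  obtain ⟨α, hα⟩ := M.exists_capt h
  have hc : M.Capt (M.lam d) ((M.par d).erase x) (max α (x + 1)) d := by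
    refine ⟨fun y hy => hα.par y (Finset.mem_of_mem_erase hy), max_lt hα.lt (hd.2 x hxd), fun ξ hξ => ?_,
      hα.bd⟩
    obtain ⟨η, h1, h2, h3⟩ := hα.unb ξ hξ
    refine ⟨η, M.hull_mono le_rfl ?_ h1, h2, h3⟩
    rintro y (hy | hy) _
    · exact Or.inl (mem_Iio.mpr (lt_of_lt_of_le (mem_Iio.mp hy) (le_max_left _ _)))
    · by_cases hyx : y = x
      · left
        rw [hyx]
        exact mem_Iio.mpr (lt_of_lt_of_le (Order.lt_add_one_iff.mpr le_rfl) (le_max_right _ _))
      · exact Or.inr (Finset.mem_coe.mpr (Finset.mem_erase.mpr ⟨hyx, hy⟩))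
  exact M.not_capt h (Finset.Colex.toColex_lt_toColex_of_ssubset (Finset.erase_ssubset hx)) hc

end Pool.Agent.H82K.Ops
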