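import Pool.Agent.Lib.H82K.C05
import Pool.Agent.Lib.H82K.C06

/-!
# Chunk C07 (M): the elements of the least parameter

`l = lam d`, `p = par d`, `x ∈ p`, `p' = p.filter (x < ·)`, `X = {y | Hull l (Iio x ∪ p') y}`; `Capt l p α d` (`exists_capt`).

`notMem`: suppose `x ∈ X`. By `hull_finite` there is a finite `F ⊆ Iio x ∪ p'` with `Hull l F x`; let `r = F.filter (· < x)`
and `q = p.erase x ∪ r`. Then `F ⊆ q` as a set (elements of `p'` are in `p.erase x`), so `Hull l q x`, all elements of `p` are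
in `Hull l (Iio α ∪ q)` and `Capt l q α d` (`hull_hull`; the elements of `q` are `< l`). But
`toColex q < toColex p` (`toColex_lt_toColex_iff_exists_forall_lt` with `a = x`: `x ∉ q`; an element of `q ∖ p` is in `r`, so it is `< x`):
contradiction with `not_capt`.

`lb_lt`: let `π : X → lb` be the collapse; `d ≤ x` (`le_par`), `w1 < d`, so `X` contains `ω₁` (`Hull.base`; `x < l`). `lb ≤ l` (`lb_le`). Suppose
`lb = l`. All `y ∈ p` are `< l = lb`, so `y = π z` with `z ∈ X`, and `hull_map` (`m = l`, `mb = lb = l`) gives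
`Hull l (π '' (Iio x ∪ p')) y`, `π '' (Iio x ∪ p') ⊆ Iio x ∪ p'.image π`. By `hull_finite` for each `y ∈ p` and the union
of the finite sets there is a finite `r ⊆ Iio x` such that with `q = r ∪ p'.image π` all `y ∈ p` satisfy `Hull l q y`. So `Capt l q α d`. Now
`toColex q < toColex p`, a contradiction with `not_capt`: if `π z = z` for all `z ∈ p'` then `q = r ∪ p'`, take `a = x` (`x ∉ r`, `x ∉ p'`; elements
of `q ∖ p` are in `r`, so `< x`). Otherwise let `z0` be the largest `z ∈ p'` with `π z ≠ z`; `π z0 < z0` (`le_self`); `a = z0`: `z0 ∈ p`;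
`z0 ∉ q`: `z0 > x` is not in `r`; if `z0 = π z`, `z ∈ p'`, then `z ≥ z0`, `z ≠ z0`, so `z > z0`, `π z = z`, contradiction; an element `b` of
`q ∖ p` is in `r` (`b < x < z0`) or `b = π z`, `z ∈ p'`, and `z > z0` is impossible (then `b = z ∈ p`), so `b = π z ≤ π z0 < z0`.
-/

set_option autoImplicit false

open Set Order

open Pool.Agent.Lib.H45Osc (w1 limitPts)

namespace Pool.Agent.H82K.Ops

variable (M : Ops)

theorem notMem {d : O} (hd : Lim d) (h : M.Captured d) {x : O} (hx : x ∈ M.par d) :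
    ¬ M.Hull (M.lam d) (Iio x ∪ {y | y ∈ M.par d ∧ x < y}) x := by
  classical
  intro hX
  obtain ⟨F, hF, hFx⟩ := M.hull_finite hX
  obtain ⟨α, hα⟩ := M.exists_capt h
  have hxl : x < M.lam d := hα.par x hx
  let q : Finset O := (M.par d).erase x ∪ F.filter (· < x)
  have hqdef : ∀ y, y ∈ q ↔ (y ≠ x ∧ y ∈ M.par d) ∨ (y ∈ F ∧ y < x) := fun y => by
    simp only [q, Finset.mem_union, Finset.mem_erase, Finset.mem_filter]
  have hq : toColex q < toColex (M.par d) := by
    rw [Finset.Colex.toColex_lt_toColex_iff_exists_forall_lt]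
    refine ⟨x, hx, fun hxq => ?_, fun b hb hbp => ?_⟩
    · rcases (hqdef x).1 hxq with h1 | h1
      · exact h1.1 rfl
      · exact lt_irrefl _ h1.2
    · rcases (hqdef b).1 hb with h1 | h1
      · exact absurd h1.2 hbp
      · exact h1.2
  refine M.not_capt (α := α) h hq ⟨fun y hy => ?_, hα.lt, fun ξ hξ => ?_, hα.bd⟩
  · rcases (hqdef y).1 hy with h1 | h1
    · exact hα.par y h1.2
    · exact h1.2.trans hxl
  · obtain ⟨η, hη, h1, h2⟩ := hα.unb ξ hξ
    refine ⟨η, M.hull_hull le_rfl (fun y hy hyl => ?_) hη, h1, h2⟩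
    rcases hy with hy | hy
    · exact Hull.base (Or.inl hy) hyl
    · by_cases hyx : y = x
      · subst hyx
        refine M.hull_mono le_rfl (fun z hz _ => Or.inr ?_) hFx
        have hz' := hF hz
        rcases hz' with hz' | hz'
        · exact (hqdef z).2 (Or.inr ⟨hz, hz'⟩)
        · exact (hqdef z).2 (Or.inl ⟨hz'.2.ne', hz'.1⟩)
      · exact Hull.base (Or.inr ((hqdef y).2 (Or.inl ⟨hyx, hy⟩))) hyl

theorem lb_lt (hM : M.Good) {d : O} (hd : Lim d) (hd' : w1 < d) (h : M.Captured d) {x : O}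
    (hx : x ∈ M.par d) {lb : O} {π : O → O}
    (hπ : IsCollapse {y | M.Hull (M.lam d) (Iio x ∪ {y | y ∈ M.par d ∧ x < y}) y} lb π) :
    lb < M.lam d := by
  classical
  obtain ⟨α, hα⟩ := M.exists_capt h
  have hxl : x < M.lam d := hα.par x hx
  have hdx : d ≤ x := M.le_par hd h x hx
  have hX : M.Clo (M.lam d) {y | M.Hull (M.lam d) (Iio x ∪ {y | y ∈ M.par d ∧ x < y}) y} := M.clo_hull _ _
  have hx' : ∀ y < x, y ∈ {y | M.Hull (M.lam d) (Iio x ∪ {y | y ∈ M.par d ∧ x < y}) y} := fun y hy => Hull.base (Or.inl hy) (hy.trans hxl)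
  have hω : ∀ y < w1, y ∈ {y | M.Hull (M.lam d) (Iio x ∪ {y | y ∈ M.par d ∧ x < y}) y} := fun y hy => hx' y (hy.trans (hd'.trans_le hdx))
  refine lt_of_le_of_ne (hπ.lb_le hX.lt) ?_
  rintro rfl
  have hZ : ∀ z ∈ Iio x ∪ {y | y ∈ M.par d ∧ x < y}, z ∈ {y | M.Hull (M.lam d) (Iio x ∪ {y | y ∈ M.par d ∧ x < y}) y} := by
    rintro z (hz | hz)
    · exact hx' z hz
    · exact Hull.base (Or.inr hz) (hα.par z hz.1)
  let P' : Finset O := ((M.par d).filter (x < ·)).image π
  have hP' : ∀ y, y ∈ P' ↔ ∃ z, (z ∈ M.par d ∧ x < z) ∧ π z = y := fun y => by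
    simp only [P', Finset.mem_image, Finset.mem_filter]
  have key : ∀ y ∈ M.par d, M.Hull (M.lam d) (Iio x ∪ ↑P') y := by
    intro y hy
    obtain ⟨z, hz, rfl⟩ := hπ.onto y (hα.par y hy)
    refine M.hull_mono le_rfl ?_ (M.hull_map hM hα.bd hX hω hπ (Or.inl ⟨rfl, rfl⟩) hZ hz)
    rintro w ⟨v, hv, rfl⟩ -
    rcases hv with hv | hv
    · left
      rw [hπ.eq_self hx' hv]
      exact hv
    · exact Or.inr (Finset.mem_coe.2 ((hP' _).2 ⟨v, hv, rfl⟩))
  have key' : ∀ y, ∃ F : Finset O, y ∈ M.par d → (↑F ⊆ Iio x ∪ (↑P' : Set O)) ∧ M.Hull (M.lam d) (↑F) y := by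
    intro y
    by_cases hy : y ∈ M.par d
    · obtain ⟨F, hF⟩ := M.hull_finite (key y hy)
      exact ⟨F, fun _ => hF⟩
    · exact ⟨∅, fun h => absurd h hy⟩
  choose F hF using key'
  let r : Finset O := ((M.par d).biUnion F).filter (· < x)
  let q : Finset O := r ∪ P'
  have hr : ∀ z, z ∈ r → z < x := fun z hz => (Finset.mem_filter.1 hz).2
  have hqdef : ∀ z, z ∈ q ↔ z ∈ r ∨ z ∈ P' := fun z => Finset.mem_union
  have hq : ∀ y ∈ M.par d, M.Hull (M.lam d) (↑q) y := by
    intro y hy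
    obtain ⟨h1, h2⟩ := hF y hy
    refine M.hull_mono le_rfl (fun z hz _ => ?_) h2
    rcases h1 hz with h3 | h3
    · exact Finset.mem_coe.2 ((hqdef z).2 (Or.inl (Finset.mem_filter.2 ⟨Finset.mem_biUnion.2 ⟨y, hy, hz⟩, h3⟩)))
    · exact Finset.mem_coe.2 ((hqdef z).2 (Or.inr h3))
  have hlt : toColex q < toColex (M.par d) := by
    rw [Finset.Colex.toColex_lt_toColex_iff_exists_forall_lt]
    by_cases hall : ∀ z ∈ M.par d, x < z → π z = z
    · refine ⟨x, hx, fun hxq => ?_, fun b hb hbp => ?_⟩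
      · rcases (hqdef x).1 hxq with h1 | h1
        · exact lt_irrefl _ (hr x h1)
        · obtain ⟨z, ⟨hz, hxz⟩, hz'⟩ := (hP' x).1 h1
          rw [hall z hz hxz] at hz'
          exact hxz.ne' hz'
      · rcases (hqdef b).1 hb with h1 | h1
        · exact hr b h1
        · obtain ⟨z, ⟨hz, hxz⟩, rfl⟩ := (hP' b).1 h1
          rw [hall z hz hxz] at hbp
          exact absurd hz hbp
    · have hne : ((M.par d).filter fun z => x < z ∧ π z ≠ z).Nonempty := by
        push Not at hall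
        obtain ⟨z, h1, h2, h3⟩ := hall
        exact ⟨z, Finset.mem_filter.2 ⟨h1, h2, h3⟩⟩
      obtain ⟨z0, hz0, hmax⟩ := Finset.exists_max_image _ id hne
      obtain ⟨h1, h2, h3⟩ := Finset.mem_filter.1 hz0
      have hle : ∀ z ∈ M.par d, x < z → π z ≤ z := fun z hz hxz => hπ.le_self (hZ z (Or.inr ⟨hz, hxz⟩))
      have hfix : ∀ z ∈ M.par d, x < z → z0 < z → π z = z := by
        intro z hz hxz hz0z
        by_contra hcon
        exact absurd (hmax z (Finset.mem_filter.2 ⟨hz, hxz, hcon⟩)) (not_le.2 hz0z)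
      refine ⟨z0, h1, fun hzq => ?_, fun b hb hbp => ?_⟩
      · rcases (hqdef z0).1 hzq with h4 | h4
        · exact absurd (hr z0 h4) (not_lt.2 h2.le)
        · obtain ⟨z, ⟨hz, hxz⟩, hz'⟩ := (hP' z0).1 h4
          have h5 : z0 ≤ z := hz' ▸ hle z hz hxz
          rcases h5.eq_or_lt with h6 | h6
          · subst h6
            exact h3 hz'
          · rw [hfix z hz hxz h6] at hz'
            exact h6.ne' hz'
      · rcases (hqdef b).1 hb with h4 | h4
        · exact (hr b h4).trans h2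
        · obtain ⟨z, ⟨hz, hxz⟩, rfl⟩ := (hP' b).1 h4
          rcases lt_or_ge z0 z with h5 | h5
          · rw [hfix z hz hxz h5] at hbp
            exact absurd hz hbp
          · have h6 : π z ≤ π z0 := (hπ.le_iff (hZ z (Or.inr ⟨hz, hxz⟩)) (hZ z0 (Or.inr ⟨h1, h2⟩))).2 h5
            exact h6.trans_lt (lt_of_le_of_ne (hle z0 h1 h2) h3)
  refine M.not_capt (α := α) h hlt ⟨fun y hy => ?_, hα.lt, fun ξ hξ => ?_, hα.bd⟩
  · rcases (hqdef y).1 hy with h1 | h1
    · exact (hr y h1).trans hxl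
    · obtain ⟨z, hz, rfl⟩ := (hP' y).1 h1
      exact hπ.maps z (hZ z (Or.inr hz))
  · obtain ⟨η, hη, h1, h2⟩ := hα.unb ξ hξ
    refine ⟨η, M.hull_hull le_rfl (fun y hy hyl => ?_) hη, h1, h2⟩
    rcases hy with hy | hy
    · exact Hull.base (Or.inl hy) hyl
    · exact M.hull_mono le_rfl (fun z hz _ => Or.inr hz) (hq y hy)

end Pool.Agent.H82K.Ops
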