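import Pool.Agent.Lib.H82K.C07

/-!
# Chunk C08 (M): a bound for the parameters which are smaller than `par d`

`l = lam d`, `p = par d`, `x ∈ p`, `p' = {y ∈ p | x < y}`, `m < l`, `α < d`, `Q` finite, `Y = {y | y ∈ hl m α Q ∧ y < x}`. Claim: the set of
`η < d` in `Hull l (Y ∪ p')` is bounded in `d`.

Let `X = {y | Hull l (Iio x ∪ p') y}`, collapse `π : X → lb` (`exists_collapse`), `lb < l` (`lb_lt`). `X` is closed
(`clo_hull`), contains `Iio x` (`x < l`), hence `ω₁` (`w1 < d ≤ x`), and `π` fixes the ordinals `< x` (`eq_self`). Let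
`η ∈ Hull l (Y ∪ p')`, `η < d ≤ x`. By `hull_map` (`m := l`, `mb := lb`, `Z = Y ∪ p' ⊆ X`), `π η = η ∈ Hull lb (π '' (Y ∪ p'))` and
`π '' (Y ∪ p') ⊆ Y ∪ p'.image π`. Let `m' = max m lb < l` and `Q' = Q ∪ (p.filter (x < ·)).image π`. Then `η ∈ hl m' α Q'` by
`hull_hull` (`Y ⊆ hl m α Q ⊆ hl m' α Q'`; an element of the image of `p'` is `< lb ≤ m'`). By
`bounded` the elements `< d` of `hl m' α Q'` are bounded by some `ξ < d`.
-/

set_option autoImplicit false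

open Set Order

open Pool.Agent.Lib.H45Osc (w1 limitPts)

namespace Pool.Agent.H82K.Ops

variable (M : Ops)

theorem bounded_par (hM : M.Good) {d : O} (hd : Lim d) (hd' : w1 < d) (h : M.Captured d) {x : O}
    (hx : x ∈ M.par d) {m α : O} (hm : m < M.lam d) (hα : α < d) (Q : Finset O) :
    ∃ ξ < d, ∀ η, M.Hull (M.lam d) ({y | y ∈ M.hl m α Q ∧ y < x} ∪ {y | y ∈ M.par d ∧ x < y}) η →
      η < d → η < ξ := by
  classical
  obtain ⟨α0, hcap⟩ := M.exists_capt h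
  have hpl : ∀ y ∈ M.par d, y < M.lam d := hcap.par
  have hdx : d ≤ x := M.le_par hd h x hx
  have hxl : x < M.lam d := hpl x hx
  obtain ⟨lb, π, hπ⟩ := exists_collapse
    (X := {y | M.Hull (M.lam d) (Iio x ∪ {y | y ∈ M.par d ∧ x < y}) y}) (l := M.lam d)
    (fun y hy => M.hull_lt hy)
  have hlb : lb < M.lam d := M.lb_lt hM hd hd' h hx hπ
  have hIio : ∀ y < x, y ∈ {y | M.Hull (M.lam d) (Iio x ∪ {y | y ∈ M.par d ∧ x < y}) y} :=
    fun y hy => Hull.base (Or.inl hy) (hy.trans hxl)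
  have hω : ∀ y < w1, y ∈ {y | M.Hull (M.lam d) (Iio x ∪ {y | y ∈ M.par d ∧ x < y}) y} :=
    fun y hy => hIio y (hy.trans (hd'.trans_le hdx))
  have hp' : ∀ y, y ∈ M.par d → x < y →
      y ∈ {y | M.Hull (M.lam d) (Iio x ∪ {y | y ∈ M.par d ∧ x < y}) y} :=
    fun y hy hxy => Hull.base (Or.inr ⟨hy, hxy⟩) (hpl y hy)
  have hm' : max m lb < M.lam d := max_lt hm hlb
  obtain ⟨ξ, hξ, hb⟩ := M.bounded h hm' hα (Q ∪ ((M.par d).filter (fun y => x < y)).image π)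
  refine ⟨ξ, hξ, fun η hη hηd => hb η ?_ hηd⟩
  have h1 := M.hull_map hM hcap.bd (M.clo_hull (M.lam d) (Iio x ∪ {y | y ∈ M.par d ∧ x < y})) hω hπ (m := M.lam d) (mb := lb)
    (Or.inl ⟨rfl, rfl⟩)
    (Z := {y | y ∈ M.hl m α Q ∧ y < x} ∪ {y | y ∈ M.par d ∧ x < y})
    (fun z hz => by
      rcases hz with hz | hz
      · exact hIio z hz.2
      · exact hp' z hz.1 hz.2) hη
  rw [hπ.eq_self hIio (hηd.trans_le hdx)] at h1
  refine M.hull_hull (le_max_right m lb) (fun z hz hzlb => ?_) h1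
  obtain ⟨y, hy, rfl⟩ := hz
  rcases hy with hy | hy
  · rw [hπ.eq_self hIio hy.2]
    exact M.hl_mono (le_max_left m lb) le_rfl Finset.subset_union_left hy.1
  · refine Hull.base (Or.inr ?_) (hzlb.trans_le (le_max_right m lb))
    rw [Finset.mem_coe, Finset.mem_union]
    exact Or.inr (Finset.mem_image_of_mem π (Finset.mem_filter.2 ⟨hy.1, hy.2⟩))

end Pool.Agent.H82K.Ops
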