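import Pool.Agent.Lib.H82K.Defs

/-!
# Chunk C09 (M): normal sequences of length `ω₁`

Tools: `isOmega1_W` (in H45Osc/Copy.lean) and `IsOmega1.exists_gt` (a countable subset of `W` is bounded),
`IsOmega1.countable_Iio`.

* `lim`: `d` is a limit: for `x < d` take `i` with `x < A i < d`, so `x + 1 ≤ A i < d`; `0 ≤ A i < d`.
* `lim_apply`: for `i ∈ limitPts`, `A i` is a limit ordinal: for `x < A i` there is `j < i` with `x ≤ A j`, and `j' < i` with `j < j'`
  (definition of `limitPts`), so `x + 1 ≤ A j' < A i`.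
* `le_apply`: `i ≤ A i` (`i` as an ordinal) for a strictly increasing `A` (`StrictMono.le_apply` or induction).
* `bounded_countable`: a countable set of ordinals below `d` is bounded below `d`: choose `i_s` with `s < A i_s` and an upper bound
  of the `i_s`.
* `exists_lt_of_limitPts`: for `i ∈ limitPts` and `x < A i` there is `j < i` with `x < A j`.
* `of_reach`: `R e η` is increasing in `e < a`, cofinal in `d` (`h1`), and bounded in `d` for each `e < a` (`h2`). Choose `f : W → O`
  with `f j < a` and `η_j ≥ A j`, `η_j < d`, `R (f j) η_j`. Define by well-founded recursion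
  `E i = sSup ((fun j => max (E j + 1) (f j)) '' Iio i)`. (1) for countable `s ⊆ Iio a` there is `e < a` with
  `x ≤ e` for all `x ∈ s`: otherwise every `e < a` is `<` some `x ∈ s`; choose for `x ∈ s` a bound `ξ_x < d` (h2); the `ξ_x` are bounded
  by some `ξ < d` (`bounded_countable`); by `h1` there are `e`, `η ≥ ξ`, `R e η`, `η < d`, so `R x η`, `η < ξ_x ≤ ξ`, contradiction. (2) `E i < a`
  by induction and (1) (also `e + 1 < a` for `e < a`: (1) with `s = {e}` gives only `≤`; use that `R e` is bounded while `R` is cofinal, so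
  there is `e' < a` with `R e' η`, `η` above the bound, and then `e < e'`). (3) strictly increasing: `E j + 1 ≤ E i` for `j < i`. (4) cofinal: if
  `E i ≤ x < a` for all `i`, then `f j ≤ x` for all `j`, so `R x η_j` for all `j`, contradiction to `h2`. (5) continuity: `x < E i` gives `j < i` with
  `x < max (E j + 1) (f j)`; if `x < E j + 1` then `x ≤ E j`; if `x < f j` then `x < E j'` for `j < j' < i`.
-/

set_option autoImplicit false

open Set Order

open Pool.Agent.Lib.H45Osc (w1 limitPts isOmega1_W IsOmega1)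

namespace Pool.Agent.H82K.NS

variable {A : W → O} {d : O} (h : NS A d)

include h

theorem lim : Lim d := by
  obtain ⟨b0⟩ := isOmega1_W.nonempty
  refine ⟨zero_le.trans_lt (h.lt b0), fun x hx => ?_⟩
  obtain ⟨i, hi⟩ := h.cof x hx
  exact (Order.add_one_le_of_lt hi).trans_lt (h.lt i)

theorem lim_apply {i : W} (hi : i ∈ limitPts) : Lim (A i) := by
  obtain ⟨v, hv⟩ := hi.1
  refine ⟨zero_le.trans_lt (h.mono hv), fun x hx => ?_⟩
  obtain ⟨j, hj, hxj⟩ := h.cont i hi x hx
  obtain ⟨j', h1, h2⟩ := hi.2 j hj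
  exact (Order.add_one_le_of_lt (hxj.trans_lt (h.mono h1))).trans_lt (h.mono h2)

theorem le_apply (i : W) : i.1 ≤ A i := by
  induction i using WellFoundedLT.induction with
  | ind i ih =>
    by_contra hc
    rw [not_le] at hc
    have hj : A i < w1 := hc.trans i.2
    have h1 : (⟨A i, hj⟩ : W) < i := hc
    exact absurd (ih _ h1) (not_le.2 (h.mono h1))

theorem bounded_countable {S : Set O} (hS : S.Countable) (hd : ∀ x ∈ S, x < d) :
    ∃ ξ < d, ∀ x ∈ S, x < ξ := by
  have h1 : ∀ x : S, ∃ i, x.1 < A i := fun x => h.cof x.1 (hd x.1 x.2)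
  choose g hg using h1
  have h2 : (Set.range g).Countable := by
    haveI := hS.to_subtype
    exact Set.countable_range g
  obtain ⟨b, hb⟩ := isOmega1_W.exists_gt h2
  exact ⟨A b, h.lt b, fun x hx => (hg ⟨x, hx⟩).trans (h.mono (hb _ ⟨_, rfl⟩))⟩

theorem exists_lt_of_limitPts {i : W} (hi : i ∈ limitPts) {x : O} (hx : x < A i) :
    ∃ j < i, x < A j := by
  obtain ⟨j, hj, hxj⟩ := h.cont i hi x hx
  obtain ⟨j', h1, h2⟩ := hi.2 j hj
  exact ⟨j', h2, hxj.trans_lt (h.mono h1)⟩

theorem of_reach {a : O} {R : O → O → Prop} (hR : ∀ e e' η, e ≤ e' → R e η → R e' η)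
    (h1 : ∀ ξ < d, ∃ e < a, ∃ η, R e η ∧ ξ ≤ η ∧ η < d)
    (h2 : ∀ e < a, ∃ ξ < d, ∀ η, R e η → η < d → η < ξ) : ∃ E : W → O, NS E a := by
  -- countable sets below `a` are bounded below `a`
  have key : ∀ s : Set O, s.Countable → (∀ x ∈ s, x < a) → ∃ e < a, ∀ x ∈ s, x < e := by
    intro s hs hsa
    have g1 : ∀ x : s, ∃ ξ < d, ∀ η, R x.1 η → η < d → η < ξ := fun x => h2 x.1 (hsa x.1 x.2)
    choose g hgd hg using g1
    have g2 : (Set.range g).Countable := by
      haveI := hs.to_subtype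
      exact Set.countable_range g
    obtain ⟨ξ, hξ, hξ'⟩ := h.bounded_countable g2 (by
      rintro _ ⟨x, rfl⟩
      exact hgd x)
    obtain ⟨e, he, η, hη, hξη, hηd⟩ := h1 ξ hξ
    refine ⟨e, he, fun x hx => ?_⟩
    by_contra hc
    rw [not_lt] at hc
    have g3 := hg ⟨x, hx⟩ η (hR _ _ _ hc hη) hηd
    exact absurd ((g3.trans (hξ' _ ⟨_, rfl⟩)).trans_le hξη) (lt_irrefl _)
  have g4 : ∀ j : W, ∃ e < a, ∃ η, R e η ∧ A j ≤ η ∧ η < d := fun j => h1 (A j) (h.lt j)
  choose f hfa η hη hAη hηd using g4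
  let F : (i : W) → ((j : W) → j < i → O) → O :=
    fun i g => sSup (Set.range (fun j : Set.Iio i => max (g j.1 j.2 + 1) (f j.1)))
  let E : W → O := (wellFounded_lt (α := W)).fix F
  have hE : ∀ i, E i = sSup (Set.range (fun j : Set.Iio i => max (E j.1 + 1) (f j.1))) := by
    intro i
    exact (wellFounded_lt (α := W)).fix_eq F i
  have hbd : ∀ i, (∀ j < i, E j < a) →
      ∃ e < a, ∀ x ∈ Set.range (fun j : Set.Iio i => max (E j.1 + 1) (f j.1)), x < e := by
    intro i hi
    refine key _ ?_ ?_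
    · haveI : Countable (Set.Iio i) := (isOmega1_W.countable_Iio i).to_subtype
      exact Set.countable_range _
    · rintro _ ⟨j, rfl⟩
      refine max_lt ?_ (hfa _)
      obtain ⟨e, he, he'⟩ := key {E j.1} (Set.countable_singleton _) (by
        rintro x hx
        rw [Set.mem_singleton_iff] at hx
        rw [hx]
        exact hi _ j.2)
      exact (Order.add_one_le_of_lt (he' _ rfl)).trans_lt he
  have hEa : ∀ i, E i < a := by
    intro i
    induction i using WellFoundedLT.induction with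
    | ind i ih =>
      obtain ⟨e, he, he'⟩ := hbd i ih
      rw [hE i]
      exact (csSup_le' fun x hx => (he' x hx).le).trans_lt he
  have hstep : ∀ i j, j < i → max (E j + 1) (f j) ≤ E i := by
    intro i j hji
    obtain ⟨e, he, he'⟩ := hbd i fun j _ => hEa j
    rw [hE i]
    exact le_csSup ⟨e, fun x hx => (he' x hx).le⟩ ⟨⟨j, hji⟩, rfl⟩
  refine ⟨E, ?_, hEa, ?_, ?_⟩
  · intro j i hji
    exact (Order.lt_add_one_iff.2 le_rfl).trans_le ((le_max_left _ _).trans (hstep i j hji))
  · intro x hx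
    by_contra hc
    push Not at hc
    obtain ⟨ξ, hξ, hξ'⟩ := h2 x hx
    obtain ⟨i, hi⟩ := h.cof ξ hξ
    obtain ⟨i', hi'⟩ := isOmega1_W.exists_lt i
    have g5 : f i ≤ x := ((le_max_right _ _).trans (hstep i' i hi')).trans (hc i')
    have g6 := hξ' (η i) (hR _ _ _ g5 (hη i)) (hηd i)
    exact absurd ((g6.trans hi).trans_le (hAη i)) (lt_irrefl _)
  · intro i hi x hx
    rw [hE i] at hx
    obtain ⟨_, ⟨j, rfl⟩, hxj⟩ := exists_lt_of_lt_csSup' hx
    obtain ⟨j', hj1, hj2⟩ := hi.2 j.1 j.2
    exact ⟨j', hj2, (hxj.trans_le (hstep j' j.1 hj1)).le⟩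

end Pool.Agent.H82K.NS
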