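import Pool.Agent.Lib.H82K.C06
import Pool.Agent.Lib.H82K.C09

/-!
# Chunk C10 (S/M): `lam d` and `a0` have cofinality `ω₁`

* `a0_le`, `unb_a0`, `not_unb`: `csInf`.
* `ns_lam`: `NS.of_reach` with `R e η := η ∈ hl e α p` where `Capt (lam d) p α d`; `h1`: `unb`, `lim_lam` and `hl_limit`; `h2`: `bounded`.
* `ns_a0`: `a = a0 l P d`, `Unb (hl l α P) d` for some `α < d`, so `a ≤ α < d` and `Unb (hl l a P) d`. `R e η := η ∈ hl l e P`; `h2`: `e < a` is not in
  the class, so `hl l e P` is not unbounded. `h1`: `a ≠ 0`: otherwise `hl l 0 P` is countable (`hull_countable`) and unbounded in `d`,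
  against `NS.bounded_countable`. `a` is not a successor, so `Lim a`; `hl_limit'`.
-/

set_option autoImplicit false

open Set Order

open Pool.Agent.Lib.H45Osc (w1 limitPts)

namespace Pool.Agent.H82K.Ops

variable (M : Ops)

theorem a0_le {l α d : O} {P : Finset O} (h : Unb (M.hl l α P) d) : M.a0 l P d ≤ α := by
  exact csInf_le' h

theorem unb_a0 {l α d : O} {P : Finset O} (h : Unb (M.hl l α P) d) :
    Unb (M.hl l (M.a0 l P d) P) d := by
  exact csInf_mem (s := {α | Unb (M.hl l α P) d}) ⟨α, h⟩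

theorem not_unb {l e d : O} {P : Finset O} (h : e < M.a0 l P d) : ¬ Unb (M.hl l e P) d := by
  exact notMem_of_lt_csInf' (s := {α | Unb (M.hl l α P) d}) h

/-- the value of `a0` -/
theorem a0_eq {l a d : O} {P : Finset O} (h : Unb (M.hl l a P) d)
    (h' : ∀ e < a, ¬ Unb (M.hl l e P) d) : M.a0 l P d = a := by
  refine le_antisymm (M.a0_le h) (not_lt.1 fun hlt => ?_)
  exact h' _ hlt (M.unb_a0 h)

/-- if `S` is not unbounded in `d` then there is a bound -/
theorem exists_bound {S : Set O} {d : O} (h : ¬ Unb S d) : ∃ ξ < d, ∀ η ∈ S, η < d → η < ξ := by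
  by_contra hcon
  apply h
  intro ξ hξ
  by_contra hn
  apply hcon
  refine ⟨ξ, hξ, fun η hη hd => ?_⟩
  by_contra hlt
  exact hn ⟨η, hη, not_lt.1 hlt, hd⟩

theorem ns_lam (hM : M.Good) {A : W → O} {d : O} (hA : NS A d) (h : M.Captured d) :
    ∃ μ : W → O, NS μ (M.lam d) := by
  obtain ⟨α, hα⟩ := M.exists_capt h
  have hlim := M.lim_lam hM hA.lim h
  refine hA.of_reach (R := fun e η => η ∈ M.hl e α (M.par d)) ?_ ?_ ?_
  · intro e e' η he hη
    exact M.hl_mono he le_rfl (Finset.Subset.refl _) hη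
  · intro ξ hξ
    obtain ⟨η, hη, h1, h2⟩ := hα.unb ξ hξ
    obtain ⟨m, hm, hη'⟩ := M.hl_limit hlim hη
    exact ⟨m, hm, η, hη', h1, h2⟩
  · intro e he
    exact M.bounded h he hα.lt _

theorem ns_a0 {A : W → O} {d l α : O} (hA : NS A d) {P : Finset O} (hα : α < d)
    (h : Unb (M.hl l α P) d) (hs : ∀ g, M.a0 l P d ≠ g + 1) : ∃ e : W → O, NS e (M.a0 l P d) := by
  have hu := M.unb_a0 h
  have hpos : 0 < M.a0 l P d := by
    rw [pos_iff_ne_zero]
    intro h0
    rw [h0] at hu
    have hc : {x | x ∈ M.hl l 0 P ∧ x < d}.Countable := by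
      have h1 : (M.hl l 0 P).Countable := by
        refine M.hull_countable ?_
        refine Set.Countable.union ?_ P.countable_toSet
        have h2 : Iio (0 : O) = ∅ := by
          ext x
          simp
        rw [h2]
        exact Set.countable_empty
      exact h1.mono fun x hx => hx.1
    obtain ⟨ξ, hξ, hb⟩ := hA.bounded_countable hc fun x hx => hx.2
    obtain ⟨η, hη, h3, h4⟩ := hu ξ hξ
    exact absurd (hb η ⟨hη, h4⟩) (not_lt.2 h3)
  have hlim : Lim (M.a0 l P d) := by
    refine ⟨hpos, fun x hx => lt_of_le_of_ne (Order.add_one_le_of_lt hx) fun he => hs x he.symm⟩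
  refine hA.of_reach (R := fun e η => η ∈ M.hl l e P) ?_ ?_ ?_
  · intro e e' η he hη
    exact M.hl_mono le_rfl he (Finset.Subset.refl _) hη
  · intro ξ hξ
    obtain ⟨η, hη, h1, h2⟩ := hu ξ hξ
    obtain ⟨e, he, hη'⟩ := M.hl_limit' hlim hη
    exact ⟨e, he, η, hη', h1, h2⟩
  · intro e he
    exact exists_bound (M.not_unb he)

end Pool.Agent.H82K.Ops
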