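import Pool.Agent.Lib.H82K.CX
import Pool.Agent.Lib.H82K.C08
import Pool.Agent.Lib.H82K.C10

/-!
# Chunk C11 (M): the closure points form a club

Tools in H45Osc: `isOmega1_W`, `IsOmega1.isClub_closed`, `IsOmega1.isClub_closed_nat`, `IsOmega1.isClub_Ioi`, `isClub_limitPts`,
`IsOmega1.cof_ne`, `IsClub.inter`. Every clause is either `b < i` for a fixed `b` or closure of `i` under a function `W → W`:

* `big`: `w1 < A b` for some `b` (`cof`); `par`: a bound `x < μ b_x` for each of the finitely many `x ∈ par d` (`x < lam d` by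
  `exists_capt`, `Capt.par`), the maximum of the `b_x`; take `i > b`.
* `sig`: `bounded` with `m = μ j < lam d`, `α = A j < d` gives `ξ < d`, take `F j` with `ξ < A (F j)`.
* `tau`: `bounded_par` for each `x ∈ par d` (finite: take the maximum).
* `le`: `A j < d ≤ lam d` (`le_lam`), `cof` of `μ`.
* `cap`: `exists_capt` gives `α < d`, take `i` with `α < A i`; for `j` take `η ∈ hl (lam d) α (par d)` with `A j ≤ η < d` (`unb`), `hl_limit`
  (`lim_lam`) gives `m < lam d` with `η ∈ hl m α (par d)`, and `m < μ (F j)` for some `F j`; `hl_mono`.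
-/

set_option autoImplicit false

open Set Order

open Pool.Agent.Lib.H45Osc (w1 limitPts)

namespace Pool.Agent.H82K.Ops

variable (M : Ops)

/-- closure of finitely many functions and lower bounds -/
theorem exists_club {n : ℕ} (F : Fin n → W → W) (b : W) :
    ∃ D : Set W, IsClub D ∧ ∀ i ∈ D, i ∈ limitPts ∧ b < i ∧ ∀ k, ∀ j < i, F k j < i := by
  have h := Pool.Agent.Lib.H45Osc.isOmega1_W
  let G : ℕ → W → W := fun m => if hm : m < n then F ⟨m, hm⟩ else id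
  refine ⟨(limitPts ∩ Ioi b) ∩ {i | ∀ v < i, ∀ m, G m v < i},
    (Pool.Agent.Lib.H45Osc.isClub_limitPts.inter h.cof_ne (h.isClub_Ioi b)).inter h.cof_ne (h.isClub_closed_nat G), ?_⟩
  rintro i ⟨⟨h1, h2⟩, h3⟩
  refine ⟨h1, h2, fun k j hj => ?_⟩
  have h4 := h3 j hj k.1
  simp only [G, dif_pos k.2] at h4
  exact h4

theorem exists_inD {A μ : W → O} {d : O} (h : M.Ctx A μ d) :
    ∃ D : Set W, IsClub D ∧ ∀ i ∈ D, M.InD A μ d i := by
  have hω := Pool.Agent.Lib.H45Osc.isOmega1_W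
  have hlim : Lim d := h.hA.lim
  have hll : Lim (M.lam d) := M.lim_lam h.good hlim h.hc
  obtain ⟨α, hα⟩ := M.exists_capt h.hc
  -- lower bounds
  obtain ⟨b1, hb1⟩ := h.hA.cof w1 h.hd
  obtain ⟨b2, hb2⟩ := h.hA.cof α hα.lt
  have hpar : ∃ b3 : W, ∀ x ∈ M.par d, x < μ b3 := by
    have h1 : ∀ x : M.par d, ∃ i, x.1 < μ i := fun x => h.hμ.cof x.1 (hα.par x.1 x.2)
    choose g hg using h1
    obtain ⟨b, hb⟩ := hω.exists_gt (Set.countable_range g)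
    exact ⟨b, fun x hx => (hg ⟨x, hx⟩).trans (h.hμ.mono (hb _ ⟨⟨x, hx⟩, rfl⟩))⟩
  obtain ⟨b3, hb3⟩ := hpar
  -- the functions
  have h1 : ∀ j, ∃ j', ∀ η ∈ M.hl (μ j) (A j) (M.par d), η < d → η < A j' := by
    intro j
    obtain ⟨ξ, hξ, hb⟩ := M.bounded h.hc (h.hμ.lt j) (h.hA.lt j) (M.par d)
    obtain ⟨j', hj'⟩ := h.hA.cof ξ hξ
    exact ⟨j', fun η hη hd => (hb η hη hd).trans hj'⟩
  have h2 : ∀ j, ∃ j', ∀ x ∈ M.par d, ∀ η,
      M.Hull (M.lam d) ({y | y ∈ M.hl (μ j) (A j) (M.par d) ∧ y < x} ∪ {y | y ∈ M.par d ∧ x < y}) η →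
        η < d → η < A j' := by
    intro j
    have h3 : ∀ x : M.par d, ∃ j', ∀ η,
        M.Hull (M.lam d) ({y | y ∈ M.hl (μ j) (A j) (M.par d) ∧ y < x.1} ∪ {y | y ∈ M.par d ∧ x.1 < y}) η →
        η < d → η < A j' := by
      intro x
      obtain ⟨ξ, hξ, hb⟩ := M.bounded_par h.good hlim h.hd h.hc x.2 (h.hμ.lt j) (h.hA.lt j) (M.par d)
      obtain ⟨j', hj'⟩ := h.hA.cof ξ hξ
      exact ⟨j', fun η hη hd => (hb η hη hd).trans hj'⟩
    choose g hg using h3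
    obtain ⟨b, hb⟩ := hω.exists_gt (Set.countable_range g)
    exact ⟨b, fun x hx η hη hd => (hg ⟨x, hx⟩ η hη hd).trans (h.hA.mono (hb _ ⟨⟨x, hx⟩, rfl⟩))⟩
  have h3 : ∀ j, ∃ j', A j ≤ μ j' := by
    intro j
    obtain ⟨j', hj'⟩ := h.hμ.cof (A j) ((h.hA.lt j).trans_le (M.le_lam h.hc))
    exact ⟨j', hj'.le⟩
  have h4 : ∀ j, ∃ j', ∃ η ∈ M.hl (μ j') α (M.par d), A j ≤ η ∧ η < d := by
    intro j
    obtain ⟨η, hη, hjη, hηd⟩ := hα.unb (A j) (h.hA.lt j)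
    obtain ⟨m, hm, hη'⟩ := M.hl_limit hll hη
    obtain ⟨j', hj'⟩ := h.hμ.cof m hm
    exact ⟨j', η, M.hl_mono hj'.le le_rfl (Finset.Subset.refl _) hη', hjη, hηd⟩
  choose F1 hF1 using h1
  choose F2 hF2 using h2
  choose F3 hF3 using h3
  choose F4 hF4 using h4
  obtain ⟨D, hD, hD'⟩ := exists_club (n := 4) ![F1, F2, F3, F4] (max b1 (max b2 b3))
  refine ⟨D, hD, fun i hi => ?_⟩
  obtain ⟨hi1, hi2, hi3⟩ := hD' i hi
  have hi4 : b1 < i := (le_max_left _ _).trans_lt hi2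
  have hi5 : b2 < i := ((le_max_left _ _).trans (le_max_right _ _)).trans_lt hi2
  have hi6 : b3 < i := ((le_max_right _ _).trans (le_max_right _ _)).trans_lt hi2
  refine ⟨hi1, hb1.trans (h.hA.mono hi4), ⟨b3, hi6, hb3⟩, fun j hj => ⟨F1 j, hi3 0 j hj, hF1 j⟩,
    fun j hj x hx => ⟨F2 j, hi3 1 j hj, hF2 j x hx⟩, fun j hj => ⟨F3 j, hi3 2 j hj, hF3 j⟩,
    ⟨α, hb2.trans (h.hA.mono hi5), fun j hj => ⟨F4 j, hi3 3 j hj, hF4 j⟩⟩⟩

end Pool.Agent.H82K.Ops
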