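import Pool.Agent.Lib.H82K.CX
import Pool.Agent.Lib.H82K.C05
import Pool.Agent.Lib.H82K.C06
import Pool.Agent.Lib.H82K.C09

/-!
# Chunk C12 (M): the set `X i = hl (μ i) (A i) (par d)` for a closure point `i`

* `le_mu`: if `x < A i` then `x < A j` for some `j < i` (`NS.exists_lt_of_limitPts`) and `A j ≤ μ j' < μ i`.
* `mem_X`: `Hull.base` with `le_mu`. `par_mem_X`: `par`, `Hull.base`.
* `X_finset`: `hull_directed_finset` with `J = Iio i`, `m j = μ j`, `X j = Iio (A j) ∪ par d`, `l = μ i`; the hypotheses from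
  `exists_lt_of_limitPts` for `μ` and `A`; nonempty since `i ∈ limitPts`.
* `lt_of_mem_X`: `X_finset` for `{x}`, then `sig`: `x < A j' < A i`.
* `clo_X`: `clo_hull`.
* for a collapse `π` of `X i`: `π x = x` for `x < A i` (`eq_self`), `π x < A i` iff `x < d` (for `x ∈ X i`): if `x < d` then `x < A i`, `π x = x`; if
  `d ≤ x` then `A i ≤ x`, `A i ≤ π x` (`le_of_le`).
-/

set_option autoImplicit false

open Set Order

open Pool.Agent.Lib.H45Osc (w1 limitPts)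

namespace Pool.Agent.H82K.Ops

variable {M : Ops} {A μ : W → O} {d : O}

theorem Ctx.le_mu (h : M.Ctx A μ d) {i : W} (hi : M.InD A μ d i) : A i ≤ μ i := by
  by_contra hc
  rw [not_le] at hc
  obtain ⟨j, hj, hj2⟩ := h.hA.exists_lt_of_limitPts hi.lim hc
  obtain ⟨j', hj', hj3⟩ := hi.le j hj
  exact absurd (hj2.trans_le hj3) (not_lt.2 (h.hμ.mono hj').le)

theorem Ctx.mem_X (h : M.Ctx A μ d) {i : W} (hi : M.InD A μ d i) {x : O} (hx : x < A i) :
    x ∈ M.hl (μ i) (A i) (M.par d) := by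
  exact Hull.base (Or.inl hx) (hx.trans_le (h.le_mu hi))

theorem Ctx.omega_X (h : M.Ctx A μ d) {i : W} (hi : M.InD A μ d i) {x : O} (hx : x < w1) :
    x ∈ M.hl (μ i) (A i) (M.par d) := by
  exact h.mem_X hi (hx.trans hi.big)

theorem Ctx.par_mem_X (h : M.Ctx A μ d) {i : W} (hi : M.InD A μ d i) {x : O} (hx : x ∈ M.par d) :
    x ∈ M.hl (μ i) (A i) (M.par d) := by
  obtain ⟨j, hj, hj2⟩ := hi.par
  exact Hull.base (Or.inr (Finset.mem_coe.2 hx)) ((hj2 x hx).trans (h.hμ.mono hj))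

theorem Ctx.X_finset (h : M.Ctx A μ d) {i : W} (hi : M.InD A μ d i) (F : Finset O)
    (hF : ∀ x ∈ F, x ∈ M.hl (μ i) (A i) (M.par d)) :
    ∃ j < i, ∀ x ∈ F, x ∈ M.hl (μ j) (A j) (M.par d) := by
  obtain ⟨j0, hj0, _⟩ := hi.par
  have hne : Nonempty {j : W // j < i} := ⟨⟨j0, hj0⟩⟩
  obtain ⟨j, hj⟩ := M.hull_directed_finset (J := {j : W // j < i}) (m := fun j => μ j.1)
    (X := fun j => Iio (A j.1) ∪ ↑(M.par d))
    (fun a b hab => h.hμ.mono.monotone hab)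
    (fun a b hab x hx => by
      rcases hx with hx | hx
      · exact Or.inl (lt_of_lt_of_le hx (h.hA.mono.monotone hab))
      · exact Or.inr hx)
    (l := μ i) (Y := Iio (A i) ∪ ↑(M.par d))
    (fun x hx => by
      obtain ⟨j, hj, hj2⟩ := h.hμ.exists_lt_of_limitPts hi.lim hx
      exact ⟨⟨j, hj⟩, hj2⟩)
    (fun y hy => by
      rcases hy with hy | hy
      · obtain ⟨j, hj, hj2⟩ := h.hA.exists_lt_of_limitPts hi.lim hy
        exact ⟨⟨j, hj⟩, Or.inl hj2⟩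
      · exact ⟨⟨j0, hj0⟩, Or.inr hy⟩) F hF
  exact ⟨j.1, j.2, hj⟩

theorem Ctx.lt_of_mem_X (h : M.Ctx A μ d) {i : W} (hi : M.InD A μ d i) {x : O}
    (hx : x ∈ M.hl (μ i) (A i) (M.par d)) (hxd : x < d) : x < A i := by
  obtain ⟨j, hj, hj2⟩ := h.X_finset hi {x} (fun y hy => by
    rw [Finset.mem_singleton] at hy
    rw [hy]
    exact hx)
  obtain ⟨j', hj', hj3⟩ := hi.sig j hj
  exact (hj3 x (hj2 x (Finset.mem_singleton_self x)) hxd).trans (h.hA.mono hj')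

theorem Ctx.mu_le_b (h : M.Ctx A μ d) (i : W) : (μ i : WithTop O) ≤ M.b := by
  obtain ⟨α, hα⟩ := M.exists_capt h.hc
  exact (WithTop.coe_le_coe.2 (h.hμ.lt i).le).trans hα.bd

theorem Ctx.clo_X (_h : M.Ctx A μ d) (i : W) : M.Clo (μ i) (M.hl (μ i) (A i) (M.par d)) := by
  exact M.clo_hull _ _

section

variable {mb : O} {π : O → O}

theorem Ctx.pi_eq (h : M.Ctx A μ d) {i : W} (hi : M.InD A μ d i)
    (hπ : IsCollapse (M.hl (μ i) (A i) (M.par d)) mb π) {x : O} (hx : x < A i) : π x = x := by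
  exact hπ.eq_self (fun y hy => h.mem_X hi hy) hx

theorem Ctx.pi_lt_iff (h : M.Ctx A μ d) {i : W} (hi : M.InD A μ d i)
    (hπ : IsCollapse (M.hl (μ i) (A i) (M.par d)) mb π) {x : O}
    (hx : x ∈ M.hl (μ i) (A i) (M.par d)) : π x < A i ↔ x < d := by
  constructor
  · intro h1
    by_contra hc
    rw [not_lt] at hc
    exact absurd h1 (not_lt.2 (hπ.le_of_le (fun y hy => h.mem_X hi hy) hx ((h.hA.lt i).le.trans hc)))
  · intro h1
    have h2 := h.lt_of_mem_X hi hx h1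
    rw [h.pi_eq hi hπ h2]
    exact h2

/-- a hull in `X i` is unbounded in `A i` iff its collapse is -/
theorem Ctx.unb_iff (h : M.Ctx A μ d) {i : W} (hi : M.InD A μ d i)
    (hπ : IsCollapse (M.hl (μ i) (A i) (M.par d)) mb π) {m m' α : O}
    (hm : (m = μ i ∧ m' = mb) ∨ (m ∈ M.hl (μ i) (A i) (M.par d) ∧ m' = π m)) (hα : α ≤ A i)
    {P : Finset O} (hP : ∀ x ∈ P, x ∈ M.hl (μ i) (A i) (M.par d)) :
    Unb (M.hl m' α (P.image π)) (A i) ↔ Unb (M.hl m α P) (A i) := by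
  have hα' : ∀ x < α, x ∈ M.hl (μ i) (A i) (M.par d) := fun x hx => h.mem_X hi (hx.trans_le hα)
  have hω : ∀ x < w1, x ∈ M.hl (μ i) (A i) (M.par d) := fun x hx => h.omega_X hi hx
  have hm2 : m ≤ μ i := M.c05_m_le (h.clo_X i) hm
  have hsub : ∀ z ∈ M.hl m α P, z ∈ M.hl (μ i) (A i) (M.par d) := by
    intro z hz
    refine M.hull_sub (h.clo_X i) hm2 (fun y hy _ => ?_) hz
    rcases hy with hy | hy
    · exact hα' y hy
    · exact hP y (Finset.mem_coe.1 hy)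
  constructor
  · intro hu ξ hξ
    obtain ⟨w, hw, h1, h2⟩ := hu ξ hξ
    obtain ⟨z, hz, hzw⟩ := M.hl_map_inv h.good (h.mu_le_b i) (h.clo_X i) hω hπ hm hα' hP hw
    rw [← hzw] at h1 h2
    have h3 := (h.pi_lt_iff hi hπ (hsub z hz)).1 h2
    have h4 := h.lt_of_mem_X hi (hsub z hz) h3
    rw [h.pi_eq hi hπ h4] at h1
    exact ⟨z, hz, h1, h4⟩
  · intro hu ξ hξ
    obtain ⟨z, hz, h1, h2⟩ := hu ξ hξ
    have h3 := M.hl_map h.good (h.mu_le_b i) (h.clo_X i) hω hπ hm hα' hP hz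
    rw [h.pi_eq hi hπ h2] at h3
    exact ⟨z, h3, h1, h2⟩

end

end Pool.Agent.H82K.Ops
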