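import Pool.Agent.Lib.H82K.C12

/-!
# Chunk C13 (M): `lam (A i)` is the collapse of `μ i`

`β = A i`, `X = hl (μ i) β p`, `p = par d`, `π : X → mb`.

* `capt_X`: take `α` from `cap`. `Unb (hl (μ i) α p) β`: for `ξ < β` there is `j < i` with `ξ ≤ A j`, and `j' < i`, `η ∈ hl (μ j') α p ⊆ hl (μ i) α p ⊆ X`
  with `A j ≤ η < d`; `η < β` by `lt_of_mem_X`. `unb_iff` with `m = μ i`, `m' = mb`. `Capt mb (p.image π) α β`.
* `lam_eq`: `lam β ≤ mb` by `capt_X` (`lam_le`). Let `m' = lam β < mb` and let `Capt m' Q α β` (`csInf_mem`). Then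
  `m' = π m`, `m ∈ X`, and the elements of `Q` are `< m' < mb`; `Q = G.image π`, `G ⊆ X` finite (`exists_preimage`), all
  elements of `G` are `< m` (`lt_iff`). By `unb_iff` (`m ∈ X`, `m' = π m`; `α < β`) `Unb (hl m α G) β`. By `X_finset` there is `j < i` with `G ⊆ hl (μ j) (A j) p`;
  enlarging `j`: `m < μ j` (`m < μ i`, continuity), `α ≤ A j`, and `α ≤ μ j` (use `le`: `A j ≤ μ j'`). Then `Iio α ∪ G ⊆ hl (μ j) (A j) p`, so
  `hl m α G ⊆ hl (μ j) (A j) p` by `hull_hull` (`m ≤ μ j`). By `sig` the elements `< d` are `< A j'` for a `j' < i`; with `ξ = A j'` this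
  contradicts `Unb (hl m α G) β`.
-/

set_option autoImplicit false

open Set Order

open Pool.Agent.Lib.H45Osc (w1 limitPts)

namespace Pool.Agent.H82K.Ops

variable {M : Ops} {A μ : W → O} {d : O}

theorem Ctx.capt_X (h : M.Ctx A μ d) {i : W} (hi : M.InD A μ d i) {mb : O} {π : O → O}
    (hπ : IsCollapse (M.hl (μ i) (A i) (M.par d)) mb π) :
    ∃ α, M.Capt mb ((M.par d).image π) α (A i) := by
  obtain ⟨α, hα, hc⟩ := hi.cap
  refine ⟨α, ?_, hα, ?_, (WithTop.coe_le_coe.2 (hπ.lb_le fun x hx => M.hull_lt hx)).trans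
    (h.mu_le_b i)⟩
  · intro x hx
    obtain ⟨y, hy, rfl⟩ := Finset.mem_image.1 hx
    exact hπ.maps y (h.par_mem_X hi hy)
  · rw [h.unb_iff hi hπ (Or.inl ⟨rfl, rfl⟩) hα.le (fun x hx => h.par_mem_X hi hx)]
    intro ξ hξ
    obtain ⟨j, hj, hξj⟩ := h.hA.exists_lt_of_limitPts hi.lim hξ
    obtain ⟨j', hj', η, hη, h1, h2⟩ := hc j hj
    have h3 : η ∈ M.hl (μ i) α (M.par d) := M.hl_mono (h.hμ.mono hj').le le_rfl (Finset.Subset.refl _) hη
    have h4 : η ∈ M.hl (μ i) (A i) (M.par d) := M.hl_mono le_rfl hα.le (Finset.Subset.refl _) h3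
    exact ⟨η, h3, hξj.le.trans h1, h.lt_of_mem_X hi h4 h2⟩

theorem Ctx.lam_eq (h : M.Ctx A μ d) {i : W} (hi : M.InD A μ d i) {mb : O} {π : O → O}
    (hπ : IsCollapse (M.hl (μ i) (A i) (M.par d)) mb π) : M.lam (A i) = mb := by
  obtain ⟨α0, hα0⟩ := h.capt_X hi hπ
  apply le_antisymm (M.lam_le hα0)
  by_contra hlt
  rw [not_le] at hlt
  have hmem : M.lam (A i) ∈ {l | ∃ P α, M.Capt l P α (A i)} := csInf_mem ⟨mb, _, _, hα0⟩
  obtain ⟨Q, α, hQ⟩ := hmem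
  obtain ⟨m, hmX, hm⟩ := hπ.onto _ hlt
  obtain ⟨G, hGX, hG⟩ := hπ.exists_preimage Q fun z hz => (hQ.par z hz).trans hlt
  have hU : Unb (M.hl m α G) (A i) := by
    rw [← h.unb_iff hi hπ (Or.inr ⟨hmX, rfl⟩) hQ.lt.le hGX, hG, hm]
    exact hQ.unb
  obtain ⟨j0, hj0, hGj⟩ := h.X_finset hi G hGX
  obtain ⟨j1, hj1, hmj⟩ := h.hμ.exists_lt_of_limitPts hi.lim (M.hull_lt hmX)
  obtain ⟨j2, hj2, hαj⟩ := h.hA.exists_lt_of_limitPts hi.lim hQ.lt
  obtain ⟨j3, hj3, hAj⟩ := hi.le j2 hj2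
  set J := max (max j0 j1) (max j2 j3) with hJ
  have hJi : J < i := max_lt (max_lt hj0 hj1) (max_lt hj2 hj3)
  have h0 : j0 ≤ J := (le_max_left _ _).trans (le_max_left _ _)
  have h1 : j1 ≤ J := (le_max_right _ _).trans (le_max_left _ _)
  have h2 : j2 ≤ J := (le_max_left _ _).trans (le_max_right _ _)
  have h3 : j3 ≤ J := (le_max_right _ _).trans (le_max_right _ _)
  have hsub : ∀ x ∈ M.hl m α G, x ∈ M.hl (μ J) (A J) (M.par d) := by
    intro x hx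
    refine M.hull_hull ((hmj.le.trans (h.hμ.mono.monotone h1))) ?_ hx
    intro y hy _
    rcases hy with hy | hy
    · have hy' : y < α := hy
      refine Hull.base (Or.inl ?_) ?_
      · exact (hy'.trans hαj).trans_le (h.hA.mono.monotone h2)
      · exact ((hy'.trans hαj).trans_le hAj).trans_le (h.hμ.mono.monotone h3)
    · exact M.hl_mono (h.hμ.mono.monotone h0) (h.hA.mono.monotone h0) (Finset.Subset.refl _) (hGj y hy)
  obtain ⟨j', hj', hs⟩ := hi.sig J hJi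
  obtain ⟨η, hη, hη1, hη2⟩ := hU (A j') (h.hA.mono hj')
  exact absurd (hs η (hsub η hη) (hη2.trans (h.hA.lt i))) (not_lt.2 hη1)

end Pool.Agent.H82K.Ops
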