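import Pool.Agent.Lib.H82K.C13

/-!
# Chunk C14 (M): `par (A i)` is the image of `par d`

`β = A i`, `X = hl (μ i) β p`, `p = par d`, `π : X → mb = lam β`. By `par_eq` and `capt_X` it is enough that `Capt mb Q α β` is impossible
if `toColex Q < toColex (p.image π)`.

`Q = G.image π` with `G ⊆ X` finite (`exists_preimage`). By `toColex_lt_toColex_iff_exists_forall_lt` there is `a ∈ p.image π`, `a ∉ Q`,
such that every `b ∈ Q ∖ p.image π` is `< a`; `a = π x`, `x ∈ p`. So `x ∉ G`, and if `z ∈ G`, `z ∉ p` then `π z ∉ p.image π` (`inj`), so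
`π z < π x`, `z < x`. So every `z ∈ G` is `< x` or in `{y ∈ p | x < y}`. By `unb_iff` `Unb (hl (μ i) α G) β`. By `X_finset` there is `j < i` with
`G ⊆ hl (μ j) (A j) p`; enlarge `j` so that `α ≤ A j`, `α ≤ μ j` (use `le`). Then every element of `(Iio α ∪ G)` is in
`{y ∈ hl (μ j) (A j) p | y < x} ∪ {y ∈ p | x < y}` (`α ≤ β < d ≤ x` by `le_par`), so `hl (μ i) α G ⊆ Hull (lam d) (..)` (`hull_mono`, `μ i ≤ lam d`), and by
`tau` the elements `< d` are `< A j'`, `j' < i`: contradiction with `Unb` for `ξ = A j'`.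
-/

set_option autoImplicit false

open Set Order

open Pool.Agent.Lib.H45Osc (w1 limitPts)

namespace Pool.Agent.H82K.Ops

variable {M : Ops} {A μ : W → O} {d : O}

theorem Ctx.par_image (h : M.Ctx A μ d) {i : W} (hi : M.InD A μ d i) {mb : O} {π : O → O}
    (hπ : IsCollapse (M.hl (μ i) (A i) (M.par d)) mb π) : M.par (A i) = (M.par d).image π := by
  classical
  have hlam : M.lam (A i) = mb := h.lam_eq hi hπ
  refine M.par_eq (by rw [hlam]; exact h.capt_X hi hπ) fun Q hQ α hcapt => ?_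
  rw [hlam] at hcapt
  obtain ⟨G, hG, rfl⟩ := hπ.exists_preimage Q hcapt.par
  rw [Finset.Colex.toColex_lt_toColex_iff_exists_forall_lt] at hQ
  obtain ⟨a, ha, haQ, hb⟩ := hQ
  obtain ⟨x, hxp, rfl⟩ := Finset.mem_image.1 ha
  have hxX := h.par_mem_X hi hxp
  have hxG : x ∉ G := fun hx => haQ (Finset.mem_image_of_mem π hx)
  have hz : ∀ z ∈ G, z < x ∨ (z ∈ M.par d ∧ x < z) := by
    intro z hzG
    by_cases hzp : z ∈ M.par d
    · rcases lt_trichotomy z x with h1 | h1 | h1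
      · exact Or.inl h1
      · exact absurd (h1 ▸ hzG) hxG
      · exact Or.inr ⟨hzp, h1⟩
    · left
      have h1 : π z ∉ (M.par d).image π := by
        intro hc
        obtain ⟨y, hy, hyz⟩ := Finset.mem_image.1 hc
        have h2 := hπ.inj (h.par_mem_X hi hy) (hG z hzG) hyz
        exact hzp (h2 ▸ hy)
      exact (hπ.lt_iff (hG z hzG) hxX).1 (hb (π z) (Finset.mem_image_of_mem π hzG) h1)
  have hunb : Unb (M.hl (μ i) α G) (A i) :=
    (h.unb_iff hi hπ (Or.inl ⟨rfl, rfl⟩) hcapt.lt.le hG).1 hcapt.unb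
  obtain ⟨j, hji, hj⟩ := h.X_finset hi G hG
  obtain ⟨j1, hj1, hαj1⟩ := h.hA.exists_lt_of_limitPts hi.lim hcapt.lt
  obtain ⟨j2, hj2, hj2'⟩ := hi.le j1 hj1
  have hk : max j (max j1 j2) < i := max_lt hji (max_lt hj1 hj2)
  have hα1 : α ≤ A (max j (max j1 j2)) :=
    hαj1.le.trans (h.hA.mono.monotone ((le_max_left _ _).trans (le_max_right _ _)))
  have hα2 : α ≤ μ (max j (max j1 j2)) :=
    (hαj1.le.trans hj2').trans (h.hμ.mono.monotone ((le_max_right _ _).trans (le_max_right _ _)))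
  have hGk : ∀ z ∈ G, z ∈ M.hl (μ (max j (max j1 j2))) (A (max j (max j1 j2))) (M.par d) :=
    fun z hz => M.hl_mono (h.hμ.mono.monotone (le_max_left _ _))
      (h.hA.mono.monotone (le_max_left _ _)) (Finset.Subset.refl _) (hj z hz)
  obtain ⟨j', hj', htau⟩ := hi.tau _ hk x hxp
  obtain ⟨η, hη, h1, h2⟩ := hunb (A j') (h.hA.mono hj')
  have hH : M.Hull (M.lam d) ({y | y ∈ M.hl (μ (max j (max j1 j2))) (A (max j (max j1 j2)))
      (M.par d) ∧ y < x} ∪ {y | y ∈ M.par d ∧ x < y}) η := by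
    refine M.hull_mono (h.hμ.lt i).le ?_ hη
    rintro y (hy | hy) _
    · refine Or.inl ⟨Hull.base (Or.inl (lt_of_lt_of_le hy hα1)) (lt_of_lt_of_le hy hα2), ?_⟩
      exact (((mem_Iio.1 hy).trans hcapt.lt).trans (h.hA.lt i)).trans_le
        (M.le_par h.hA.lim h.hc x hxp)
    · rcases hz y hy with h3 | h3
      · exact Or.inl ⟨hGk y hy, h3⟩
      · exact Or.inr h3
  exact absurd (htau η hH (h2.trans (h.hA.lt i))) (not_lt.2 h1)

end Pool.Agent.H82K.Ops
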