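import Pool.Agent.Lib.H82K.C12
import Pool.Agent.Lib.H82K.C11

/-!
# Chunk C15 (M): unboundedness of the hulls at closure points

`e : W → O` is increasing (`Monotone`) with `e i ≤ a < d`; `P` is finite, `P ⊆ p ∪ d`. (For a constant sequence `e` this is about one
hull.)

* `unb_club`: suppose that `Unb (hl l (⋃ e) P) d` in the form: for each `ξ < d` there are `j` and `η ∈ hl (lam d) (e j) P` with `ξ ≤ η < d`. Choose for
  `j ∈ W` an index `F j ≥ j` and `η ∈ hl (μ (F j)) (e (F j)) P` with `A j ≤ η < d` (`hl_limit` for `lam d`, `cof` of `μ`, `hl_mono`). Let `b` be such that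
  `a < A b` and all `x ∈ P`, `x < d`, are `< A b`. By `exists_club` there is a club of `i > b` in `limitPts` closed under `F`. Let `i` be such a point with
  `InD`. Then `P ⊆ X i` (`par_mem_X`, `mem_X`), `e i ≤ a < A i`. For `ξ < A i` take `j < i` with `ξ ≤ A j`; the `η` for `j` is in `hl (μ i) (e i) P ⊆ X i`
  (`hull_hull`, `mem_X`), so `η < A i` (`lt_of_mem_X`). So `Unb (hl (μ i) (e i) P) (A i)`; `unb_iff` with `m = μ i`.
* `not_unb_club`: suppose that for each `j` the set `hl (lam d) (e j) P` is not unbounded in `d`. Choose `F j` with `η < A (F j)` for all its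
  elements `η < d` (`exists_bound`, `cof`). Closure points `i > b`: for `j < i` the set `hl (μ i) (e j) P ⊆ hl (lam d) (e j) P` is bounded by
  `A (F j) < A i`, so it is not unbounded in `A i` (take `ξ = A (F j)`), and `unb_iff`.
-/

set_option autoImplicit false

open Set Order

open Pool.Agent.Lib.H45Osc (w1 limitPts)

namespace Pool.Agent.H82K.Ops

variable {M : Ops} {A μ : W → O} {d : O}

/-- an index above `a` and above the elements of `P` which are below `d` -/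
theorem c15_bound {A : W → O} {d : O} (hA : NS A d) {a : O} (ha : a < d) (P : Finset O) :
    ∃ b, a < A b ∧ ∀ x ∈ P, x < d → x < A b := by
  classical
  induction P using Finset.induction_on with
  | empty =>
    obtain ⟨b, hb⟩ := hA.cof a ha
    exact ⟨b, hb, fun x hx => absurd hx (Finset.notMem_empty x)⟩
  | insert y s _ ih =>
    obtain ⟨b, hb1, hb2⟩ := ih
    by_cases hy : y < d
    · obtain ⟨c, hc⟩ := hA.cof y hy
      refine ⟨max b c, hb1.trans_le (hA.mono.monotone (le_max_left b c)), fun x hx hxd => ?_⟩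
      rcases Finset.mem_insert.1 hx with rfl | hx
      · exact hc.trans_le (hA.mono.monotone (le_max_right b c))
      · exact (hb2 x hx hxd).trans_le (hA.mono.monotone (le_max_left b c))
    · refine ⟨b, hb1, fun x hx hxd => ?_⟩
      rcases Finset.mem_insert.1 hx with rfl | hx
      · exact absurd hxd hy
      · exact hb2 x hx hxd

theorem c15_par (h : M.Ctx A μ d) {P : Finset O} (hP : ∀ x ∈ P, x ∈ M.par d ∨ x < d) {b i : W}
    (hb : ∀ x ∈ P, x < d → x < A b) (hbi : b < i) (hi : M.InD A μ d i) :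
    ∀ x ∈ P, x ∈ M.hl (μ i) (A i) (M.par d) := by
  intro x hx
  rcases hP x hx with h1 | h1
  · exact h.par_mem_X hi h1
  · exact h.mem_X hi ((hb x hx h1).trans (h.hA.mono hbi))

theorem c15_sub (h : M.Ctx A μ d) {i : W} (hi : M.InD A μ d i) {α : O} (hα : α ≤ A i)
    {P : Finset O} (hP : ∀ x ∈ P, x ∈ M.hl (μ i) (A i) (M.par d)) {η : O}
    (hη : η ∈ M.hl (μ i) α P) : η ∈ M.hl (μ i) (A i) (M.par d) := by
  refine M.hull_hull le_rfl (fun x hx _ => ?_) hη
  rcases hx with hx | hx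
  · exact h.mem_X hi (lt_of_lt_of_le hx hα)
  · exact hP x hx

theorem Ctx.unb_club (h : M.Ctx A μ d) {e : W → O} (he : Monotone e) {a : O} (ha : a < d)
    (hea : ∀ i, e i ≤ a) {P : Finset O} (hP : ∀ x ∈ P, x ∈ M.par d ∨ x < d)
    (hu : ∀ ξ < d, ∃ j, ∃ η ∈ M.hl (M.lam d) (e j) P, ξ ≤ η ∧ η < d) :
    ∃ D : Set W, IsClub D ∧ ∀ i ∈ D, M.InD A μ d i → (∀ x ∈ P, x ∈ M.hl (μ i) (A i) (M.par d)) ∧
      ∀ mb π, IsCollapse (M.hl (μ i) (A i) (M.par d)) mb π →
        Unb (M.hl mb (e i) (P.image π)) (A i) := by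
  have hlim : Lim (M.lam d) := M.lim_lam h.good h.hA.lim h.hc
  have hF : ∀ j : W, ∃ k : W, ∃ η ∈ M.hl (μ k) (e k) P, A j ≤ η ∧ η < d := by
    intro j
    obtain ⟨j', η, hη, h1, h2⟩ := hu (A j) (h.hA.lt j)
    obtain ⟨m, hm, hη'⟩ := M.hl_limit hlim hη
    obtain ⟨k, hk⟩ := h.hμ.cof m hm
    exact ⟨max j' k, η, M.hl_mono (hk.le.trans (h.hμ.mono.monotone (le_max_right j' k)))
      (he (le_max_left j' k)) (Finset.Subset.refl P) hη', h1, h2⟩
  choose F G hG1 hG2 hG3 using hF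
  obtain ⟨b, hb1, hb2⟩ := c15_bound h.hA ha P
  obtain ⟨D, hD, hDF⟩ := exists_club (fun _ : Fin 1 => F) b
  refine ⟨D, hD, fun i hi hI => ?_⟩
  obtain ⟨hi1, hi2, hi3⟩ := hDF i hi
  have hPX := c15_par h hP hb2 hi2 hI
  have hei : e i ≤ A i := (hea i).trans (hb1.trans (h.hA.mono hi2)).le
  refine ⟨hPX, fun mb π hπ => ?_⟩
  rw [h.unb_iff hI hπ (Or.inl ⟨rfl, rfl⟩) hei hPX]
  intro ξ hξ
  obtain ⟨j, hj, hξj⟩ := h.hA.exists_lt_of_limitPts hi1 hξ
  have hFj : F j < i := hi3 0 j hj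
  have hη : G j ∈ M.hl (μ i) (e i) P :=
    M.hl_mono (h.hμ.mono.monotone hFj.le) (he hFj.le) (Finset.Subset.refl P) (hG1 j)
  exact ⟨G j, hη, hξj.le.trans (hG2 j), h.lt_of_mem_X hI (c15_sub h hI hei hPX hη) (hG3 j)⟩

theorem Ctx.not_unb_club (h : M.Ctx A μ d) {e : W → O} {a : O} (ha : a < d)
    (hea : ∀ i, e i ≤ a) {P : Finset O} (hP : ∀ x ∈ P, x ∈ M.par d ∨ x < d)
    (hu : ∀ j, ¬ Unb (M.hl (M.lam d) (e j) P) d) :
    ∃ D : Set W, IsClub D ∧ ∀ i ∈ D, M.InD A μ d i →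
      ∀ mb π, IsCollapse (M.hl (μ i) (A i) (M.par d)) mb π → ∀ j < i,
        ¬ Unb (M.hl mb (e j) (P.image π)) (A i) := by
  have hF : ∀ j : W, ∃ k : W, ∀ η ∈ M.hl (M.lam d) (e j) P, η < d → η < A k := by
    intro j
    obtain ⟨ξ, hξ, hb⟩ := exists_bound (hu j)
    obtain ⟨k, hk⟩ := h.hA.cof ξ hξ
    exact ⟨k, fun η h1 h2 => (hb η h1 h2).trans hk⟩
  choose F hFb using hF
  obtain ⟨b, hb1, hb2⟩ := c15_bound h.hA ha P
  obtain ⟨D, hD, hDF⟩ := exists_club (fun _ : Fin 1 => F) b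
  refine ⟨D, hD, fun i hi hI mb π hπ j hj => ?_⟩
  obtain ⟨_, hi2, hi3⟩ := hDF i hi
  have hPX := c15_par h hP hb2 hi2 hI
  have hej : e j ≤ A i := (hea j).trans (hb1.trans (h.hA.mono hi2)).le
  rw [h.unb_iff hI hπ (Or.inl ⟨rfl, rfl⟩) hej hPX]
  intro hU
  obtain ⟨η, hη, h1, h2⟩ := hU (A (F j)) (h.hA.mono (hi3 0 j hj))
  have hη' : η ∈ M.hl (M.lam d) (e j) P :=
    M.hl_mono (h.hμ.lt i).le le_rfl (Finset.Subset.refl P) hη
  exact absurd (hFb j η hη' (h2.trans (h.hA.lt i))) (not_lt.2 h1)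

end Pool.Agent.H82K.Ops
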