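import Pool.Agent.Lib.H82K.C15

/-!
# Chunk C16 (M): the sequence when the process stops

`l = lam d`, `p = par d ⊆ P`, `a = a0 l P d` is not a successor. Take `α` from `exists_capt`; `Unb (hl l α P) d` (`hl_mono`). `ns_a0` gives `e` with
`NS e a`, `a ≤ α < d`. `unb_club` for `e` (`hu`: `unb_a0`, `hl_limit'` with `Lim a` from `NS.lim`, and `cof` of `e`) gives a club `D1`;
`not_unb_club` for `e` (`not_unb` since `e j < a`) gives `D2`. On `D1 ∩ D2` (`IsClub.inter isOmega1_W.cof_ne`): by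
`InD.lim` `i ∈ limitPts`. `a0_eq` with the value `e i`: for `e' < e i` there is `j < i` with `e' ≤ e j` (`cont`), and `Unb (hl mb e' ..)` would give
`Unb (hl mb (e j) ..)` (`hl_mono`). `e i ≠ g + 1` since `Lim (e i)` (`NS.lim_apply`).
-/

set_option autoImplicit false

open Set Order

open Pool.Agent.Lib.H45Osc (w1 limitPts isOmega1_W)

namespace Pool.Agent.H82K.Ops

variable {M : Ops} {A μ : W → O} {d : O}

theorem Ctx.red_stop (h : M.Ctx A μ d) {P : Finset O} (hp : M.par d ⊆ P)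
    (hP : ∀ x ∈ P, x ∈ M.par d ∨ x < d) (hs : ∀ g, M.a0 (M.lam d) P d ≠ g + 1) :
    M.a0 (M.lam d) P d < d ∧ ∃ e : W → O, NS e (M.a0 (M.lam d) P d) ∧
      ∃ D : Set W, IsClub D ∧ ∀ i ∈ D, M.InD A μ d i →
        ∀ mb π, IsCollapse (M.hl (μ i) (A i) (M.par d)) mb π →
          M.a0 mb (P.image π) (A i) = e i ∧ ∀ g, e i ≠ g + 1 := by
  obtain ⟨α, hα⟩ := M.exists_capt h.hc
  have hU : Unb (M.hl (M.lam d) α P) d := by
    intro ξ hξ
    obtain ⟨η, hη, h1, h2⟩ := hα.unb ξ hξ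
    exact ⟨η, M.hl_mono le_rfl le_rfl hp hη, h1, h2⟩
  have had : M.a0 (M.lam d) P d < d := lt_of_le_of_lt (M.a0_le hU) hα.lt
  obtain ⟨e, he⟩ := M.ns_a0 h.hA hα.lt hU hs
  have hu : ∀ ξ < d, ∃ j, ∃ η ∈ M.hl (M.lam d) (e j) P, ξ ≤ η ∧ η < d := by
    intro ξ hξ
    obtain ⟨η, hη, h1, h2⟩ := (M.unb_a0 hU) ξ hξ
    obtain ⟨e', he', hη'⟩ := M.hl_limit' he.lim hη
    obtain ⟨j, hj⟩ := he.cof e' he'
    exact ⟨j, η, M.hl_mono le_rfl hj.le (Finset.Subset.refl _) hη', h1, h2⟩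
  obtain ⟨D1, hD1, hD1'⟩ := h.unb_club he.mono.monotone had (fun i => (he.lt i).le) hP hu
  obtain ⟨D2, hD2, hD2'⟩ := h.not_unb_club had (fun i => (he.lt i).le) hP
    (fun j => M.not_unb (he.lt j))
  refine ⟨had, e, he, D1 ∩ D2, hD1.inter isOmega1_W.cof_ne hD2, ?_⟩
  intro i hi hI mb π hπ
  refine ⟨M.a0_eq ((hD1' i hi.1 hI).2 mb π hπ) ?_, ?_⟩
  · intro e' he' hU'
    obtain ⟨j, hj, hej⟩ := he.exists_lt_of_limitPts hI.lim he'
    refine hD2' i hi.2 hI mb π hπ j hj ?_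
    intro ξ hξ
    obtain ⟨η, hη, h1, h2⟩ := hU' ξ hξ
    exact ⟨η, M.hl_mono le_rfl hej.le (Finset.Subset.refl _) hη, h1, h2⟩
  · intro g hg
    have h1 := (he.lim_apply hI.lim).2 g (by rw [hg]; exact Order.lt_succ g)
    rw [hg] at h1
    exact lt_irrefl _ h1

end Pool.Agent.H82K.Ops
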