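import Pool.Agent.Lib.H82K.C16

/-!
# Chunk C17 (M): induction along the process

Induction on `hr : Red (lam d) d P a`. `stop`: `Ctx.red_stop` and `Red.stop`. `step`: `a0 l P d = g + 1`. Take `α` from `exists_capt`,
`Unb (hl l α P) d`, so `g + 1 ≤ α < d` (`a0_le`). The induction hypothesis for `insert g P` gives `e`, `D1`. `unb_club` with the constant
sequence `g + 1` (`hu` from `unb_a0`) gives `D2`, `not_unb_club` with the constant sequence `g` (`not_unb`) gives `D3`; let `b` be with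
`g < A b` and intersect with `Ioi b` (`IsOmega1.isClub_Ioi`). For `i` in the intersection, `InD`: `Unb (hl mb (g+1) (P.image π)) (A i)` and
`¬ Unb (hl mb g (P.image π)) (A i)` (take any `j < i`), so `a0 mb (P.image π) (A i) = g + 1` by `a0_eq` (`e' < g + 1` means `e' ≤ g`, `hl_mono`).
`(insert g P).image π = insert (π g) (P.image π)` (`Finset.image_insert`) and `π g = g` (`pi_eq`, `g < A i`). `Red.step`.
-/

set_option autoImplicit false

open Set Order

open Pool.Agent.Lib.H45Osc (w1 limitPts isOmega1_W)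

namespace Pool.Agent.H82K.Ops

variable {M : Ops} {A μ : W → O} {d : O}

theorem Ctx.red (h : M.Ctx A μ d) {P : Finset O} {a : O} (hr : M.Red (M.lam d) d P a)
    (hp : M.par d ⊆ P) (hP : ∀ x ∈ P, x ∈ M.par d ∨ x < d) :
    a < d ∧ ∃ e : W → O, NS e a ∧ ∃ D : Set W, IsClub D ∧ ∀ i ∈ D, M.InD A μ d i →
      ∀ mb π, IsCollapse (M.hl (μ i) (A i) (M.par d)) mb π →
        M.Red mb (A i) (P.image π) (e i) := by
  induction hr with
  | @stop P a h0 h' =>
    subst h0
    obtain ⟨h1, e, he, D, hD, H⟩ := h.red_stop hp hP h'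
    refine ⟨h1, e, he, D, hD, fun i hi hI mb π hπ => ?_⟩
    obtain ⟨h2, h3⟩ := H i hi hI mb π hπ
    exact Red.stop h2 h3
  | @step P g a h0 h' ih =>
    obtain ⟨α, hα⟩ := M.exists_capt h.hc
    have hU : Unb (M.hl (M.lam d) α P) d := by
      intro ξ hξ
      obtain ⟨η, h1, h2, h3⟩ := hα.unb ξ hξ
      exact ⟨η, M.hl_mono le_rfl le_rfl hp h1, h2, h3⟩
    have hle : g + 1 ≤ α := by
      rw [← h0]
      exact M.a0_le hU
    have hgd1 : g + 1 < d := lt_of_le_of_lt hle hα.lt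
    have hgd : g < d := (Order.lt_add_one_iff.2 le_rfl).trans hgd1
    obtain ⟨had, e, he, D1, hD1, H1⟩ := ih (hp.trans (Finset.subset_insert _ _)) (by
      intro x hx
      rcases Finset.mem_insert.1 hx with hx | hx
      · exact Or.inr (hx ▸ hgd)
      · exact hP x hx)
    obtain ⟨j0⟩ := isOmega1_W.nonempty
    have hU1 : Unb (M.hl (M.lam d) (g + 1) P) d := by
      rw [← h0]
      exact M.unb_a0 hU
    obtain ⟨D2, hD2, H2⟩ := h.unb_club (e := fun _ => g + 1) monotone_const (a := g + 1) hgd1 (fun _ => le_rfl) hP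
      (fun ξ hξ => ⟨j0, hU1 ξ hξ⟩)
    obtain ⟨D3, hD3, H3⟩ := h.not_unb_club (e := fun _ => g) (a := g) hgd (fun _ => le_rfl) hP
      (fun _ => M.not_unb (by rw [h0]; exact Order.lt_add_one_iff.2 le_rfl))
    obtain ⟨b, hb⟩ := h.hA.cof g hgd
    refine ⟨had, e, he, D1 ∩ (D2 ∩ (D3 ∩ Ioi b)), hD1.inter isOmega1_W.cof_ne (hD2.inter isOmega1_W.cof_ne
      (hD3.inter isOmega1_W.cof_ne (isOmega1_W.isClub_Ioi b))), ?_⟩
    rintro i ⟨hi1, hi2, hi3, hi4⟩ hI mb π hπ
    have hbi : b < i := hi4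
    have hgA : g < A i := hb.trans (h.hA.mono hbi)
    have h1 := (H2 i hi2 hI).2 mb π hπ
    have h2 := H3 i hi3 hI mb π hπ b hbi
    have h3 : M.a0 mb (P.image π) (A i) = g + 1 := M.a0_eq h1 fun e' he' hU' => h2 (by
      intro ξ hξ
      obtain ⟨η, k1, k2, k3⟩ := hU' ξ hξ
      exact ⟨η, M.hl_mono le_rfl (Order.lt_add_one_iff.1 he') (Finset.Subset.refl _) k1, k2, k3⟩)
    have h4 := H1 i hi1 hI mb π hπ
    rw [Finset.image_insert, h.pi_eq hI hπ hgA] at h4
    exact Red.step h3 h4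

end Pool.Agent.H82K.Ops
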