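import Pool.Agent.Lib.H82K.C10

/-!
# Chunk C18 (S/M): the process `Red` ends and has one value

* `exists_red`: strong induction on `a0 l P d`. If it is not a successor: `Red.stop`. If `a0 l P d = g + 1`: `Unb (hl l (g + 1) P) d`
  (`unb_a0`); `Iio (g + 1) ∪ P ⊆ Iio g ∪ insert g P`, so `Unb (hl l g (insert g P)) d` and `a0 l (insert g P) d ≤ g < g + 1`; `Red.step`.
* `red_unique`: induction on the first, cases on the second.
* `ainf_eq`: `Classical.epsilon_spec` and `red_unique`.
-/

set_option autoImplicit false

open Set Order

open Pool.Agent.Lib.H45Osc (w1 limitPts)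

namespace Pool.Agent.H82K.Ops

variable (M : Ops)

theorem exists_red {l α d : O} {P : Finset O} (h : Unb (M.hl l α P) d) : ∃ a, M.Red l d P a := by
  have key : ∀ b : O, ∀ Q : Finset O, M.a0 l Q d = b → (∃ e, Unb (M.hl l e Q) d) →
      ∃ a, M.Red l d Q a := by
    intro b
    induction b using WellFoundedLT.induction with
    | _ b ih =>
      intro Q hQ hex
      obtain ⟨e, he⟩ := hex
      by_cases hs : ∃ g, M.a0 l Q d = g + 1
      · obtain ⟨g, hg⟩ := hs
        have h1 : Unb (M.hl l (g + 1) Q) d := by
          have h2 := M.unb_a0 he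
          rwa [hg] at h2
        have h3 : Unb (M.hl l g (insert g Q)) d := by
          intro ξ hξ
          obtain ⟨η, hη, h4, h5⟩ := h1 ξ hξ
          refine ⟨η, ?_, h4, h5⟩
          have hsub : (Iio (g + 1) ∪ ↑Q : Set O) ⊆ Iio g ∪ ↑(insert g Q) := by
            rintro x (hx | hx)
            · have hx' : x < g + 1 := hx
              rcases (Order.lt_add_one_iff.1 hx').lt_or_eq with h6 | h6
              · exact Or.inl h6
              · refine Or.inr ?_
                rw [h6, Finset.mem_coe]
                exact Finset.mem_insert_self _ _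
            · refine Or.inr ?_
              rw [Finset.mem_coe] at hx ⊢
              exact Finset.mem_insert_of_mem hx
          have hη' : M.Hull l (Iio (g + 1) ∪ ↑Q) η := hη
          show M.Hull l (Iio g ∪ ↑(insert g Q)) η
          clear hη h4 h5
          induction hη' with
          | base hx hl => exact Hull.base (hsub hx) hl
          | un k _ hl ihx => exact Hull.un k ihx hl
          | bin _ _ hl ihx ihy => exact Hull.bin ihx ihy hl
        have h7 : M.a0 l (insert g Q) d < b := by
          refine lt_of_le_of_lt (M.a0_le h3) ?_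
          rw [← hQ, hg]
          exact Order.lt_add_one_iff.2 le_rfl
        obtain ⟨a, ha⟩ := ih _ h7 (insert g Q) rfl ⟨g, h3⟩
        exact ⟨a, Red.step hg ha⟩
      · exact ⟨M.a0 l Q d, Red.stop rfl fun g hg => hs ⟨g, hg⟩⟩
  exact key _ P rfl ⟨α, h⟩

theorem red_unique {l d a a' : O} {P : Finset O} (h : M.Red l d P a) (h' : M.Red l d P a') :
    a = a' := by
  induction h with
  | stop h1 h2 =>
    cases h' with
    | stop h3 h4 => exact h1.symm.trans h3
    | step h3 h4 => exact absurd (h1.symm.trans h3) (h2 _)
  | step h1 h2 ih =>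
    cases h' with
    | stop h3 h4 => exact absurd (h3.symm.trans h1) (h4 _)
    | step h3 h4 =>
      have h5 := h1.symm.trans h3
      rw [Order.add_one_inj] at h5
      subst h5
      exact ih h4

theorem ainf_eq {d a : O} (h : M.Red (M.lam d) d (M.par d) a) : M.ainf d = a := by
  have h1 : M.Red (M.lam d) d (M.par d) (M.ainf d) :=
    Classical.epsilon_spec (p := fun a => M.Red (M.lam d) d (M.par d) a) ⟨a, h⟩
  exact M.red_unique h1 h

end Pool.Agent.H82K.Ops
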