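import Pool.Agent.Lib.H82K.C14
import Pool.Agent.Lib.H82K.C17
import Pool.Agent.Lib.H82K.C18

/-!
# Chunk C19 (S/M): the descent

`Lim d` by `NS.lim`. `ns_lam` gives `μ`, so `Ctx A μ d`. `exists_inD` gives a club `D0` of closure points. `exists_capt` and `exists_red` give
`a` with `Red (lam d) d (par d) a`; `Ctx.red` (`P = par d`) gives `a < d`, `e`, `D1`. Let `b` be with `a < A b`. For `i ∈ D0 ∩ D1 ∩ Ioi b`:
`exists_collapse` for `hl (μ i) (A i) (par d)` (`hull_lt`) gives `mb`, `π`; `lam (A i) = mb` (`lam_eq`), `par (A i) = (par d).image π`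
(`par_image`), so `Red (lam (A i)) (A i) (par (A i)) (e i)` and `ainf (A i) = e i` (`ainf_eq`); `e i < a < A b < A i`; `w1 < A i` by `InD.big`.
-/

set_option autoImplicit false

open Set Order

open Pool.Agent.Lib.H45Osc (w1 limitPts isOmega1_W)

namespace Pool.Agent.H82K.Ops

variable (M : Ops)

theorem descent (hM : M.Good) {A : W → O} {d : O} (hd : w1 < d) (hA : NS A d) (hc : M.Captured d) :
    ∃ a < d, ∃ e : W → O, NS e a ∧ ∃ D : Set W, IsClub D ∧
      ∀ i ∈ D, w1 < A i ∧ M.ainf (A i) = e i ∧ e i < A i := by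
  obtain ⟨μ, hμ⟩ := ns_lam M hM hA hc
  have hctx : M.Ctx A μ d := ⟨hM, hd, hA, hc, hμ⟩
  obtain ⟨D0, hD0, hin⟩ := exists_inD M hctx
  obtain ⟨α, hα⟩ := exists_capt M hc
  obtain ⟨a, ha⟩ := exists_red M hα.unb
  obtain ⟨had, e, he, D1, hD1, hred⟩ := hctx.red ha (fun x hx => hx) (fun x hx => Or.inl hx)
  obtain ⟨b, hb⟩ := hA.cof a had
  refine ⟨a, had, e, he, (D0 ∩ D1) ∩ Ioi b, ?_, ?_⟩
  · exact IsClub.inter isOmega1_W.cof_ne (IsClub.inter isOmega1_W.cof_ne hD0 hD1)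
      (isOmega1_W.isClub_Ioi b)
  · rintro i ⟨⟨hi0, hi1⟩, hib⟩
    have hI := hin i hi0
    obtain ⟨mb, π, hπ⟩ := exists_collapse (X := M.hl (μ i) (A i) (M.par d)) (l := μ i)
      (fun x hx => hull_lt M hx)
    have h1 := hred i hi1 hI mb π hπ
    rw [← hctx.par_image hI hπ, ← hctx.lam_eq hI hπ] at h1
    exact ⟨hI.big, ainf_eq M h1, (he.lt i).trans (hb.trans (hA.mono hib))⟩

end Pool.Agent.H82K.Ops
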