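import Pool.Agent.Lib.H82K.C09

/-!
# Chunk C20 (M, only H45Osc/Stat, Copy): enumeration of a club

`exists_enum`: by well-founded recursion (`W` is well-ordered) let `N i` be the least element of `D` which is above all `N j`, `j < i`
(it exists: `Iio i` is countable, `isOmega1_W.exists_gt` gives an upper bound `b` of the `N j`, and `D` is cofinal). It is strictly
increasing. For `i ∈ limitPts` let `s` be the least upper bound of the `N j`, `j < i` (`IsOmega1.exists_isLUB`); `s ∈ D` since `D` is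
closed (`IsClub.isLUB_mem`), and `s` is above all `N j` (`N j < N j' ≤ s` for `j < j' < i`), so `N i ≤ s`; thus `x < N i` gives `x < s` and
`x < N j` for some `j < i` (`lt_isLUB_iff`).

`ns_comp`: replace `D` by `D ∩ limitPts` (`isClub_limitPts`, `IsClub.inter isOmega1_W.cof_ne`), `N` the enumeration. `NS (e ∘ N) a`: `cof`: `x < e k`, and
`k ≤ N k` (`StrictMono.le_apply`), so `x < e (N k)`. `cont`: `N i ∈ limitPts`, so `x ≤ e k`, `k < N i`, then `k ≤ N j`, `j < i`.
-/

set_option autoImplicit false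

open Set Order

open Pool.Agent.Lib.H45Osc (w1 limitPts isOmega1_W isClub_limitPts)

namespace Pool.Agent.H82K

theorem exists_enum {D : Set W} (hD : IsClub D) : ∃ N : W → W, StrictMono N ∧ (∀ i, N i ∈ D) ∧
    ∀ i ∈ limitPts, ∀ x < N i, ∃ j < i, x ≤ N j := by
  classical
  have hne : Nonempty W := isOmega1_W.nonempty
  have hQ : ∀ (i : W) (f : W → W), ∃ x, x ∈ D ∧ (∀ j < i, f j < x) ∧ ∀ y ∈ D, (∀ j < i, f j < y) → x ≤ y := by
    intro i f
    obtain ⟨b, hb⟩ := isOmega1_W.exists_gt ((isOmega1_W.countable_Iio i).image f)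
    obtain ⟨c, hc, hbc⟩ := hD.isCofinal b
    obtain ⟨x, hx, hmin⟩ := WellFounded.has_min (wellFounded_lt (α := W)) {x | x ∈ D ∧ ∀ j < i, f j < x}
      ⟨c, hc, fun j hj => (hb _ ⟨j, hj, rfl⟩).trans_le hbc⟩
    exact ⟨x, hx.1, hx.2, fun y hy hy' => not_lt.1 (hmin y ⟨hy, hy'⟩)⟩
  choose g hg using hQ
  obtain ⟨N, hN⟩ : ∃ N : W → W, ∀ i, N i = g i (fun j => if j < i then N j else Classical.choice hne) := by
    refine ⟨(wellFounded_lt (α := W)).fix fun i f =>
      g i (fun j => if h : j < i then f j h else Classical.choice hne), fun i => ?_⟩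
    rw [WellFounded.fix_eq]
    congr 1
  have hspec : ∀ i, N i ∈ D ∧ (∀ j < i, N j < N i) ∧ ∀ y ∈ D, (∀ j < i, N j < y) → N i ≤ y := by
    intro i
    have h := hg i (fun j => if j < i then N j else Classical.choice hne)
    rw [← hN i] at h
    refine ⟨h.1, fun j hj => ?_, fun y hy hy' => h.2.2 y hy fun j hj => ?_⟩
    · have h1 := h.2.1 j hj
      rwa [if_pos hj] at h1
    · rw [if_pos hj]
      exact hy' j hj
  have hmono : StrictMono N := fun i j hij => (hspec j).2.1 i hij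
  refine ⟨N, hmono, fun i => (hspec i).1, ?_⟩
  intro i hi x hx
  by_contra hcon
  push Not at hcon
  obtain ⟨v, hv⟩ := hi.1
  obtain ⟨s, hs⟩ := Pool.Agent.Lib.H45Osc.IsOmega1.exists_isLUB (s := N '' Set.Iio i) (b := x) (by
    rintro _ ⟨j, hj, rfl⟩
    exact (hcon j hj).le)
  have hsD : s ∈ D := hD.isLUB_mem (t := N '' Set.Iio i) (by
    rintro _ ⟨j, _, rfl⟩
    exact (hspec j).1) ⟨_, v, hv, rfl⟩ hs
  have h1 : N i ≤ s := (hspec i).2.2 s hsD fun j hj => by
    obtain ⟨j', hj1, hj2⟩ := hi.2 j hj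
    exact (hmono hj1).trans_le (hs.1 ⟨j', hj2, rfl⟩)
  have h2 : s ≤ x := hs.2 (by
    rintro _ ⟨j, hj, rfl⟩
    exact (hcon j hj).le)
  exact absurd (h1.trans h2) (not_le.2 hx)

/-- a normal sequence restricted to a club is a normal sequence -/
theorem NS.ns_comp {e : W → O} {a : O} (h : NS e a) {D : Set W} (hD : IsClub D) :
    ∃ N : W → W, (∀ i, N i ∈ D) ∧ NS (e ∘ N) a := by
  obtain ⟨N, hN, hND, hc⟩ := exists_enum (hD.inter isOmega1_W.cof_ne isClub_limitPts)
  refine ⟨N, fun i => (hND i).1, h.mono.comp hN, fun i => h.lt _, ?_, ?_⟩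
  · intro x hx
    obtain ⟨k, hk⟩ := h.cof x hx
    exact ⟨k, hk.trans_le (h.mono.monotone hN.le_apply)⟩
  · intro i hi x hx
    obtain ⟨k, hk, hxk⟩ := h.cont (N i) (hND i).2 x hx
    obtain ⟨j, hj, hkj⟩ := hc i hi k hk
    exact ⟨j, hj, hxk.trans (h.mono.monotone hkj)⟩

end Pool.Agent.H82K
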