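import Pool.Agent.Lib.H82K.Defs

/-!
# Chunk C21 (S): the function `h`

`hfun β = β` for `β < ω₁`, `hfun β = hfun (ainf β)` if `ω₁ ≤ β` and `ainf β < β`, and `0` otherwise. By well-founded recursion
(`WellFounded.fix_eq` for the equation).
-/

set_option autoImplicit false

open Set Order

open Pool.Agent.Lib.H45Osc (w1 limitPts)

namespace Pool.Agent.H82K.Ops

variable (M : Ops)

/-- the map from the ordinals to `ω₁` -/
noncomputable def hfun : O → O :=
  (wellFounded_lt (α := O)).fix fun β ih =>
    open Classical in
    if β < w1 then β else if h : M.ainf β < β then ih (M.ainf β) h else 0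

private theorem c21_eq (β : O) : M.hfun β =
    open Classical in
    if β < w1 then β else if M.ainf β < β then M.hfun (M.ainf β) else 0 := by
  unfold hfun
  rw [WellFounded.fix_eq]
  split_ifs <;> rfl

theorem hfun_small {β : O} (h : β < w1) : M.hfun β = β := by
  rw [c21_eq, if_pos h]

theorem hfun_big {β : O} (h : w1 ≤ β) (h' : M.ainf β < β) : M.hfun β = M.hfun (M.ainf β) := by
  rw [c21_eq, if_neg (not_lt.mpr h), if_pos h']

private theorem c21_pos : (0 : O) < w1 := by
  rw [w1, Cardinal.lt_ord]
  simp

theorem hfun_lt (β : O) : M.hfun β < w1 := by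
  induction β using WellFoundedLT.induction with
  | ind β ih =>
    rw [c21_eq]
    split_ifs with h1 h2
    · exact h1
    · exact ih _ h2
    · exact c21_pos

end Pool.Agent.H82K.Ops
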