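import Pool.Agent.Lib.H82K.C19
import Pool.Agent.Lib.H82K.C20
import Pool.Agent.Lib.H82K.C21

/-!
# Chunk C22 (S/M): `h` is unbounded on normal sequences

Strong induction on `d` (for all `A`). If `d ≤ w1`: with `i = ⟨ν, _⟩`, `ν = i.1 ≤ A i < d ≤ w1` (`NS.le_apply`) and `hfun (A i) = A i`. If `w1 < d`:
`descent` gives `a < d`, `e`, `D`; `NS.ns_comp` gives `N` with values in `D` and `NS (e ∘ N) a`; by induction there is `j` with
`ν ≤ hfun (e (N j))`; `hfun (A (N j)) = hfun (ainf (A (N j))) = hfun (e (N j))` by `hfun_big`.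
-/

set_option autoImplicit false

open Set Order

open Pool.Agent.Lib.H45Osc (w1 limitPts)

namespace Pool.Agent.H82K.Ops

variable (M : Ops)

theorem hfun_unbounded (hM : M.Good) {k : O}
    (hc : ∀ d ≤ k, w1 < d → (∃ A : W → O, NS A d) → M.Captured d) :
    ∀ d ≤ k, ∀ A : W → O, NS A d → ∀ ν < w1, ∃ i, ν ≤ M.hfun (A i) := by
  intro d
  induction d using WellFoundedLT.induction with
  | ind d ih =>
    intro hdk A hA ν hν
    rcases le_or_gt d w1 with hd | hd
    · refine ⟨⟨ν, hν⟩, ?_⟩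
      rw [M.hfun_small (lt_of_lt_of_le (hA.lt _) hd)]
      exact hA.le_apply ⟨ν, hν⟩
    · obtain ⟨a, had, e, he, D, hD, hall⟩ := M.descent hM hd hA (hc d hdk hd ⟨A, hA⟩)
      obtain ⟨N, hN, hNS⟩ := he.ns_comp hD
      obtain ⟨j, hj⟩ := ih a had (had.le.trans hdk) (e ∘ N) hNS ν hν
      obtain ⟨h1, h2, h3⟩ := hall (N j) (hN j)
      refine ⟨N j, ?_⟩
      rw [M.hfun_big h1.le (by rw [h2]; exact h3), h2]
      exact hj

end Pool.Agent.H82K.Ops
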