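import Pool.Agent.Lib.H82K.C09

/-!
# Chunk C23 (M): closed copies of `ω₁` and the posed statement

`ns_enum`: `d = sSup (range hA.enum)` (bounded by `k`; `Set.Iio w1` is small) or `⨆ i, hA.enum i`; `mono`: `IsClosedCopy.enum_strictMono`; `lt`: `i < j` for some `j`
(`isOmega1_W.exists_lt`); `cont`: `IsClosedCopy.cont`.

`posed_of_h`: the proof of `Pool/Agent/Results/MP_dbd8eb_lc/OmegaColours.lean` (on main), with the hypothesis that `h` is unbounded
on every closed copy contained in `κ.ord`: in `hstat` use `hκ` (a closed copy `B ⊆ A ⊆ Iio κ.ord`).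
-/

set_option autoImplicit false

open Set Order

open Pool.Agent.Lib.H45Osc (w1 limitPts IsClosedCopy)

namespace Pool.Agent.H82K

theorem ns_enum {A : Set O} (hA : IsClosedCopy A) {k : O} (hk : A ⊆ Iio k) :
    ∃ d ≤ k, NS hA.enum d := by
  have hle : ∀ x ∈ Set.range hA.enum, x ≤ k := by
    rintro _ ⟨i, rfl⟩
    exact le_of_lt (hk (hA.enum_mem i))
  have hbdd : BddAbove (Set.range hA.enum) := ⟨k, hle⟩
  have hne : (Set.range hA.enum).Nonempty := by
    obtain ⟨i⟩ := Pool.Agent.Lib.H45Osc.isOmega1_W.nonempty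
    exact ⟨_, i, rfl⟩
  refine ⟨sSup (Set.range hA.enum), csSup_le hne hle, hA.enum_strictMono, ?_, ?_, ?_⟩
  · intro i
    obtain ⟨j, hj⟩ := Pool.Agent.Lib.H45Osc.isOmega1_W.exists_lt i
    exact (hA.enum_strictMono hj).trans_le (le_csSup hbdd ⟨j, rfl⟩)
  · intro x hx
    obtain ⟨_, ⟨i, rfl⟩, hi⟩ := exists_lt_of_lt_csSup hne hx
    exact ⟨i, hi⟩
  · intro i hi x hx
    exact hA.cont hi hx

theorem c23_countable_Iio_ord.{u} {η : Ordinal.{u}} (h : η < (Cardinal.aleph.{u} 1).ord) :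
    (Set.Iio η).Countable := by
  have h1 : η.card < Cardinal.aleph.{u} 1 := Cardinal.lt_ord.1 h
  have h2 : η.card ≤ Cardinal.aleph0.{u} := by
    have h3 : (Cardinal.aleph.{u} 1) = Order.succ Cardinal.aleph0.{u} := by
      rw [← Cardinal.aleph_zero, Cardinal.succ_aleph, zero_add]
    rw [h3] at h1
    exact Order.lt_succ_iff.1 h1
  rw [← Cardinal.le_aleph0_iff_set_countable, Cardinal.mk_Iio_ordinal]
  rw [← Cardinal.lift_aleph0.{u + 1, u}]
  exact Cardinal.lift_le.2 h2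

theorem c23_not_countable.{u} : ¬ (Set.Iio (Cardinal.aleph.{u} 1).ord).Countable := by
  rw [← Cardinal.le_aleph0_iff_set_countable, Cardinal.mk_Iio_ordinal, Cardinal.card_ord,
    ← Cardinal.lift_aleph0.{u + 1, u}, Cardinal.lift_le]
  exact not_le.2 (by rw [← Cardinal.aleph_zero]; exact Cardinal.aleph_lt_aleph.2 zero_lt_one)

theorem c23_iso.{u} {A : Set Ordinal.{0}}
    (h : Nonempty (A ≃o Set.Iio (Cardinal.aleph.{u} 1).ord)) :
    Nonempty (A ≃o Set.Iio w1) := by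
  obtain ⟨e⟩ := h
  apply Pool.Agent.Lib.H45Osc.orderIso_of_countable
  · intro b hb
    have h1 := c23_countable_Iio_ord (e ⟨b, hb⟩).2
    have h2 : Function.Injective (fun x : A => ((e x : Set.Iio (Cardinal.aleph.{u} 1).ord) :
        Ordinal.{u})) := by
      intro x y hxy
      exact e.injective (Subtype.ext hxy)
    have h3 := (h1.preimage h2).image (Subtype.val : A → Ordinal.{0})
    refine h3.mono ?_
    rintro x ⟨hxA, hxb⟩
    refine ⟨⟨x, hxA⟩, ?_, rfl⟩
    show ((e ⟨x, hxA⟩ : Set.Iio (Cardinal.aleph.{u} 1).ord) : Ordinal.{u}) < _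
    exact e.strictMono (show (⟨x, hxA⟩ : A) < ⟨b, hb⟩ from hxb)
  · intro hc
    apply c23_not_countable.{u}
    have h1 : (Set.univ : Set A).Countable := by
      have h5 := hc.preimage (f := (Subtype.val : A → Ordinal.{0})) Subtype.val_injective
      refine h5.mono ?_
      intro x _
      exact x.2
    have h2 := h1.image (fun x : A => ((e x : Set.Iio (Cardinal.aleph.{u} 1).ord) : Ordinal.{u}))
    refine h2.mono ?_
    intro x hx
    refine ⟨e.symm ⟨x, hx⟩, trivial, ?_⟩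
    show ((e (e.symm ⟨x, hx⟩) : Set.Iio (Cardinal.aleph.{u} 1).ord) : Ordinal.{u}) = x
    rw [OrderIso.apply_symm_apply]

open Pool.Agent.Lib.H45Osc in
theorem posed_of_h (κ : Cardinal.{0}) (h : O → O) (hh : ∀ α, h α < w1)
    (hκ : ∀ B ⊆ Iio κ.ord, IsClosedCopy B → ∀ ν < w1, ∃ β ∈ B, ν ≤ h β) :
    ∃ c : Ordinal.{0} → Ordinal.{0} → Ordinal.{0},
      (∀ α β : Ordinal.{0}, α < β → β < κ.ord → c α β < (Cardinal.aleph 1).ord) ∧
      ∀ A : Set Ordinal.{0}, A ⊆ Set.Iio κ.ord →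
        (∀ B ⊆ A, B.Nonempty → (∃ a ∈ A, ∀ b ∈ B, b ≤ a) → sSup B ∈ A) →
        Nonempty (A ≃o Set.Iio (Cardinal.aleph 1).ord) →
        ∀ ξ < (Cardinal.aleph 1).ord, ∃ α ∈ A, ∃ β ∈ A, α < β ∧ c α β = ξ := by
  have hω : Ordinal.omega0 < w1 := by
    rw [← Cardinal.ord_aleph0, ← Cardinal.aleph_zero]
    exact Cardinal.ord_lt_ord.2 (Cardinal.aleph_lt_aleph.2 zero_lt_one)
  have hm : ∀ α, max (h α) Ordinal.omega0 < w1 := fun α => max_lt (hh α) hω
  refine ⟨fun α β => en (max (h α) Ordinal.omega0) (psi (osc lad α β)), ?_, ?_⟩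
  · intro α β _ _
    exact (en_le _ _).trans_lt (hm α)
  · intro A hAk hcl hiso ξ hξ
    have hA : Pool.Agent.Lib.H45Osc.IsClosedCopy A := ⟨hcl, c23_iso hiso⟩
    have hstat : IsStationary {i | ξ ≤ max (h (hA.enum i)) Ordinal.omega0} := by
      refine hA.stationary_of (P := fun β => ξ ≤ max (h β) Ordinal.omega0) ?_
      intro B hB hBc
      obtain ⟨β, hβ, hβ'⟩ := hκ B (hB.trans hAk) hBc ξ hξ
      exact ⟨β, hβ, hβ'.trans (le_max_left _ _)⟩
    obtain ⟨n, hn⟩ := isOmega1_W.pigeon hstat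
      (fun (n : ℕ) i => en (max (h (hA.enum i)) Ordinal.omega0) n = ξ)
      (fun i hi => en_surj (hm _) hi)
    obtain ⟨i, ⟨_, hi⟩, j, _, hij, _, _, hψ⟩ := hA.exists_psi hn
      (isStationary_univ_iff.2 isOmega1_W.nonempty) n
    refine ⟨hA.enum i, hA.enum_mem i, hA.enum j, hA.enum_mem j, hA.enum_strictMono hij, ?_⟩
    show en (max (h (hA.enum i)) Ordinal.omega0) (psi (osc lad (hA.enum i) (hA.enum j))) = ξ
    rw [hψ]
    exact hi

end Pool.Agent.H82K
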