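import Pool.Agent.Lib.H82K.C22
import Pool.Agent.Lib.H82K.C23

/-!
# Chunk C24 (S): assembly of part C

`posed_of_h` with `h = M.hfun` (`hfun_lt`); a closed copy `B ⊆ Iio κ.ord` is enumerated by a normal sequence in some `d ≤ κ.ord`
(`ns_enum`), use `hfun_unbounded` and `enum_mem`.
-/

set_option autoImplicit false

open Set Order

open Pool.Agent.Lib.H45Osc (w1 limitPts IsClosedCopy)

namespace Pool.Agent.H82K

theorem posed_of_good (M : Ops) (hM : M.Good) (κ : Cardinal.{0})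
    (hc : ∀ d ≤ κ.ord, w1 < d → (∃ A : W → O, NS A d) → M.Captured d) :
    ∃ c : Ordinal.{0} → Ordinal.{0} → Ordinal.{0},
      (∀ α β : Ordinal.{0}, α < β → β < κ.ord → c α β < (Cardinal.aleph 1).ord) ∧
      ∀ A : Set Ordinal.{0}, A ⊆ Set.Iio κ.ord →
        (∀ B ⊆ A, B.Nonempty → (∃ a ∈ A, ∀ b ∈ B, b ≤ a) → sSup B ∈ A) →
        Nonempty (A ≃o Set.Iio (Cardinal.aleph 1).ord) →
        ∀ ξ < (Cardinal.aleph 1).ord, ∃ α ∈ A, ∃ β ∈ A, α < β ∧ c α β = ξ := by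
  refine posed_of_h κ M.hfun M.hfun_lt fun B hB hBc ν hν => ?_
  obtain ⟨d, hd, hNS⟩ := ns_enum hBc hB
  obtain ⟨i, hi⟩ := M.hfun_unbounded hM hc d hd _ hNS ν hν
  exact ⟨_, hBc.enum_mem i, hi⟩

end Pool.Agent.H82K
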