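import Pool.Agent.Lib.H82K.Defs

/-!
# H82K, part C: the setting of the descent (definitions only)
-/

set_option autoImplicit false

open Set Order

open Pool.Agent.Lib.H45Osc (w1 limitPts)

namespace Pool.Agent.H82K.Ops

variable (M : Ops)

/-- The setting: `A` is a normal sequence in the captured ordinal `d > ω₁`, `μ` is one in `lam d`. -/
structure Ctx (A μ : W → O) (d : O) : Prop where
  good : M.Good
  hd : w1 < d
  hA : NS A d
  hc : M.Captured d
  hμ : NS μ (M.lam d)

/-- `i` is a closure point of the functions which give the bounds. -/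
structure InD (A μ : W → O) (d : O) (i : W) : Prop where
  lim : i ∈ limitPts
  big : w1 < A i
  par : ∃ j < i, ∀ x ∈ M.par d, x < μ j
  sig : ∀ j < i, ∃ j' < i, ∀ η ∈ M.hl (μ j) (A j) (M.par d), η < d → η < A j'
  tau : ∀ j < i, ∀ x ∈ M.par d, ∃ j' < i, ∀ η,
    M.Hull (M.lam d) ({y | y ∈ M.hl (μ j) (A j) (M.par d) ∧ y < x} ∪ {y | y ∈ M.par d ∧ x < y}) η →
      η < d → η < A j'
  le : ∀ j < i, ∃ j' < i, A j ≤ μ j'
  cap : ∃ α < A i, ∀ j < i, ∃ j' < i, ∃ η ∈ M.hl (μ j') α (M.par d), A j ≤ η ∧ η < d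

end Pool.Agent.H82K.Ops
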