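import Pool.Agent.Lib.H45Osc.Copy

/-!
# H82K, part C: definitions

`Ops`: a binary and seven unary operations on the ordinals. `Hull l X`: the closure of `X ∩ l` under the
operations, values `≥ l` being discarded. `Good`: condensation for the sets which contain `ω₁`.
-/

set_option autoImplicit false

open Set Order

namespace Pool.Agent.H82K

open Pool.Agent.Lib.H45Osc (w1 limitPts IsClosedCopy)

/-- The ordinals. -/
abbrev O := Ordinal.{0}

/-- The ordinals below `ω₁`, the index set. -/
abbrev W := Set.Iio w1

/-- `A : ω₁ → d` is strictly increasing, continuous, and cofinal in `d`. -/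
structure NS (A : W → O) (d : O) : Prop where
  mono : StrictMono A
  lt : ∀ i, A i < d
  cof : ∀ x < d, ∃ i, x < A i
  cont : ∀ i ∈ limitPts, ∀ x < A i, ∃ j < i, x ≤ A j

/-- A limit ordinal, not zero. -/
def Lim (d : O) : Prop := 0 < d ∧ ∀ x < d, x + 1 < d

/-- One binary and seven unary operations on the ordinals; `b` is a bound for their use (`⊤`: no bound). -/
structure Ops where
  p : O → O → O
  u : Fin 7 → O → O
  b : WithTop O

/-- `π` is an isomorphism of the set `X` of ordinals onto the ordinal `lb`. -/
structure IsCollapse (X : Set O) (lb : O) (π : O → O) : Prop where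
  mono : ∀ x ∈ X, ∀ y ∈ X, x < y → π x < π y
  maps : ∀ x ∈ X, π x < lb
  onto : ∀ z < lb, ∃ x ∈ X, π x = z

/-- `S` is unbounded in `d`. -/
def Unb (S : Set O) (d : O) : Prop := ∀ ξ < d, ∃ η ∈ S, ξ ≤ η ∧ η < d

namespace Ops

variable (M : Ops)

/-- The closure of `X ∩ l` under the operations with values below `l`. -/
inductive Hull (l : O) (X : Set O) : O → Prop
  | base {x : O} (hx : x ∈ X) (h : x < l) : Hull l X x
  | un (k : Fin 7) {x : O} (hx : Hull l X x) (h : M.u k x < l) : Hull l X (M.u k x)
  | bin {x y : O} (hx : Hull l X x) (hy : Hull l X y) (h : M.p x y < l) : Hull l X (M.p x y)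

/-- `X` is a set of ordinals below `l` which is closed under the operations with values below `l`. -/
structure Clo (l : O) (X : Set O) : Prop where
  lt : ∀ x ∈ X, x < l
  un : ∀ k, ∀ x ∈ X, M.u k x < l → M.u k x ∈ X
  bin : ∀ x ∈ X, ∀ y ∈ X, M.p x y < l → M.p x y ∈ X

/-- Condensation for the closed sets which contain `ω₁`. -/
structure Good : Prop where
  left : ∀ x y, x ≤ M.p x y
  right : ∀ x y, y ≤ M.p x y
  un : ∀ (l : O) (X : Set O), (l : WithTop O) ≤ M.b → M.Clo l X → (∀ x < w1, x ∈ X) → ∀ (lb : O) (π : O → O),
    IsCollapse X lb π → ∀ k, ∀ x ∈ X,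
      (M.u k x < l → M.u k (π x) = π (M.u k x)) ∧ (l ≤ M.u k x → lb ≤ M.u k (π x))
  bin : ∀ (l : O) (X : Set O), (l : WithTop O) ≤ M.b → M.Clo l X → (∀ x < w1, x ∈ X) → ∀ (lb : O) (π : O → O),
    IsCollapse X lb π → ∀ x ∈ X, ∀ y ∈ X,
      (M.p x y < l → M.p (π x) (π y) = π (M.p x y)) ∧ (l ≤ M.p x y → lb ≤ M.p (π x) (π y))

/-- The hull of the ordinals below `α` and the parameters `P`. -/
def hl (l α : O) (P : Finset O) : Set O := {x | M.Hull l (Iio α ∪ ↑P) x}

/-- `d` is seen to be singular at `l` with parameters `P` and `α`. -/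
structure Capt (l : O) (P : Finset O) (α d : O) : Prop where
  par : ∀ x ∈ P, x < l
  lt : α < d
  unb : Unb (M.hl l α P) d
  bd : (l : WithTop O) ≤ M.b

/-- `d` is seen to be singular. -/
def Captured (d : O) : Prop := ∃ l P α, M.Capt l P α d

/-- The least `l` at which `d` is seen to be singular. -/
noncomputable def lam (d : O) : O := sInf {l | ∃ P α, M.Capt l P α d}

/-- `P` is the least parameter (in the order of the maximal difference). -/
def IsPar (d : O) (P : Finset O) : Prop :=
  (∃ α, M.Capt (M.lam d) P α d) ∧
    ∀ Q : Finset O, (∃ α, M.Capt (M.lam d) Q α d) → toColex P ≤ toColex Q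

/-- The least parameter for `d`. -/
noncomputable def par (d : O) : Finset O := Classical.epsilon (M.IsPar d)

/-- The least `α` such that the hull of `α` and `P` is cofinal in `d`. -/
noncomputable def a0 (l : O) (P : Finset O) (d : O) : O := sInf {α | Unb (M.hl l α P) d}

/-- `Red l d P a`: starting from `P`, while `a0 l P d` is a successor, add its predecessor to `P`; the
process ends with `a`. -/
inductive Red (l d : O) : Finset O → O → Prop
  | stop {P : Finset O} {a : O} (h : M.a0 l P d = a) (h' : ∀ g, a ≠ g + 1) : Red l d P a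
  | step {P : Finset O} {g a : O} (h : M.a0 l P d = g + 1) (h' : Red l d (insert g P) a) :
      Red l d P a

/-- The final value of the process for the least data of `d`. -/
noncomputable def ainf (d : O) : O := Classical.epsilon fun a => M.Red (M.lam d) d (M.par d) a

end Ops

end Pool.Agent.H82K
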