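import Pool.Agent.Lib.H82K.GDefs

/-!
# Chunk G01 (S): relativized satisfaction

`SatR_congr`: induction on `φ` (models: `SatL_congr` in H94L/Face.lean). `sat_iff`: induction on `φ` (model: `sat_toLF` in H94L/ZFBase.lean): for the quantifier
`(fun j => (update v i a j).1) = update (fun j => (v j).1) i a.1`.
-/

set_option autoImplicit false

open Set Function

namespace Pool.Agent.H82K

open Pool.Agent.H5Z (Fml Sat ModelsZFC)

theorem SatR_congr (B : ZFSet.{0} → Prop) (φ : Fml) (v v' : ℕ → ZFSet.{0})
    (h : ∀ i < bdF φ, v i = v' i) : SatR B φ v ↔ SatR B φ v' := by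
  induction φ generalizing v v' with
  | mem i j =>
    have h1 : v i = v' i := h i (by unfold bdF; omega)
    have h2 : v j = v' j := h j (by unfold bdF; omega)
    unfold SatR
    rw [h1, h2]
  | eq i j =>
    have h1 : v i = v' i := h i (by unfold bdF; omega)
    have h2 : v j = v' j := h j (by unfold bdF; omega)
    unfold SatR
    rw [h1, h2]
  | bot => exact Iff.rfl
  | imp φ ψ ih ih' =>
    exact imp_congr (ih v v' fun i hi => h i (by unfold bdF; omega))
      (ih' v v' fun i hi => h i (by unfold bdF; omega))
  | all i φ ih =>
    have key : ∀ a, SatR B φ (update v i a) ↔ SatR B φ (update v' i a) := by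
      intro a
      refine ih _ _ fun j hj => ?_
      by_cases hji : j = i
      · subst hji
        rw [update_self, update_self]
      · rw [update_of_ne hji, update_of_ne hji]
        exact h j (by unfold bdF; omega)
    constructor
    · intro h1 a ha
      exact (key a).1 (h1 a ha)
    · intro h1 a ha
      exact (key a).2 (h1 a ha)

theorem sat_iff (B : ZFSet.{0} → Prop) (φ : Fml) (v : ℕ → {x // B x}) :
    Sat (fun x y : {x // B x} => x.1 ∈ y.1) φ v ↔ SatR B φ fun i => (v i).1 := by
  induction φ generalizing v with
  | mem i j => exact Iff.rfl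
  | eq i j => exact Subtype.ext_iff
  | bot => exact Iff.rfl
  | imp φ ψ ih ih' => exact imp_congr (ih v) (ih' v)
  | all i φ ih =>
    have h1 : ∀ a : {x // B x}, (fun j => (update v i a j).1) = update (fun j => (v j).1) i a.1 := by
      intro a
      funext j
      by_cases h : j = i
      · subst h; rw [update_self, update_self]
      · rw [update_of_ne h, update_of_ne h]
    constructor
    · intro h a ha
      have h2 := (ih (update v i ⟨a, ha⟩)).1 (h ⟨a, ha⟩)
      rw [h1] at h2
      exact h2
    · intro h a
      rw [ih, h1]
      exact h a.1 a.2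

end Pool.Agent.H82K
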