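import Pool.Agent.Lib.H82K.G01

/-!
# Chunk G02 (M): the axioms of ZFC except the schemes in a good class

Models: `zl_ext`, `zl_found`, `zl_pair`, `zl_union`, `zl_power`, `zl_inf` in H94L/ZFa.lean. `ext`, `found`: transitivity, `ZFSet.regularity`. In the others get a set
`d` in `B` by `cover` (applied to `{x, y}`, `⋃₀ x`, `ZFSet.powerset x`) which contains all candidates, and separate in `d` with a formula
(`v 0 = z`, `v 1 = x`, `v 2 = y`): pair: `imp (imp (eq 0 1) bot) (eq 0 2)`; union: `imp (all 2 (imp (mem 2 1) (imp (mem 0 2) bot))) bot`; power: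
`all 2 (imp (mem 2 0) (mem 2 1))` (elements of a set in `B` are in `B`). For `pair` note that `x, y` in `B`. Infinity: `w = Ordinal.omega0.toZFSet` (`ord`): `∅` and
`insert n n` for `n = k.toZFSet`, `k < ω` (`Ordinal.mem_toZFSet_iff`, `Ordinal.toZFSet_add_one`, `Ordinal.toZFSet_zero`). Choice: from `GoodClass.choice` (elements of elements of `x` are
in `B`).
-/

set_option autoImplicit false

open Set Function

namespace Pool.Agent.H82K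

open Pool.Agent.H5Z (Fml Sat ModelsZFC)

variable {B : ZFSet.{0} → Prop} (hB : GoodClass B)

include hB

theorem g_ext (x y : {x // B x}) (h : ∀ z : {x // B x}, z.1 ∈ x.1 ↔ z.1 ∈ y.1) : x = y := by
  refine Subtype.ext (ZFSet.ext fun z => ?_)
  constructor
  · intro hz
    exact (h ⟨z, hB.trans _ _ x.2 hz⟩).1 hz
  · intro hz
    exact (h ⟨z, hB.trans _ _ y.2 hz⟩).2 hz

theorem g_found (x : {x // B x}) (h : ∃ y : {x // B x}, y.1 ∈ x.1) :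
    ∃ y : {x // B x}, y.1 ∈ x.1 ∧ ∀ z : {x // B x}, z.1 ∈ y.1 → ¬ z.1 ∈ x.1 := by
  obtain ⟨y0, hy0⟩ := h
  have hne : x.1 ≠ ∅ := fun h0 => by
    rw [h0] at hy0
    exact ZFSet.notMem_empty _ hy0
  obtain ⟨y, hy, hxy⟩ := ZFSet.regularity x.1 hne
  refine ⟨⟨y, hB.trans _ _ x.2 hy⟩, hy, fun z hz hzx => ?_⟩
  have h1 : z.1 ∈ x.1 ∩ y := ZFSet.mem_inter.2 ⟨hzx, hz⟩
  rw [hxy] at h1
  exact ZFSet.notMem_empty _ h1

theorem g_pair (x y : {x // B x}) :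
    ∃ p : {x // B x}, ∀ z : {x // B x}, z.1 ∈ p.1 ↔ z = x ∨ z = y := by
  obtain ⟨d, hd, hdu⟩ := hB.cover {x.1, y.1}
  obtain ⟨b, hb, hbz⟩ := hB.sep (Fml.imp (Fml.imp (Fml.eq 0 1) Fml.bot) (Fml.eq 0 2))
    (fun i => if i = 1 then x.1 else y.1) d (fun i => by
      show B (if i = 1 then x.1 else y.1)
      split_ifs
      · exact x.2
      · exact y.2) hd
  have hbz' : ∀ z, z ∈ b ↔ z ∈ d ∧ ((z = x.1 → False) → z = y.1) := hbz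
  refine ⟨⟨b, hb⟩, fun z => ?_⟩
  show z.1 ∈ b ↔ _
  rw [hbz']
  constructor
  · rintro ⟨-, h⟩
    by_cases hzx : z.1 = x.1
    · exact Or.inl (Subtype.ext hzx)
    · exact Or.inr (Subtype.ext (h hzx))
  · rintro (h | h)
    · subst h
      exact ⟨hdu _ (ZFSet.mem_pair.2 (Or.inl rfl)) z.2, fun h => (h rfl).elim⟩
    · subst h
      exact ⟨hdu _ (ZFSet.mem_pair.2 (Or.inr rfl)) z.2, fun _ => rfl⟩

theorem g_union (x : {x // B x}) : ∃ u : {x // B x}, ∀ z : {x // B x},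
    z.1 ∈ u.1 ↔ ∃ y : {x // B x}, y.1 ∈ x.1 ∧ z.1 ∈ y.1 := by
  obtain ⟨d, hd, hdu⟩ := hB.cover (ZFSet.sUnion x.1)
  obtain ⟨b, hb, hbz⟩ := hB.sep
    (Fml.imp (Fml.all 2 (Fml.imp (Fml.mem 2 1) (Fml.imp (Fml.mem 0 2) Fml.bot))) Fml.bot)
    (fun _ => x.1) d (fun _ => x.2) hd
  have hbz' : ∀ z, z ∈ b ↔ z ∈ d ∧ ((∀ y, B y → y ∈ x.1 → z ∈ y → False) → False) := hbz
  refine ⟨⟨b, hb⟩, fun z => ?_⟩
  show z.1 ∈ b ↔ _
  rw [hbz']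
  constructor
  · rintro ⟨-, h⟩
    by_contra hc
    exact h fun y hy hyx hzy => hc ⟨⟨y, hy⟩, hyx, hzy⟩
  · rintro ⟨y, hyx, hzy⟩
    exact ⟨hdu _ (ZFSet.mem_sUnion.2 ⟨y.1, hyx, hzy⟩) z.2, fun h => h y.1 y.2 hyx hzy⟩

theorem g_power (x : {x // B x}) : ∃ p : {x // B x}, ∀ z : {x // B x},
    z.1 ∈ p.1 ↔ ∀ w : {x // B x}, w.1 ∈ z.1 → w.1 ∈ x.1 := by
  obtain ⟨d, hd, hdu⟩ := hB.cover (ZFSet.powerset x.1)
  obtain ⟨b, hb, hbz⟩ := hB.sep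
    (Fml.all 2 (Fml.imp (Fml.mem 2 0) (Fml.mem 2 1)))
    (fun _ => x.1) d (fun _ => x.2) hd
  have hbz' : ∀ z, z ∈ b ↔ z ∈ d ∧ (∀ y, B y → y ∈ z → y ∈ x.1) := hbz
  refine ⟨⟨b, hb⟩, fun z => ?_⟩
  show z.1 ∈ b ↔ _
  rw [hbz']
  constructor
  · rintro ⟨-, h⟩ w hw
    exact h w.1 w.2 hw
  · intro h
    have h1 : z.1 ⊆ x.1 := fun w hw => h ⟨w, hB.trans _ _ z.2 hw⟩ hw
    exact ⟨hdu _ (ZFSet.mem_powerset.2 h1) z.2, fun y _ hyz => h1 hyz⟩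

theorem g_inf : ∃ w : {x // B x}, (∃ e : {x // B x}, e.1 ∈ w.1 ∧ ∀ z : {x // B x}, ¬ z.1 ∈ e.1) ∧
    ∀ x : {x // B x}, x.1 ∈ w.1 → ∃ s : {x // B x}, s.1 ∈ w.1 ∧
      ∀ z : {x // B x}, z.1 ∈ s.1 ↔ z.1 ∈ x.1 ∨ z = x := by
  refine ⟨⟨Ordinal.omega0.toZFSet, hB.ord _⟩, ⟨⟨(0 : Ordinal.{0}).toZFSet, hB.ord _⟩, ?_, ?_⟩,
    fun x hx => ?_⟩
  · exact Ordinal.mem_toZFSet_iff.2 ⟨0, Ordinal.omega0_pos, rfl⟩
  · intro z hz
    have hz' : z.1 ∈ (0 : Ordinal.{0}).toZFSet := hz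
    rw [Ordinal.toZFSet_zero] at hz'
    exact ZFSet.notMem_empty _ hz'
  · obtain ⟨k, hk, hkx⟩ := Ordinal.mem_toZFSet_iff.1 hx
    refine ⟨⟨(k + 1).toZFSet, hB.ord _⟩, Ordinal.mem_toZFSet_iff.2 ⟨k + 1, ?_, rfl⟩, fun z => ?_⟩
    · exact Ordinal.isSuccLimit_omega0.add_one_lt hk
    · show z.1 ∈ (k + 1).toZFSet ↔ _
      rw [Ordinal.toZFSet_add_one, ZFSet.mem_insert_iff, hkx]
      constructor
      · rintro (h | h)
        · exact Or.inr (Subtype.ext h)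
        · exact Or.inl h
      · rintro (h | h)
        · exact Or.inr h
        · exact Or.inl (congrArg Subtype.val h)

theorem g_choice (x : {x // B x}) (h : ∀ y : {x // B x}, y.1 ∈ x.1 → ∃ z : {x // B x}, z.1 ∈ y.1)
    (hd : ∀ y y' z : {x // B x}, y.1 ∈ x.1 → y'.1 ∈ x.1 → z.1 ∈ y.1 → z.1 ∈ y'.1 → y = y') :
    ∃ c : {x // B x}, ∀ y : {x // B x}, y.1 ∈ x.1 → ∃! z : {x // B x}, z.1 ∈ c.1 ∧ z.1 ∈ y.1 := by
  obtain ⟨c, hc, hcy⟩ := hB.choice x.1 x.2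
    (fun y hy => by
      obtain ⟨z, hz⟩ := h ⟨y, hB.trans _ _ x.2 hy⟩ hy
      exact ⟨z.1, hz⟩)
    (fun y hy y' hy' z hz hz' => congrArg Subtype.val
      (hd ⟨y, hB.trans _ _ x.2 hy⟩ ⟨y', hB.trans _ _ x.2 hy'⟩
        ⟨z, hB.trans _ _ (hB.trans _ _ x.2 hy) hz⟩ hy hy' hz hz'))
  refine ⟨⟨c, hc⟩, fun y hy => ?_⟩
  obtain ⟨z, hz, hzu⟩ := hcy y.1 hy
  refine ⟨⟨z, hB.trans _ _ hc hz.1⟩, hz, fun w hw => Subtype.ext (hzu w.1 hw)⟩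

end Pool.Agent.H82K
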