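import Pool.Agent.Lib.H82K.G02

/-!
# Chunk G03 (M): separation and replacement in a good class

`g_sep`: `sat_iff` and `GoodClass.sep` (`(fun i => (update v 0 z i).1) = update (fun i => (v i).1) 0 z.1`).

`g_repl`: for `x ∈ a` (then `x` is in `B`) let `y_x` be the unique `y` in `B` with `φ`. Let `u` be the set of the `y_x` (`ZFSet.range` of a function on the small type `{x // x ∈ a.1}`, or
on `Shrink`), and `d` in `B` with `y_x ∈ d` (`cover`). Let `N = max 2 (bdF φ)`, `v' = update v N a`, and let `ψ` be the formula `∃ 1 (1 = 0 ∧ ∃ 0 (0 ∈ N ∧ φ))`, that is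
`ex1 (and (eq 1 0) (ex0 (and (mem 0 N) φ)))` with `ex i χ = imp (all i (imp χ bot)) bot`, `and χ χ' = imp (imp χ (imp χ' bot)) bot`. For `z` in `B`:
`SatR B ψ (update v' 0 z) ↔ ∃ x, B x ∧ x ∈ a ∧ SatR B φ (update (update v 0 x) 1 z)` (`SatR_congr`: the assignment `update (update (update v' 0 z) 1 z) 0 x` agrees with
`update (update v 0 x) 1 z` below `bdF φ ≤ N`, and its value at `N ≥ 2` is `a`). Separate `ψ` in `d`.
-/

set_option autoImplicit false

open Set Function

namespace Pool.Agent.H82K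

open Pool.Agent.H5Z (Fml Sat ModelsZFC)

theorem g03_sat_ex (B : ZFSet.{0} → Prop) (i : ℕ) (χ : Fml) (v : ℕ → ZFSet.{0}) :
    SatR B (Fml.imp (Fml.all i (Fml.imp χ Fml.bot)) Fml.bot) v ↔
      ∃ a, B a ∧ SatR B χ (update v i a) := by
  constructor
  · intro h
    by_contra hc
    exact h fun a ha hs => hc ⟨a, ha, hs⟩
  · rintro ⟨a, ha, hs⟩ h
    exact h a ha hs

theorem g03_sat_and (B : ZFSet.{0} → Prop) (χ χ' : Fml) (v : ℕ → ZFSet.{0}) :
    SatR B (Fml.imp (Fml.imp χ (Fml.imp χ' Fml.bot)) Fml.bot) v ↔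
      SatR B χ v ∧ SatR B χ' v := by
  constructor
  · intro h
    by_contra hc
    exact h fun h1 h2 => hc ⟨h1, h2⟩
  · rintro ⟨h1, h2⟩ h
    exact h h1 h2

variable {B : ZFSet.{0} → Prop} (hB : GoodClass B)

include hB

theorem g_sep (φ : Fml) (v : ℕ → {x // B x}) (a : {x // B x}) :
    ∃ b : {x // B x}, ∀ z : {x // B x}, z.1 ∈ b.1 ↔
      z.1 ∈ a.1 ∧ Sat (fun x y : {x // B x} => x.1 ∈ y.1) φ (update v 0 z) := by
  obtain ⟨b, hb, hbz⟩ := hB.sep φ (fun i => (v i).1) a.1 (fun i => (v i).2) a.2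
  refine ⟨⟨b, hb⟩, fun z => ?_⟩
  show z.1 ∈ b ↔ _
  rw [hbz, sat_iff]
  have h1 : (fun i => (update v 0 z i).1) = update (fun i => (v i).1) 0 z.1 := by
    funext i
    by_cases hi : i = 0
    · subst hi
      simp
    · simp [hi]
  rw [h1]

theorem g_repl (φ : Fml) (v : ℕ → {x // B x}) (a : {x // B x})
    (h : ∀ x : {x // B x}, x.1 ∈ a.1 →
      ∃! y, Sat (fun x y : {x // B x} => x.1 ∈ y.1) φ (update (update v 0 x) 1 y)) :
    ∃ b : {x // B x}, ∀ y : {x // B x}, y.1 ∈ b.1 ↔ ∃ x : {x // B x}, x.1 ∈ a.1 ∧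
      Sat (fun x y : {x // B x} => x.1 ∈ y.1) φ (update (update v 0 x) 1 y) := by
  classical
  have hex : ∀ x : {x : {x // B x} // x.1 ∈ a.1}, ∃ y : {x // B x},
      Sat (fun x y : {x // B x} => x.1 ∈ y.1) φ (update (update v 0 x.1) 1 y) :=
    fun x => (h x.1 x.2).exists
  choose f hf using hex
  have hup : ∀ x y : {x // B x}, (fun i => (update (update v 0 x) 1 y i).1) =
      update (update (fun i => (v i).1) 0 x.1) 1 y.1 := by
    intro x y
    funext i
    by_cases h1 : i = 1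
    · subst h1
      simp
    · by_cases h0 : i = 0
      · subst h0
        simp
      · simp [h1, h0]
  let F : {x : ZFSet.{0} // x ∈ a.1} → ZFSet.{0} := fun x =>
    (f ⟨⟨x.1, hB.trans _ _ a.2 x.2⟩, x.2⟩).1
  obtain ⟨d, hd, hdu⟩ := hB.cover (ZFSet.range F)
  have hFd : ∀ x : {x : ZFSet.{0} // x ∈ a.1}, F x ∈ d := fun x =>
    hdu _ (ZFSet.mem_range_self x) (f ⟨⟨x.1, hB.trans _ _ a.2 x.2⟩, x.2⟩).2
  obtain ⟨N, hN2, hNφ⟩ : ∃ N : ℕ, 2 ≤ N ∧ bdF φ ≤ N :=
    ⟨max 2 (bdF φ), le_max_left _ _, le_max_right _ _⟩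
  have hmain : ∀ z, SatR B (Fml.imp (Fml.all 1 (Fml.imp (Fml.imp (Fml.imp (Fml.eq 1 0)
      (Fml.imp (Fml.imp (Fml.all 0 (Fml.imp (Fml.imp (Fml.imp (Fml.mem 0 N) (Fml.imp φ Fml.bot))
        Fml.bot) Fml.bot)) Fml.bot) Fml.bot)) Fml.bot) Fml.bot)) Fml.bot)
        (update (update (fun i => (v i).1) N a.1) 0 z) ↔ B z ∧ ∃ x, B x ∧ x ∈ a.1 ∧
          SatR B φ (update (update (fun i => (v i).1) 0 x) 1 z) := by
    intro z
    rw [g03_sat_ex]
    have h2 : ∀ y, SatR B (Fml.imp (Fml.imp (Fml.eq 1 0)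
      (Fml.imp (Fml.imp (Fml.all 0 (Fml.imp (Fml.imp (Fml.imp (Fml.mem 0 N) (Fml.imp φ Fml.bot))
        Fml.bot) Fml.bot)) Fml.bot) Fml.bot)) Fml.bot)
        (update (update (update (fun i => (v i).1) N a.1) 0 z) 1 y) ↔ y = z ∧ ∃ x, B x ∧
          x ∈ a.1 ∧ SatR B φ (update (update (fun i => (v i).1) 0 x) 1 y) := by
      intro y
      rw [g03_sat_and, g03_sat_ex]
      have h3 : SatR B (Fml.eq 1 0)
          (update (update (update (fun i => (v i).1) N a.1) 0 z) 1 y) ↔ y = z := by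
        show update (update (update (fun i => (v i).1) N a.1) 0 z) 1 y 1 =
          update (update (update (fun i => (v i).1) N a.1) 0 z) 1 y 0 ↔ _
        simp
      rw [h3]
      refine and_congr_right fun _ => exists_congr fun x => and_congr_right fun _ => ?_
      rw [g03_sat_and]
      refine and_congr ?_ ?_
      · show update (update (update (update (fun i => (v i).1) N a.1) 0 z) 1 y) 0 x 0 ∈
          update (update (update (update (fun i => (v i).1) N a.1) 0 z) 1 y) 0 x N ↔ _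
        have hN0 : N ≠ 0 := by omega
        have hN1 : N ≠ 1 := by omega
        simp [hN0, hN1]
      · refine SatR_congr B φ _ _ fun i hi => ?_
        have hiN : i ≠ N := by omega
        by_cases h0 : i = 0
        · subst h0
          simp
        · by_cases h1 : i = 1
          · subst h1
            simp
          · simp [h0, h1, hiN]
    constructor
    · rintro ⟨y, hy, hs⟩
      obtain ⟨rfl, hx⟩ := (h2 y).1 hs
      exact ⟨hy, hx⟩
    · rintro ⟨hz, hx⟩
      exact ⟨z, hz, (h2 z).2 ⟨rfl, hx⟩⟩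
  obtain ⟨b, hb, hbz⟩ := hB.sep _ (update (fun i => (v i).1) N a.1) d (fun i => by
    by_cases hi : i = N
    · subst hi
      simp only [update_self]
      exact a.2
    · simp only [update_of_ne hi]
      exact (v i).2) hd
  refine ⟨⟨b, hb⟩, fun y => ?_⟩
  show y.1 ∈ b ↔ _
  rw [hbz, hmain]
  constructor
  · rintro ⟨-, -, x, hx, hxa, hs⟩
    refine ⟨⟨x, hx⟩, hxa, ?_⟩
    rw [sat_iff, hup]
    exact hs
  · rintro ⟨x, hxa, hs⟩
    have hfy : f ⟨x, hxa⟩ = y := (h x hxa).unique (hf ⟨x, hxa⟩) hs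
    have hyd : y.1 ∈ d := by
      rw [← hfy]
      exact hFd ⟨x.1, hxa⟩
    refine ⟨hyd, y.2, x.1, x.2, hxa, ?_⟩
    rw [sat_iff, hup] at hs
    exact hs

/-- a good class is an inner model -/
theorem inner_of_good : Inner B where
  trans := hB.trans
  ord := hB.ord
  zfc :=
    { ext := g_ext hB
      found := g_found hB
      pair := g_pair hB
      union := g_union hB
      power := g_power hB
      inf := g_inf hB
      sep := g_sep hB
      repl := g_repl hB
      choice := g_choice hB }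

end Pool.Agent.H82K
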