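import Pool.Agent.Lib.H5Z.Defs

/-!
# H82K: inner models of ZFC (definitions)

`SatR B φ v`: the formula `φ` relativized to the class `B`. `Inner B`: `B` is a transitive class of sets which contains all ordinals and satisfies ZFC.
-/

set_option autoImplicit false

open Set Function

namespace Pool.Agent.H82K

open Pool.Agent.H5Z (Fml Sat ModelsZFC)

/-- satisfaction in a class of sets -/
def SatR (B : ZFSet.{0} → Prop) : Fml → (ℕ → ZFSet.{0}) → Prop
  | Fml.mem i j, v => v i ∈ v j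
  | Fml.eq i j, v => v i = v j
  | Fml.bot, _ => False
  | Fml.imp φ ψ, v => SatR B φ v → SatR B ψ v
  | Fml.all i φ, v => ∀ a, B a → SatR B φ (update v i a)

/-- `B` is an inner model of ZFC: a transitive class which contains all ordinals and satisfies the axioms of ZFC. -/
structure Inner (B : ZFSet.{0} → Prop) : Prop where
  trans : ∀ x y, B x → y ∈ x → B y
  ord : ∀ α : Ordinal.{0}, B α.toZFSet
  zfc : ModelsZFC (fun x y : {x // B x} => x.1 ∈ y.1)

/-- `x` is constructible from `A`: it belongs to every inner model of ZFC which contains `A` -/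
def InL (A x : ZFSet.{0}) : Prop := ∀ B : ZFSet.{0} → Prop, Inner B → B A → B x

/-- closure conditions which imply ZFC -/
structure GoodClass (B : ZFSet.{0} → Prop) : Prop where
  trans : ∀ x y, B x → y ∈ x → B y
  ord : ∀ α : Ordinal.{0}, B α.toZFSet
  sep : ∀ (φ : Fml) (v : ℕ → ZFSet.{0}) (a : ZFSet.{0}), (∀ i, B (v i)) → B a →
    ∃ b, B b ∧ ∀ z, z ∈ b ↔ z ∈ a ∧ SatR B φ (update v 0 z)
  cover : ∀ u : ZFSet.{0}, ∃ d, B d ∧ ∀ x ∈ u, B x → x ∈ d
  choice : ∀ x, B x → (∀ y ∈ x, ∃ z, z ∈ y) → (∀ y ∈ x, ∀ y' ∈ x, ∀ z ∈ y, z ∈ y' → y = y') →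
    ∃ c, B c ∧ ∀ y ∈ x, ∃! z, z ∈ c ∧ z ∈ y

/-- a bound for the variables of a formula -/
def bdF : Fml → ℕ
  | Fml.mem i j => max i j + 1
  | Fml.eq i j => max i j + 1
  | Fml.bot => 0
  | Fml.imp φ ψ => max (bdF φ) (bdF ψ)
  | Fml.all i φ => max (i + 1) (bdF φ)

end Pool.Agent.H82K
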