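import Pool.Agent.Lib.H82K.KDefs

/-!
# Chunk K01 (S/M): the two versions of truth

* `TT_iff_TS`: induction on `φ` (unfold `TT`, `Tr`); `ex`: `pp w ξ < μ ↔ ξ < μ` (`Gam`, `le_pp_right`), `dec_pp`.
* `TS_congr`: induction on `φ`, for all `s`, `s'` (in `ex` the bound is only needed for the variables `i + 1 < bd`).
* `TS_sub`: induction on `φ`, for all `g`, `s`: `cons ξ s ∘ g' = cons ξ (s ∘ g)` with `g' 0 = 0`, `g' (m + 1) = g m + 1` (`funext`, cases).
* `exists_dec`: induction on `n` (for all `s`): `n + 1`: `z = pp z' (s 0)` with `z'` for the sequence `fun i => s (i + 1)`, `dec_pp`. `n = 0`: `z = 0`.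
-/

set_option autoImplicit false

open Set Order Function

open Pool.Agent.Lib.H45Osc (w1 limitPts)

namespace Pool.Agent.H82K

open Pool.Agent.H5Z (Fml Sat ModelsZFC)

variable (A : Set O)

theorem TT_iff_TS {μ : O} (hμ : Gam μ) (φ : Fm) {w : O} (hw : w < μ) :
    TT A μ φ w ↔ TS A μ φ (dec w) := by
  unfold TT
  induction φ generalizing w with
  | atom a => exact Iff.rfl
  | bot => exact Iff.rfl
  | imp φ ψ ih1 ih2 => exact imp_congr (ih1 hw) (ih2 hw)
  | ex φ ih =>
    constructor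
    · rintro ⟨ξ, h1, h2⟩
      refine ⟨ξ, (le_pp_right w ξ).trans_lt h1, ?_⟩
      rw [← dec_pp]
      exact (ih h1).1 h2
    · rintro ⟨ξ, h1, h2⟩
      rw [← dec_pp] at h2
      exact ⟨ξ, hμ.2 w hw ξ h1, (ih (hμ.2 w hw ξ h1)).2 h2⟩

theorem k01_at (a : At) (s s' : ℕ → O) (h : ∀ i < a.bd, s i = s' i) :
    AtS A (val A) (El A) s a ↔ AtS A (val A) (El A) s' a := by
  cases a with
  | eps i j =>
    have h1 := h i (Nat.lt_succ_of_le (le_max_left i j))
    have h2 := h j (Nat.lt_succ_of_le (le_max_right i j))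
    show val A (s i) ∈ val A (s j) ↔ val A (s' i) ∈ val A (s' j)
    rw [h1, h2]
  | lt i j =>
    have h1 := h i (Nat.lt_succ_of_le (le_max_left i j))
    have h2 := h j (Nat.lt_succ_of_le (le_max_right i j))
    show s i < s j ↔ s' i < s' j
    rw [h1, h2]
  | aa i =>
    have h1 := h i (Nat.lt_succ_self i)
    show p1 (s i) ∈ A ↔ p1 (s' i) ∈ A
    rw [h1]
  | uk k i j =>
    have h1 := h i (Nat.lt_succ_of_le (le_max_left i j))
    have h2 := h j (Nat.lt_succ_of_le (le_max_right i j))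
    show uf (val A) (El A) k (p1 (s i)) = p1 (s j) ↔ uf (val A) (El A) k (p1 (s' i)) = p1 (s' j)
    rw [h1, h2]
  | pk i j k =>
    have h1 := h i (Nat.lt_succ_of_le ((le_max_left i j).trans (le_max_left _ k)))
    have h2 := h j (Nat.lt_succ_of_le ((le_max_right i j).trans (le_max_left _ k)))
    have h3 := h k (Nat.lt_succ_of_le (le_max_right _ k))
    show pp (p1 (s i)) (p1 (s j)) = p1 (s k) ↔ pp (p1 (s' i)) (p1 (s' j)) = p1 (s' k)
    rw [h1, h2, h3]

theorem TS_congr (μ : O) (φ : Fm) (s s' : ℕ → O) (h : ∀ i < φ.bd, s i = s' i) :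
    TS A μ φ s ↔ TS A μ φ s' := by
  induction φ generalizing s s' with
  | atom a => exact k01_at A a s s' h
  | bot => exact Iff.rfl
  | imp φ ψ ih1 ih2 =>
    exact imp_congr (ih1 s s' fun i hi => h i (lt_of_lt_of_le hi (le_max_left _ _)))
      (ih2 s s' fun i hi => h i (lt_of_lt_of_le hi (le_max_right _ _)))
  | ex φ ih =>
    refine exists_congr fun ξ => and_congr_right fun _ => ih _ _ fun i hi => ?_
    cases i with
    | zero => rfl
    | succ i => exact h i ((Nat.lt_succ_self i).trans hi)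

theorem TS_sub (μ : O) (φ : Fm) (g : ℕ → ℕ) (s : ℕ → O) :
    TS A μ (φ.sub g) s ↔ TS A μ φ (s ∘ g) := by
  induction φ generalizing g s with
  | atom a => cases a <;> exact Iff.rfl
  | bot => exact Iff.rfl
  | imp φ ψ ih1 ih2 => exact imp_congr (ih1 g s) (ih2 g s)
  | ex φ ih =>
    refine exists_congr fun ξ => and_congr_right fun _ => ?_
    have h1 : (cons ξ s ∘ fun n => Nat.casesOn n 0 fun m => g m + 1) = cons ξ (s ∘ g) := by
      funext n
      cases n with
      | zero => rfl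
      | succ n => rfl
    have h2 := ih (fun n => Nat.casesOn n 0 fun m => g m + 1) (cons ξ s)
    rw [h1] at h2
    exact h2

theorem exists_dec {μ : O} (hμ : Gam μ) (s : ℕ → O) (hs : ∀ i, s i < μ) (n : ℕ) :
    ∃ z < μ, ∀ i < n, dec z i = s i := by
  induction n generalizing s with
  | zero => exact ⟨0, hμ.1.1, fun i hi => absurd hi (Nat.not_lt_zero i)⟩
  | succ n ih =>
    obtain ⟨z, hz, h1⟩ := ih (fun i => s (i + 1)) (fun i => hs (i + 1))
    refine ⟨pp z (s 0), hμ.2 z hz _ (hs 0), fun i hi => ?_⟩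
    rw [dec_pp]
    cases i with
    | zero => rfl
    | succ i => exact h1 i (Nat.lt_of_succ_lt_succ hi)

theorem cons_lt {μ ξ : O} (hξ : ξ < μ) {s : ℕ → O} (hs : ∀ i, s i < μ) (i : ℕ) :
    cons ξ s i < μ := by
  cases i with
  | zero => exact hξ
  | succ i => exact hs i

/-- above each ordinal there is an element of `Gam` closed under a given function -/
theorem exists_gam (F : O → O) (α : O) : ∃ μ, α < μ ∧ Gam μ ∧ ∀ x < μ, F x < μ := by
  obtain ⟨G, hG⟩ : ∃ G : O → O, G = fun β =>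
      max (β + 1) (⨆ q : Iio β × Iio β, (max (F q.1.1) (pp q.1.1 q.2.1) + 1)) := ⟨_, rfl⟩
  have hG1 : ∀ β, β < G β := fun β => by
    rw [hG]
    exact (lt_add_one β).trans_le (le_max_left _ _)
  have hG2 : ∀ β, ∀ x < β, ∀ y < β, F x < G β ∧ pp x y < G β := by
    intro β x hx y hy
    have h1 : max (F x) (pp x y) + 1 ≤ G β := by
      rw [hG]
      exact (Ordinal.le_iSup (fun q : Iio β × Iio β => max (F q.1.1) (pp q.1.1 q.2.1) + 1) (⟨x, hx⟩, ⟨y, hy⟩)).trans
        (le_max_right _ _)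
    have h2 : max (F x) (pp x y) < G β := (lt_add_one _).trans_le h1
    exact ⟨(le_max_left _ _).trans_lt h2, (le_max_right _ _).trans_lt h2⟩
  have hmono : ∀ n m, n ≤ m → G^[n] (α + 1) ≤ G^[m] (α + 1) := by
    intro n m h
    induction m, h using Nat.le_induction with
    | base => exact le_rfl
    | succ m _ ih =>
      rw [Function.iterate_succ_apply']
      exact ih.trans (hG1 _).le
  have hlt : ∀ n, G^[n] (α + 1) < ⨆ n, G^[n] (α + 1) := by
    intro n
    have h1 := Ordinal.le_iSup (fun n : ℕ => G^[n] (α + 1)) (n + 1)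
    rw [Function.iterate_succ_apply'] at h1
    exact (hG1 _).trans_le h1
  have hex : ∀ x < ⨆ n, G^[n] (α + 1), ∃ n, x < G^[n] (α + 1) := fun x hx => Ordinal.lt_iSup_iff.1 hx
  have hkey : ∀ x < ⨆ n, G^[n] (α + 1), ∀ y < ⨆ n, G^[n] (α + 1), F x < ⨆ n, G^[n] (α + 1) ∧ pp x y < ⨆ n, G^[n] (α + 1) := by
    intro x hx y hy
    obtain ⟨n, hn⟩ := hex x hx
    obtain ⟨m, hm⟩ := hex y hy
    have h1 := hG2 (G^[max n m] (α + 1)) x (hn.trans_le (hmono _ _ (le_max_left _ _))) y (hm.trans_le (hmono _ _ (le_max_right _ _)))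
    rw [← Function.iterate_succ_apply' G] at h1
    exact ⟨h1.1.trans (hlt _), h1.2.trans (hlt _)⟩
  refine ⟨⨆ n, G^[n] (α + 1), (lt_add_one α).trans (hlt 0), ⟨⟨?_, ?_⟩, fun x hx y hy => (hkey x hx y hy).2⟩, fun x hx => (hkey x hx x hx).1⟩
  · exact lt_of_le_of_lt bot_le (hlt 0)
  · intro x hx
    obtain ⟨n, hn⟩ := hex x hx
    exact (Order.add_one_le_of_lt hn).trans_lt (hlt n)

end Pool.Agent.H82K
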