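import Pool.Agent.Lib.H82K.K01

/-!
# Chunk K02 (S/M): closure properties of definable predicates

Model: H43L/U1.lean (`UD`). `congr`; atoms: the formula itself, `Iff.rfl`; `imp`, `not`, `and`, `or`, `iff` as there. `ex`: `χ.ex` with `cons_lt`. `all`: `¬ ∃ ¬`. `comp`: `TS_sub`.
-/

set_option autoImplicit false

open Set Order Function

open Pool.Agent.Lib.H45Osc (w1 limitPts)

namespace Pool.Agent.H82K.ND

open Pool.Agent.H5Z (Fml Sat ModelsZFC)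

variable {A : Set O} {P Q : O → (ℕ → O) → Prop}

theorem congr (hQ : ND A Q) (h : ∀ μ, Gam μ → ∀ s, (∀ i, s i < μ) → (P μ s ↔ Q μ s)) : ND A P := by
  obtain ⟨χ, hχ⟩ := hQ
  exact ⟨χ, fun μ hμ s hs => (h μ hμ s hs).trans (hχ μ hμ s hs)⟩

theorem eps (i j : ℕ) : ND A fun _ s => val A (s i) ∈ val A (s j) :=
  ⟨Fm.atom (At.eps i j), fun _ _ _ _ => Iff.rfl⟩

theorem lt (i j : ℕ) : ND A fun _ s => s i < s j :=
  ⟨Fm.atom (At.lt i j), fun _ _ _ _ => Iff.rfl⟩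

theorem aa (i : ℕ) : ND A fun _ s => p1 (s i) ∈ A :=
  ⟨Fm.atom (At.aa i), fun _ _ _ _ => Iff.rfl⟩

theorem uk (k : Fin 3) (i j : ℕ) : ND A fun _ s => uf (val A) (El A) k (p1 (s i)) = p1 (s j) :=
  ⟨Fm.atom (At.uk k i j), fun _ _ _ _ => Iff.rfl⟩

theorem pk (i j k : ℕ) : ND A fun _ s => pp (p1 (s i)) (p1 (s j)) = p1 (s k) :=
  ⟨Fm.atom (At.pk i j k), fun _ _ _ _ => Iff.rfl⟩

theorem const (p : Prop) : ND A fun _ _ => p := by
  by_cases hp : p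
  · exact ⟨Fm.imp Fm.bot Fm.bot, fun _ _ _ _ => ⟨fun _ h => h, fun _ => hp⟩⟩
  · exact ⟨Fm.bot, fun _ _ _ _ => ⟨fun h => hp h, fun h => h.elim⟩⟩

theorem imp (hP : ND A P) (hQ : ND A Q) : ND A fun μ s => P μ s → Q μ s := by
  obtain ⟨χ, hχ⟩ := hP
  obtain ⟨ψ, hψ⟩ := hQ
  exact ⟨Fm.imp χ ψ, fun μ hμ s hs => imp_congr (hχ μ hμ s hs) (hψ μ hμ s hs)⟩

theorem not (hP : ND A P) : ND A fun μ s => ¬ P μ s := by
  obtain ⟨χ, hχ⟩ := hP
  exact ⟨Fm.imp χ Fm.bot, fun μ hμ s hs => not_congr (hχ μ hμ s hs)⟩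

theorem and (hP : ND A P) (hQ : ND A Q) : ND A fun μ s => P μ s ∧ Q μ s :=
  congr (hP.imp hQ.not).not fun _ _ _ _ => by tauto

theorem or (hP : ND A P) (hQ : ND A Q) : ND A fun μ s => P μ s ∨ Q μ s :=
  congr (hP.not.imp hQ) fun _ _ _ _ => by tauto

theorem iff (hP : ND A P) (hQ : ND A Q) : ND A fun μ s => (P μ s ↔ Q μ s) :=
  congr ((hP.imp hQ).and (hQ.imp hP)) fun _ _ _ _ => by tauto

theorem ex (hP : ND A P) : ND A fun μ s => ∃ ξ < μ, P μ (cons ξ s) := by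
  obtain ⟨χ, hχ⟩ := hP
  exact ⟨Fm.ex χ, fun μ hμ s hs => exists_congr fun ξ => and_congr_right fun hξ =>
    hχ μ hμ (cons ξ s) (cons_lt hξ hs)⟩

theorem all (hP : ND A P) : ND A fun μ s => ∀ ξ < μ, P μ (cons ξ s) :=
  congr hP.not.ex.not fun _ _ _ _ => by
    constructor
    · rintro h ⟨ξ, hξ, hn⟩
      exact hn (h ξ hξ)
    · intro h ξ hξ
      by_contra hn
      exact h ⟨ξ, hξ, hn⟩

theorem comp (hP : ND A P) (f : ℕ → ℕ) : ND A fun μ s => P μ (s ∘ f) := by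
  obtain ⟨χ, hχ⟩ := hP
  exact ⟨χ.sub f, fun μ hμ s hs => (hχ μ hμ (s ∘ f) fun i => hs (f i)).trans (TS_sub A μ χ f s).symm⟩

theorem comp1 {R : O → Prop} (h : ND A fun _ s => R (s 0)) (i : ℕ) :
    ND A fun _ s => R (s i) :=
  congr (h.comp fun _ => i) fun _ _ _ _ => Iff.rfl

theorem comp2 {R : O → O → Prop} (h : ND A fun _ s => R (s 0) (s 1)) (i j : ℕ) :
    ND A fun _ s => R (s i) (s j) :=
  congr (h.comp fun n => Nat.casesOn n i fun _ => j) fun _ _ _ _ => Iff.rfl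

theorem comp3 {R : O → O → O → Prop} (h : ND A fun _ s => R (s 0) (s 1) (s 2)) (i j k : ℕ) :
    ND A fun _ s => R (s i) (s j) (s k) :=
  congr (h.comp fun n => Nat.casesOn n i fun m => Nat.casesOn m j fun _ => k) fun _ _ _ _ => Iff.rfl

end Pool.Agent.H82K.ND
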