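import Pool.Agent.Lib.H82K.K02

/-!
# Chunk K03 (M): definability of equality and of pairs of values

* `D_trans`: `y ∈ val ξ` is `val ξ'`, `ξ' ∈ El ξ`, `ξ' < ξ` (`mem_val`, `El_lt`).
* `eqv`: for names `a, b < μ`: `val a = val b ↔ ∀ ξ < μ, (val ξ ∈ val a ↔ val ξ ∈ val b)` (extensionality, the elements have names `< μ`). So `ND.all` of `ND.iff` of `ND.eps 0 (i+1)`,
  `ND.eps 0 (j+1)`, `ND.congr` (`cons ξ s (i + 1) = s i` by `rfl`).
* `single`: `val (s i) = {val (s j)} ↔ ∀ ξ < μ, (val ξ ∈ val (s i) ↔ val ξ = val (s j))` (the element of `{val (s j)}` has the name `s j < μ`). `upair` is similar.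
* `kpair`: `ZFSet.pair x y = {{x}, {x, y}}`: `val (s i) = pair (val (s j)) (val (s k)) ↔ (∃ ξ < μ, val ξ = {val (s j)} ∧ ∃ ξ' < μ, val ξ' = {val (s j), val (s k)} ∧ val (s i) = {val ξ, val ξ'})`: the elements of
  `val (s i)` have names `< μ`.
* `rel`: `pair (val (s j)) (val (s k)) ∈ val (s i) ↔ ∃ ξ < μ, val ξ ∈ val (s i) ∧ val ξ = pair ..`.
(`comp2`, `comp3` may help: prove the case of the variables `0, 1, 2` first.)
-/

set_option autoImplicit false

open Set Order Function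

open Pool.Agent.Lib.H45Osc (w1 limitPts)

namespace Pool.Agent.H82K

open Pool.Agent.H5Z (Fml Sat ModelsZFC)

theorem D_trans {A : Set O} {μ : O} {x y : ZFSet.{0}} (hx : D A μ x) (hy : y ∈ x) : D A μ y := by
  obtain ⟨ξ, hξ, rfl⟩ := hx
  obtain ⟨ξ', h1, _, h3⟩ := (mem_val' A ξ y).1 hy
  exact ⟨ξ', h1.trans hξ, h3⟩

theorem k03_ext {A : Set O} {μ : O} {x y : ZFSet.{0}} (hx : ∀ z ∈ x, D A μ z) (hy : ∀ z ∈ y, D A μ z) :
    x = y ↔ ∀ ξ < μ, (val A ξ ∈ x ↔ val A ξ ∈ y) := by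
  constructor
  · rintro rfl ξ _
    exact Iff.rfl
  · intro h
    refine ZFSet.ext fun z => ?_
    constructor
    · intro hz
      obtain ⟨ξ, hξ, rfl⟩ := hx z hz
      exact (h ξ hξ).1 hz
    · intro hz
      obtain ⟨ξ, hξ, rfl⟩ := hy z hz
      exact (h ξ hξ).2 hz

theorem k03_el {A : Set O} {μ : O} {a : O} (ha : a < μ) : ∀ z ∈ val A a, D A μ z :=
  fun _ hz => D_trans ⟨a, ha, rfl⟩ hz

namespace ND

variable {A : Set O}

theorem eqv (i j : ℕ) : ND A fun _ s => val A (s i) = val A (s j) := by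
  refine congr (all (iff (eps 0 (i + 1)) (eps 0 (j + 1)))) fun μ _ s hs => ?_
  exact k03_ext (k03_el (hs i)) (k03_el (hs j))

theorem single (i j : ℕ) : ND A fun _ s => val A (s i) = ({val A (s j)} : ZFSet.{0}) := by
  refine congr (all (iff (eps 0 (i + 1)) (eqv 0 (j + 1)))) fun μ _ s hs => ?_
  have h : ∀ z ∈ ({val A (s j)} : ZFSet.{0}), D A μ z := by
    intro z hz
    rw [ZFSet.mem_singleton] at hz
    exact ⟨s j, hs j, hz⟩
  rw [k03_ext (k03_el (hs i)) h]
  refine forall_congr' fun ξ => forall_congr' fun _ => ?_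
  rw [ZFSet.mem_singleton]
  exact Iff.rfl

theorem upair (i j k : ℕ) :
    ND A fun _ s => val A (s i) = ({val A (s j), val A (s k)} : ZFSet.{0}) := by
  refine congr (all (iff (eps 0 (i + 1)) (or (eqv 0 (j + 1)) (eqv 0 (k + 1))))) fun μ _ s hs => ?_
  have h : ∀ z ∈ ({val A (s j), val A (s k)} : ZFSet.{0}), D A μ z := by
    intro z hz
    rw [ZFSet.mem_pair] at hz
    rcases hz with hz | hz
    · exact ⟨s j, hs j, hz⟩
    · exact ⟨s k, hs k, hz⟩
  rw [k03_ext (k03_el (hs i)) h]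
  refine forall_congr' fun ξ => forall_congr' fun _ => ?_
  rw [ZFSet.mem_pair]
  exact Iff.rfl

theorem kpair (i j k : ℕ) :
    ND A fun _ s => val A (s i) = ZFSet.pair (val A (s j)) (val A (s k)) := by
  refine congr (ex (and (single 0 (j + 1)) (ex (and (upair 0 (j + 2) (k + 2)) (upair (i + 2) 1 0))))) fun μ _ s hs => ?_
  constructor
  · intro h
    have h1 : D A μ ({val A (s j)} : ZFSet.{0}) := by
      refine k03_el (hs i) _ ?_
      rw [h]
      unfold ZFSet.pair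
      rw [ZFSet.mem_pair]
      exact Or.inl rfl
    have h2 : D A μ ({val A (s j), val A (s k)} : ZFSet.{0}) := by
      refine k03_el (hs i) _ ?_
      rw [h]
      unfold ZFSet.pair
      rw [ZFSet.mem_pair]
      exact Or.inr rfl
    obtain ⟨ξ, hξ, h3⟩ := h1
    obtain ⟨ξ', hξ', h4⟩ := h2
    refine ⟨ξ, hξ, h3.symm, ξ', hξ', h4.symm, ?_⟩
    change val A (s i) = ({val A ξ, val A ξ'} : ZFSet.{0})
    rw [h, ← h3, ← h4]
    rfl
  · rintro ⟨ξ, _, h3, ξ', _, h4, h5⟩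
    change val A ξ = ({val A (s j)} : ZFSet.{0}) at h3
    change val A ξ' = ({val A (s j), val A (s k)} : ZFSet.{0}) at h4
    change val A (s i) = ({val A ξ, val A ξ'} : ZFSet.{0}) at h5
    rw [h5, h3, h4]
    rfl

theorem rel (i j k : ℕ) :
    ND A fun _ s => ZFSet.pair (val A (s j)) (val A (s k)) ∈ val A (s i) := by
  refine congr (ex (and (eps 0 (i + 1)) (kpair 0 (j + 1) (k + 1)))) fun μ _ s hs => ?_
  constructor
  · intro h
    obtain ⟨ξ, hξ, h3⟩ := k03_el (hs i) _ h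
    refine ⟨ξ, hξ, ?_, h3.symm⟩
    change val A ξ ∈ val A (s i)
    rw [← h3]
    exact h
  · rintro ⟨ξ, _, h3, h4⟩
    change val A ξ ∈ val A (s i) at h3
    change val A ξ = ZFSet.pair (val A (s j)) (val A (s k)) at h4
    rw [← h4]
    exact h3

end ND

end Pool.Agent.H82K
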