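import Pool.Agent.Lib.H82K.K03

/-!
# Chunk K04 (S/M): formulas of set theory about the values

Induction on `φ`. `mem`: `ND.eps`, `eq`: `ND.eqv`, `bot`: `ND.const`, `imp`: `ND.imp`. `all i φ`: `∀ a, D A μ a → SatR (D A μ) φ (update (val A ∘ s) i a)` is
`∀ ξ < μ, SatR (D A μ) φ (update (val A ∘ s) i (val A ξ))`, and `update (val A ∘ s) i (val A ξ) = val A ∘ (cons ξ s ∘ g)` with `g j = if j = i then 0 else j + 1`: `ND.comp`, `ND.all`, `ND.congr`.
-/

set_option autoImplicit false

open Set Order Function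

open Pool.Agent.Lib.H45Osc (w1 limitPts)

namespace Pool.Agent.H82K

open Pool.Agent.H5Z (Fml Sat ModelsZFC)

theorem k04_upd (A : Set O) (s : ℕ → O) (i : ℕ) (ξ : O) :
    update (val A ∘ s) i (val A ξ) = val A ∘ (cons ξ s ∘ fun j => if j = i then 0 else j + 1) := by
  funext j
  simp only [comp_apply]
  by_cases h : j = i
  · subst h
    rw [update_self, if_pos rfl]
    rfl
  · rw [update_of_ne h, if_neg h]
    rfl

theorem ND.satR {A : Set O} (φ : Fml) : ND A fun μ s => SatR (D A μ) φ (val A ∘ s) := by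
  induction φ with
  | mem i j => exact ND.eps i j
  | eq i j => exact ND.eqv i j
  | bot => exact ND.const False
  | imp φ ψ ih1 ih2 => exact ND.imp ih1 ih2
  | all i φ ih =>
    refine ND.congr (ND.all (ND.comp ih fun j => if j = i then 0 else j + 1)) fun μ _ s hs => ?_
    constructor
    · intro h ξ hξ
      have h1 := h (val A ξ) ⟨ξ, hξ, rfl⟩
      rw [k04_upd] at h1
      exact h1
    · intro h a ha
      obtain ⟨ξ, hξ, rfl⟩ := ha
      rw [k04_upd]
      exact h ξ hξ

end Pool.Agent.H82K
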