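import Pool.Agent.Lib.H82K.K01

/-!
# Chunk K05 (M): definable sets of values are in `KK`

`exists_set`: let `χ` define `P`, let `z < μ` code the first `χ.bd` values of `s` (`exists_dec`), and `b = val (pp z (μ + (enc χ + 1)))`. By `mem_val` and `El_code` `y ∈ b` iff `y = val a` with `pp z a < μ` and
`TT μ χ (pp z a)`; for `a < μ` `pp z a < μ` (`Gam`), conversely `a ≤ pp z a` (`le_pp_right`); `TT_iff_TS`, `dec_pp`, `TS_congr` (`cons a (dec z)` and `cons a s` agree below `χ.bd`),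
`P μ (cons a s)` by the definition of `ND` (`cons_lt`).

`K_trans`: `mem_val`. `K_ord`: `val_ord` with any limit `μ > α` (`exists_gam`). `D_set`: `exists_set` for the true predicate (`s = fun _ => 0`). `D_mono`, `D_lim`: clear (`ξ < μ` gives `ξ < ξ + 1 < μ`).
`K_bound`: choose for `x ∈ u` with `KK x` a name; the names of the elements of the set `u` are bounded (small family: `Ordinal.bddAbove_range`, model `LL_bound_set` in H94L/NiceB.lean); `exists_gam`.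
-/

set_option autoImplicit false

open Set Order Function

open Pool.Agent.Lib.H45Osc (w1 limitPts)

namespace Pool.Agent.H82K

open Pool.Agent.H5Z (Fml Sat ModelsZFC)

variable {A : Set O}

theorem exists_set {P : O → (ℕ → O) → Prop} (hP : ND A P) {μ : O} (hμ : Gam μ) (s : ℕ → O)
    (hs : ∀ i, s i < μ) : ∃ b, KK A b ∧ ∀ y, y ∈ b ↔ ∃ a < μ, P μ (cons a s) ∧ y = val A a := by
  obtain ⟨χ, hχ⟩ := hP
  obtain ⟨z, hz, hdec⟩ := exists_dec hμ s hs χ.bd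
  have hkey : ∀ ξ, pp z ξ < μ → (TT A μ χ (pp z ξ) ↔ P μ (cons ξ s)) := by
    intro ξ hξ
    have h1 : ξ < μ := lt_of_le_of_lt (le_pp_right z ξ) hξ
    rw [TT_iff_TS A hμ χ hξ, dec_pp, hχ μ hμ (cons ξ s) (fun i => cons_lt h1 hs i)]
    refine TS_congr A μ χ _ _ fun i hi => ?_
    cases i with
    | zero => rfl
    | succ i =>
      change dec z i = s i
      exact hdec i (by omega)
  refine ⟨val A (pp z (μ + (enc χ + 1 : ℕ))), ⟨_, rfl⟩, fun y => ?_⟩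
  rw [mem_val, El_code A hμ.1 hz χ]
  constructor
  · rintro ⟨ξ, ⟨h1, h2⟩, h3⟩
    exact ⟨ξ, lt_of_le_of_lt (le_pp_right z ξ) h1, (hkey ξ h1).1 h2, h3⟩
  · rintro ⟨ξ, h1, h2, h3⟩
    have h4 : pp z ξ < μ := hμ.2 z hz ξ h1
    exact ⟨ξ, ⟨h4, (hkey ξ h4).2 h2⟩, h3⟩

theorem K_trans {x y : ZFSet.{0}} (hx : KK A x) (hy : y ∈ x) : KK A y := by
  obtain ⟨ξ, rfl⟩ := hx
  rw [mem_val] at hy
  obtain ⟨ξ', -, h⟩ := hy
  exact ⟨ξ', h⟩

theorem K_ord (α : Ordinal.{0}) : KK A α.toZFSet := by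
  obtain ⟨μ, h1, h2, -⟩ := exists_gam (fun x => x) α
  exact ⟨pp α μ, (val_ord A h2.1 h1).symm⟩

/-- the set of the values of the names below `μ` is in `KK` -/
theorem D_set {μ : O} (hμ : Gam μ) : ∃ b, KK A b ∧ ∀ y, y ∈ b ↔ D A μ y := by
  have hP : ND A (fun _ _ => True) :=
    ⟨Fm.imp Fm.bot Fm.bot, fun μ _ s _ => ⟨fun _ h => h, fun _ => trivial⟩⟩
  obtain ⟨b, hb, h⟩ := exists_set hP hμ (fun _ => 0) (fun _ => hμ.1.1)
  refine ⟨b, hb, fun y => ?_⟩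
  rw [h]
  constructor
  · rintro ⟨a, h1, -, h2⟩
    exact ⟨a, h1, h2⟩
  · rintro ⟨a, h1, h2⟩
    exact ⟨a, h1, trivial, h2⟩

theorem D_mono {μ μ' : O} (h : μ ≤ μ') {x : ZFSet.{0}} (hx : D A μ x) : D A μ' x := by
  obtain ⟨ξ, h1, h2⟩ := hx
  exact ⟨ξ, h1.trans_le h, h2⟩

theorem D_lim {μ : O} (h : Lim μ) {x : ZFSet.{0}} (hx : D A μ x) : ∃ μ' < μ, D A μ' x := by
  obtain ⟨ξ, h1, h2⟩ := hx
  exact ⟨ξ + 1, h.2 ξ h1, ξ, Order.lt_add_one_iff.mpr le_rfl, h2⟩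

theorem K_bound (u : ZFSet.{0}) : ∃ μ, Gam μ ∧ ∀ x ∈ u, KK A x → D A μ x := by
  classical
  have h1 : ∀ x : {x : ZFSet.{0} // x ∈ u}, ∃ b : O, KK A x.1 → D A b x.1 := by
    intro x
    by_cases hx : KK A x.1
    · obtain ⟨ξ, hξ⟩ := hx
      exact ⟨ξ + 1, fun _ => ⟨ξ, Order.lt_add_one_iff.mpr le_rfl, hξ⟩⟩
    · exact ⟨0, fun h' => absurd h' hx⟩
  choose b hb using h1
  have : Small.{0} {x : ZFSet.{0} // x ∈ u} := ZFSet.small_coe u
  obtain ⟨μ, h2, h3, -⟩ := exists_gam (fun x => x) (⨆ i, b i)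
  exact ⟨μ, h3, fun x hx hP => D_mono ((Ordinal.le_iSup b ⟨x, hx⟩).trans h2.le) (hb ⟨x, hx⟩ hP)⟩

/-- small families of elements of `KK` are in one level -/
theorem K_bound_fam {ι : Type} (f : ι → ZFSet.{0}) (hf : ∀ i, KK A (f i)) :
    ∃ μ, ∀ i, D A μ (f i) := by
  choose b hb using hf
  exact ⟨⨆ i, (b i + 1), fun i =>
    ⟨b i, (Order.lt_add_one_iff.mpr le_rfl).trans_le (Ordinal.le_iSup (fun i => b i + 1) i), hb i⟩⟩

end Pool.Agent.H82K
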