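import Pool.Agent.Lib.H82K.G01
import Pool.Agent.Lib.H82K.K05

/-!
# Chunk K06 (M): reflection

Copy of H94L/Refl.lean with `Lev δ`, `cl (Lev δ)` replaced by `D A δ`, `LL` by `KK A`, `SatL` by `SatR`, `LF.bd` by `bdF`, `LL_bound` by `K_bound_fam`, `exists_closed` by `exists_gam`. (The class of all `x`
with `D A γ x` is small: it is the range of `val A` on `Iio γ`; so instead of functions into the level use functions `Fin m → Iio γ` for the names.)
-/

set_option autoImplicit false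

open Set Order Function

open Pool.Agent.Lib.H45Osc (w1 limitPts)

namespace Pool.Agent.H82K

open Pool.Agent.H5Z (Fml Sat ModelsZFC)

variable (A : Set O)

/-- an assignment on finitely many variables, extended by `∅` -/
def K06_ext {m : ℕ} (w : Fin m → ZFSet.{0}) : ℕ → ZFSet.{0} :=
  fun j => if h : j < m then w ⟨j, h⟩ else ∅

theorem K06_bound (ψ : Fml) (i : ℕ) (γ : O) : ∃ β : O,
    ∀ w : Fin (bdF ψ) → ZFSet.{0}, (∀ j, D A γ (w j)) →
      (∃ a, KK A a ∧ ¬ SatR (KK A) ψ (update (K06_ext w) i a)) →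
        ∃ a, D A β a ∧ ¬ SatR (KK A) ψ (update (K06_ext w) i a) := by
  classical
  let I := Shrink.{0} (Fin (bdF ψ) → Iio γ)
  let eq : (Fin (bdF ψ) → Iio γ) ≃ I := equivShrink.{0} _
  let e : I → Fin (bdF ψ) → ZFSet.{0} := fun t j => val A (eq.symm t j).1
  let f : I → ZFSet.{0} := fun t =>
    if h : ∃ a, KK A a ∧ ¬ SatR (KK A) ψ (update (K06_ext (e t)) i a) then h.choose else val A 0
  have hf : ∀ t, KK A (f t) := by
    intro t
    by_cases h : ∃ a, KK A a ∧ ¬ SatR (KK A) ψ (update (K06_ext (e t)) i a)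
    · have : f t = h.choose := dif_pos h
      rw [this]
      exact h.choose_spec.1
    · have : f t = val A 0 := dif_neg h
      rw [this]
      exact ⟨0, rfl⟩
  obtain ⟨β, hβ⟩ := K_bound_fam f hf
  refine ⟨β, fun w hw h => ?_⟩
  choose x hx hxw using hw
  let w' : Fin (bdF ψ) → Iio γ := fun j => ⟨x j, hx j⟩
  have he : e (eq w') = w := by
    funext j
    show val A (eq.symm (eq w') j).1 = w j
    rw [Equiv.symm_apply_apply]
    exact (hxw j).symm
  have h' : ∃ a, KK A a ∧ ¬ SatR (KK A) ψ (update (K06_ext (e (eq w'))) i a) := by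
    rw [he]; exact h
  refine ⟨f (eq w'), hβ _, ?_⟩
  have h1 : f (eq w') = h'.choose := dif_pos h'
  have h2 : ¬ SatR (KK A) ψ (update (K06_ext (e (eq w'))) i (f (eq w'))) := by
    rw [h1]
    exact h'.choose_spec.2
  generalize f (eq w') = b at h2 ⊢
  rw [he] at h2
  exact h2

theorem K06_common {δ : O} (hδ : Lim δ) (v : ℕ → ZFSet.{0}) (hv : ∀ i, D A δ (v i))
    (m : ℕ) : ∃ γ < δ, ∀ j < m, D A γ (v j) := by
  induction m with
  | zero => exact ⟨0, hδ.1, fun j hj => absurd hj (Nat.not_lt_zero j)⟩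
  | succ m ih =>
    obtain ⟨γ, hγ, h⟩ := ih
    obtain ⟨γ', hγ', h'⟩ := D_lim hδ (hv m)
    refine ⟨max γ γ', max_lt hγ hγ', fun j hj => ?_⟩
    rcases Nat.lt_succ_iff_lt_or_eq.1 hj with hj | rfl
    · exact D_mono (le_max_left _ _) (h j hj)
    · exact D_mono (le_max_right _ _) h'

theorem reflect_fun (φ : Fml) : ∃ F : O → O, ∀ δ, Lim δ → (∀ γ < δ, F γ < δ) →
    ∀ v : ℕ → ZFSet.{0}, (∀ i, D A δ (v i)) → (SatR (D A δ) φ v ↔ SatR (KK A) φ v) := by
  induction φ with
  | mem i j => exact ⟨fun _ => 0, fun δ _ _ v _ => Iff.rfl⟩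
  | eq i j => exact ⟨fun _ => 0, fun δ _ _ v _ => Iff.rfl⟩
  | bot => exact ⟨fun _ => 0, fun δ _ _ v _ => Iff.rfl⟩
  | imp φ ψ ih ih' =>
    obtain ⟨F, hF⟩ := ih
    obtain ⟨G, hG⟩ := ih'
    refine ⟨fun γ => max (F γ) (G γ), fun δ hδ hc v hv => ?_⟩
    exact imp_congr
      (hF δ hδ (fun γ hγ => (le_max_left _ _).trans_lt (hc γ hγ)) v hv)
      (hG δ hδ (fun γ hγ => (le_max_right _ _).trans_lt (hc γ hγ)) v hv)
  | all i ψ ih =>
    obtain ⟨F, hF⟩ := ih
    choose G hG using K06_bound A ψ i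
    refine ⟨fun γ => max (F γ) (G γ), fun δ hδ hc v hv => ?_⟩
    have hup : ∀ a, D A δ a → ∀ j, D A δ (update v i a j) := by
      intro a ha j
      by_cases h : j = i
      · rw [h, update_self]; exact ha
      · rw [update_of_ne h]; exact hv j
    have hF' : ∀ a, D A δ a → (SatR (D A δ) ψ (update v i a) ↔ SatR (KK A) ψ (update v i a)) :=
      fun a ha => hF δ hδ (fun γ hγ => (le_max_left _ _).trans_lt (hc γ hγ)) _ (hup a ha)
    show (∀ a, D A δ a → SatR (D A δ) ψ (update v i a)) ↔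
      (∀ a, KK A a → SatR (KK A) ψ (update v i a))
    constructor
    · intro h
      by_contra hcon
      push Not at hcon
      obtain ⟨a, ha, hna⟩ := hcon
      obtain ⟨γ, hγ, hvγ⟩ := K06_common A hδ v hv (bdF ψ)
      have hext : ∀ b, SatR (KK A) ψ (update (K06_ext fun j : Fin (bdF ψ) => v j) i b) ↔
          SatR (KK A) ψ (update v i b) := by
        intro b
        refine SatR_congr _ _ _ _ fun j hj => ?_
        by_cases h : j = i
        · rw [h, update_self, update_self]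
        · rw [update_of_ne h, update_of_ne h]
          exact dif_pos hj
      obtain ⟨b, hb, hnb⟩ := hG γ (fun j : Fin (bdF ψ) => v j) (fun j => hvγ j j.2)
        ⟨a, ha, fun h' => hna ((hext a).1 h')⟩
      have hbδ : D A δ b := D_mono ((le_max_right _ _).trans_lt (hc γ hγ)).le hb
      exact hnb ((hext b).2 ((hF' b hbδ).1 (h b hbδ)))
    · intro h a ha
      obtain ⟨ξ, _, hξ⟩ := id ha
      exact (hF' a ha).2 (h a ⟨ξ, hξ⟩)

theorem reflect (φ : Fml) (α : O) : ∃ μ, α < μ ∧ Gam μ ∧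
    ∀ v : ℕ → ZFSet.{0}, (∀ i, D A μ (v i)) → (SatR (D A μ) φ v ↔ SatR (KK A) φ v) := by
  obtain ⟨F, hF⟩ := reflect_fun A φ
  obtain ⟨δ, h1, h2, h3⟩ := exists_gam F α
  exact ⟨δ, h1, h2, hF δ h2.1 h3⟩

end Pool.Agent.H82K
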