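import Pool.Agent.Lib.H82K.K04
import Pool.Agent.Lib.H82K.K06

/-!
# Chunk K07 (M): separation and covering in `KK`

`K_sep` (model: `LL_sep` in H94L/Sep.lean): let `m = bdF φ`; by `K_bound_fam` for the finitely many `a`, `v i` (`i < m`) there is a level containing them, and by `reflect` there is `μ` in `Gam` above it which reflects
`φ`. Choose names `s i < μ` of `v i` for `i < m`, `s m < μ` a name of `a`, `s i = 0` for `i > m`. The predicate `P μ s' := val (s' 0) ∈ val (s' (m + 1)) ∧ SatR (D A μ) φ (val A ∘ (s' ∘ g))` with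
`g 0 = 0`, `g (i + 1) = i + 2` is `ND` (`ND.eps`, `ND.satR`, `ND.comp`): for `s' = cons z s` the assignment `val A ∘ (cons z s ∘ g)` is `val z` at `0` and `val (s (i + 1))` at `i + 1`, which agrees with
`update v 0 (val z)` below `m` (`v i` for `i ≥ 1`). `exists_set` gives `b`; for `y = val z ∈ b`: `SatR (D A μ) φ ..` is `SatR (KK A) φ (update v 0 y)` by reflection and `SatR_congr` (all values are in `D A μ`; `0 < μ` and
`val 0` for the other places). An element of `a` has a name `< μ` (`D_trans`).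

`K_cover`: `K_bound`, `D_set`.
-/

set_option autoImplicit false

open Set Order Function

open Pool.Agent.Lib.H45Osc (w1 limitPts)

namespace Pool.Agent.H82K

open Pool.Agent.H5Z (Fml Sat ModelsZFC)

variable (A : Set O)

theorem K_sep (φ : Fml) (v : ℕ → ZFSet.{0}) (a : ZFSet.{0}) (hv : ∀ i, KK A (v i)) (ha : KK A a) :
    ∃ b, KK A b ∧ ∀ z, z ∈ b ↔ z ∈ a ∧ SatR (KK A) φ (update v 0 z) := by
  obtain ⟨m, hm⟩ : ∃ m, m = bdF φ := ⟨_, rfl⟩
  obtain ⟨μ0, hμ0⟩ := K_bound_fam (A := A) (ι := Option (Fin m)) (fun o => o.elim a fun i => v i) (by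
    intro o
    cases o with
    | none => exact ha
    | some i => exact hv i)
  obtain ⟨μ, hμ, hG, hr⟩ := reflect A φ μ0
  have haμ : D A μ a := D_mono hμ.le (hμ0 none)
  have hvμ : ∀ i < m, D A μ (v i) := fun i hi => D_mono hμ.le (hμ0 (some ⟨i, hi⟩))
  have h0 : (0 : O) < μ := hG.1.1
  obtain ⟨t, ht, hat⟩ := id haμ
  have hg0 : ∀ i, ∃ g : O, g < μ ∧ (i < m → v i = val A g) := by
    intro i
    by_cases hi : i < m
    · obtain ⟨g, hg, hg'⟩ := hvμ i hi
      exact ⟨g, hg, fun _ => hg'⟩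
    · exact ⟨0, h0, fun h => absurd h hi⟩
  choose g hg hgv using hg0
  obtain ⟨s, hsd⟩ : ∃ s : ℕ → O, s = fun i => if i = m then t else g i := ⟨_, rfl⟩
  have hs : ∀ i, s i < μ := by
    intro i
    rw [hsd]
    by_cases h : i = m
    · simp only [if_pos h]
      exact ht
    · simp only [if_neg h]
      exact hg i
  have hsm : s m = t := by
    rw [hsd]
    simp only [if_true]
  have hsi : ∀ i, i < m → v i = val A (s i) := by
    intro i hi
    rw [hsd]
    simp only [if_neg (show i ≠ m by omega)]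
    exact hgv i hi
  obtain ⟨f, hf⟩ : ∃ f : ℕ → ℕ, f = fun i => Nat.casesOn i 0 fun j => j + 2 := ⟨_, rfl⟩
  have hf0 : f 0 = 0 := by
    rw [hf]
    rfl
  have hf1 : ∀ j, f (j + 1) = j + 2 := by
    intro j
    rw [hf]
  obtain ⟨b, hb, hbz⟩ := exists_set
    (P := fun μ s' => val A (s' 0) ∈ val A (s' (m + 1)) ∧ SatR (D A μ) φ (val A ∘ (s' ∘ f)))
    ((ND.eps 0 (m + 1)).and ((ND.satR φ).comp f)) hG s hs
  have key : ∀ z' < μ, (SatR (D A μ) φ (val A ∘ (cons z' s ∘ f)) ↔
      SatR (KK A) φ (update v 0 (val A z'))) := by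
    intro z' hz'
    rw [hr (val A ∘ (cons z' s ∘ f)) fun i => ⟨cons z' s (f i), cons_lt hz' hs (f i), rfl⟩]
    refine SatR_congr (KK A) φ _ _ fun i hi => ?_
    cases i with
    | zero =>
      change val A (cons z' s (f 0)) = _
      rw [hf0, update_self]
      rfl
    | succ j =>
      change val A (cons z' s (f (j + 1))) = _
      rw [hf1, update_of_ne (Nat.succ_ne_zero j)]
      exact (hsi (j + 1) (by rw [hm]; exact hi)).symm
  have hcm : ∀ z', val A (cons z' s (m + 1)) = a := by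
    intro z'
    change val A (s m) = a
    rw [hsm, hat]
  refine ⟨b, hb, fun z => ?_⟩
  rw [hbz]
  constructor
  · rintro ⟨z', hz', ⟨h1, h2⟩, rfl⟩
    rw [hcm] at h1
    exact ⟨h1, (key z' hz').1 h2⟩
  · rintro ⟨h1, h2⟩
    obtain ⟨z', hz', hzz⟩ := D_trans haμ h1
    subst hzz
    refine ⟨z', hz', ⟨?_, (key z' hz').2 h2⟩, rfl⟩
    rw [hcm]
    exact h1

theorem K_cover (u : ZFSet.{0}) : ∃ d, KK A d ∧ ∀ x ∈ u, KK A x → x ∈ d := by
  obtain ⟨μ, hG, hμ⟩ := K_bound (A := A) u
  obtain ⟨d, hd, hdy⟩ := D_set (A := A) hG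
  exact ⟨d, hd, fun x hx hK => (hdy x).2 (hμ x hx hK)⟩

end Pool.Agent.H82K
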