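import Pool.Agent.Lib.H82K.K03
import Pool.Agent.Lib.H82K.K05

/-!
# Chunk K08 (M): choice in `KK`

Let `x = val x0`, `μ` in `Gam` with `x0 < μ`. The set `c` of the values of all `a < μ` such that for some `b < μ`: `val b ∈ x`, `val a ∈ val b`, and `val a' ∉ val b` for all `a' < a`. It is in `KK` by `exists_set`: the predicate
`∃ b < μ, val b ∈ val (s 1) ∧ val (s 0) ∈ val b ∧ ∀ a' < μ, a' < s 0 → val a' ∉ val b` is `ND` (with `cons b s`, `cons a' (cons b s)` and the indices shifted), `s = fun _ => x0`.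

For `y ∈ x` there is the least name `a` of an element of `y` (`y = val b`, `b < x0`, its elements have names `< b < μ`: `mem_val`, `El_lt`); `val a ∈ c ∩ y`. Uniqueness: let `z = val a' ∈ c ∩ y`, with
`b'` the witness for `a'`: `val a' ∈ val b' ∈ x`, so `val b' = y` (disjointness), so `a'` is the least name of an element of `y`, `a' = a`.
-/

set_option autoImplicit false

open Set Order Function

open Pool.Agent.Lib.H45Osc (w1 limitPts)

namespace Pool.Agent.H82K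

open Pool.Agent.H5Z (Fml Sat ModelsZFC)

variable (A : Set O)

theorem K_choice (x : ZFSet.{0}) (hx : KK A x) (h : ∀ y ∈ x, ∃ z, z ∈ y)
    (hd : ∀ y ∈ x, ∀ y' ∈ x, ∀ z ∈ y, z ∈ y' → y = y') :
    ∃ c, KK A c ∧ ∀ y ∈ x, ∃! z, z ∈ c ∧ z ∈ y := by
  obtain ⟨x0, rfl⟩ := hx
  obtain ⟨μ, h0, hμ, -⟩ := exists_gam (fun x => x) x0
  have hP : ND A fun μ s => ∃ b < μ, val A b ∈ val A (s 1) ∧ val A (s 0) ∈ val A b ∧
      ∀ a' < μ, a' < s 0 → ¬ val A a' ∈ val A b :=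
    ((ND.eps 0 2).and ((ND.eps 1 0).and (((ND.lt 0 2).imp (ND.eps 0 1).not).all))).ex
  obtain ⟨c, hc, hc'⟩ := exists_set hP hμ (fun _ => x0) (fun _ => h0)
  have hc2 : ∀ y, y ∈ c ↔ ∃ a < μ, (∃ b < μ, val A b ∈ val A x0 ∧ val A a ∈ val A b ∧
      ∀ a' < μ, a' < a → ¬ val A a' ∈ val A b) ∧ y = val A a := hc'
  refine ⟨c, hc, fun y hy => ?_⟩
  obtain ⟨b, hb, rfl⟩ := (mem_val A).1 hy
  have hbμ : b < μ := (El_lt A hb).trans h0
  obtain ⟨z1, hz1⟩ := h _ hy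
  obtain ⟨a1, ha1, rfl⟩ := (mem_val A).1 hz1
  have hne : {a : O | val A a ∈ val A b}.Nonempty := ⟨a1, hz1⟩
  obtain ⟨a, ha⟩ : ∃ a, a = sInf {a : O | val A a ∈ val A b} := ⟨_, rfl⟩
  have ha2 : val A a ∈ val A b := by
    rw [ha]
    exact csInf_mem hne
  have hmin : ∀ a', val A a' ∈ val A b → a ≤ a' := by
    intro a' h'
    rw [ha]
    exact csInf_le' h'
  have haμ : a < μ := ((hmin a1 hz1).trans_lt (El_lt A ha1)).trans hbμ
  refine ⟨val A a, ⟨(hc2 _).2 ⟨a, haμ, ⟨b, hbμ, hy, ha2, fun a' _ h' h'' =>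
    absurd (hmin a' h'') (not_le.2 h')⟩, rfl⟩, ha2⟩, ?_⟩
  rintro z ⟨hz, hzb⟩
  obtain ⟨a', ha'μ, ⟨b', hb'μ, hb'x, hab', hmin'⟩, rfl⟩ := (hc2 z).1 hz
  have hbb : val A b' = val A b := hd _ hb'x _ hy _ hab' hzb
  rw [hbb] at hmin'
  have h1 : a' = a := by
    refine le_antisymm ?_ (hmin a' hzb)
    by_contra hlt
    exact hmin' a haμ (not_le.1 hlt) ha2
  rw [h1]

end Pool.Agent.H82K
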