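import Pool.Agent.Lib.H82K.K03
import Pool.Agent.Lib.H82K.K05

/-!
# Chunk K09 (M): canonical names of ordinals; `A` is in the inner model

* `interval`: `pp 0 μ1 ≤ a < pp δ μ1` (`δ ≤ μ1`) iff `a = pp ξ μ1` with `ξ < δ`: write `a = pp x y` (`pp_p1_p2`), and use `pp_lt_iff`: `¬ PL x y 0 μ1` and `PL x y δ μ1` give `max x y = μ1`
  (for `δ = μ1` or `δ < μ1` the maximum of `δ, μ1` is `μ1`), and `x < δ` or (`x = δ` and `y < μ1`), the second is impossible if `δ < μ1` (then `max x y < μ1`), and if `δ = μ1`: take `δ < μ1` as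
  hypothesis. So `x < δ < μ1`, `y = μ1`.
* `set_mem_K`: let `μ1` be a limit with `w1 < μ1`, `b0 = pp 0 μ1`, `b1 = pp w1 μ1`, `μ` in `Gam` above `b1`. `exists_set` for the predicate `¬ s 0 < s 1 ∧ s 0 < s 2 ∧ p1 (s 0) ∈ A` (`ND.lt`, `ND.aa`) and the assignment `b0, b1, 0, 0, ..`: its
  values are `val (pp ξ μ1) = ξ.toZFSet` (`val_ord`), `ξ < w1`, `ξ ∈ A`.
-/

set_option autoImplicit false

open Set Order Function

open Pool.Agent.Lib.H45Osc (w1 limitPts)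

namespace Pool.Agent.H82K

open Pool.Agent.H5Z (Fml Sat ModelsZFC)

theorem interval {δ μ1 : O} (h : δ < μ1) (a : O) :
    (¬ a < pp 0 μ1 ∧ a < pp δ μ1) ↔ ∃ ξ < δ, a = pp ξ μ1 := by
  have hm0 : max (0 : O) μ1 = μ1 := max_eq_right bot_le
  have hmd : max δ μ1 = μ1 := max_eq_right h.le
  constructor
  · rintro ⟨h1, h2⟩
    obtain ⟨x, y, rfl⟩ := pp_surj a
    rw [pp_lt_iff] at h1 h2
    unfold PL at h1 h2
    rw [hm0] at h1
    rw [hmd] at h2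
    rcases h2 with h2 | ⟨h2, h3 | ⟨h3, h4⟩⟩
    · exact absurd (Or.inl h2) h1
    · refine ⟨x, h3, ?_⟩
      have hy : y = μ1 := by
        rcases max_choice x y with h5 | h5
        · rw [h5] at h2
          exact absurd (h3.trans h) (not_lt.2 h2.ge)
        · rw [← h2, h5]
      rw [hy]
    · exfalso
      have h5 : max x y < μ1 := max_lt (h3.trans_lt h) h4
      exact absurd h5 (not_lt.2 h2.ge)
  · rintro ⟨ξ, hξ, rfl⟩
    have hmx : max ξ μ1 = μ1 := max_eq_right (hξ.trans h).le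
    constructor
    · rw [pp_lt_iff]
      rintro (h1 | ⟨-, h1 | ⟨-, h1⟩⟩)
      · rw [hmx, hm0] at h1
        exact absurd h1 (lt_irrefl _)
      · exact absurd h1 (not_lt.2 bot_le)
      · exact absurd h1 (lt_irrefl _)
    · exact pp_lt (Or.inr ⟨by rw [hmx, hmd], Or.inl hξ⟩)

theorem set_mem_K (B : ZFSet.{0}) (hB : ∀ x ∈ B, x ∈ (w1 : Ordinal.{0}).toZFSet) :
    KK {ξ : O | ξ.toZFSet ∈ B} B := by
  obtain ⟨μ1, h1, hμ1, -⟩ := exists_gam (fun x => x) w1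
  obtain ⟨μ, h2, hμ, -⟩ := exists_gam (fun x => x) (pp w1 μ1)
  have h0 : pp 0 μ1 < μ := by
    refine lt_of_le_of_lt ?_ h2
    by_cases hw : (0 : O) = w1
    · rw [← hw]
    · refine (pp_lt (Or.inr ⟨?_, Or.inl (lt_of_le_of_ne bot_le hw)⟩)).le
      rw [max_eq_right bot_le, max_eq_right h1.le]
  have hP : ND {ξ : O | ξ.toZFSet ∈ B} fun _ s => ¬ s 0 < s 1 ∧ s 0 < s 2 ∧
      p1 (s 0) ∈ {ξ : O | ξ.toZFSet ∈ B} :=
    (ND.lt 0 1).not.and ((ND.lt 0 2).and (ND.aa 0))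
  obtain ⟨b, hb, hb'⟩ := exists_set hP hμ (cons (pp 0 μ1) (cons (pp w1 μ1) fun _ => 0))
    (cons_lt h0 (cons_lt h2 fun _ => hμ.1.1))
  have hb2 : ∀ y, y ∈ b ↔ ∃ a < μ, (¬ a < pp 0 μ1 ∧ a < pp w1 μ1 ∧
      (p1 a).toZFSet ∈ B) ∧ y = val {ξ : O | ξ.toZFSet ∈ B} a := hb'
  have hbB : b = B := by
    ext y
    rw [hb2]
    constructor
    · rintro ⟨a, -, ⟨h3, h4, h5⟩, rfl⟩
      obtain ⟨ξ, hξ, rfl⟩ := (interval h1 a).1 ⟨h3, h4⟩
      rw [p1_pp] at h5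
      rw [val_ord _ hμ1.1 (hξ.trans h1)]
      exact h5
    · intro hy
      obtain ⟨ξ, hξ, rfl⟩ := Ordinal.mem_toZFSet_iff.1 (hB y hy)
      have h3 := (interval h1 _).2 ⟨ξ, hξ, rfl⟩
      refine ⟨pp ξ μ1, h3.2.trans h2, ⟨h3.1, h3.2, ?_⟩, ?_⟩
      · rw [p1_pp]
        exact hy
      · rw [val_ord _ hμ1.1 (hξ.trans h1)]
  rw [hbB] at hb
  exact hb

end Pool.Agent.H82K
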