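import Pool.Agent.Lib.H82K.K09
import Pool.Agent.Lib.H82K.C01

/-!
# Chunk K10 (M/L): capture of singular ordinals

`f = val x0` is a partial function of ordinals which maps a subset of `α` cofinally into `δ`, `α < δ`. Let `μ1` be in `Gam` above `δ`, `b0 = pp 0 μ1`, `b1 = pp δ μ1`, `μ` in `Gam` above `x0`, `b1`, `μ1`. The predicate (variables
`0 = c`, `1 = a`, `2 = x0`, `3 = b0`, `4 = b1`)
`P μ s := ¬ s 0 < s 3 ∧ s 0 < s 4 ∧ ZFSet.pair (val (s 1)) (val (s 0)) ∈ val (s 2)` is `ND` (`ND.lt`, `ND.rel`), by a formula `χ`. For `ξ < α` with `pair ξ η ∈ f`, `η < δ`: let `a = pp ξ μ1` (`< pp δ μ1`, `val a = ξ.toZFSet` by `val_ord`),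
`z = pp (pp (pp (pp 0 b1) b0) x0) a < μ`; `dec z` is `a, x0, b0, b1, ..` (`dec_pp`). `y = pp z (μ + (enc χ + 1))`. By `El_code`, `TT_iff_TS`, `dec_pp`: `c ∈ El y` iff `pp z c < μ` and `P μ (cons c (dec z))`, iff `c = pp η' μ1` with `η' < δ`
(`interval`) and `pair ξ η' ∈ f`, iff `c = pp η μ1` (`f` is a function, `Ordinal.toZFSet_injective`). So `uf .. 0 y = Sf y = pp η μ1` (the infimum of a singleton; `pp η μ1 < μ ≤ y`) and `p1` of it is `η`.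

Let `l` be in `Gam` above `μ + ω` or so (all the ordinals used are `< l`), and `Q = {0, μ1, b0, b1, x0, μ + (enc χ + 1)}`. Then `ξ ∈ hl l α Q` for `ξ < α`, and by the closure properties (`Hull.bin`; `Hull.un` with `k = 4`, `k = 2`) `a`, `pp 0 b1`, ..., `z`, `y`, `Sf y`, `η` are in
`hl l α Q`. So `hl l α Q` is unbounded in `δ`: `Capt l Q α δ`.
-/

set_option autoImplicit false

open Set Order Function

open Pool.Agent.Lib.H45Osc (w1 limitPts)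

namespace Pool.Agent.H82K

open Pool.Agent.H5Z (Fml Sat ModelsZFC)

/-- `f` is a function on ordinals which maps some ordinals below `α` cofinally into `δ` -/
structure CofMap (f : ZFSet.{0}) (α δ : Ordinal.{0}) : Prop where
  fn : ∀ ξ η η' : Ordinal.{0}, ZFSet.pair ξ.toZFSet η.toZFSet ∈ f →
    ZFSet.pair ξ.toZFSet η'.toZFSet ∈ f → η = η'
  cof : ∀ ζ < δ, ∃ ξ < α, ∃ η < δ, ζ ≤ η ∧ ZFSet.pair ξ.toZFSet η.toZFSet ∈ f

/-- the predicate: `s 3 ≤ s 0 < s 4` and the pair of the values of `s 1`, `s 0` is in the value of `s 2` -/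
def k10_P (A : Set O) (_ : O) (s : ℕ → O) : Prop :=
  (¬ s 0 < s 3 ∧ s 0 < s 4) ∧ ZFSet.pair (val A (s 1)) (val A (s 0)) ∈ val A (s 2)

theorem k10_ND (A : Set O) : ND A (k10_P A) :=
  ((ND.lt 0 3).not.and (ND.lt 0 4)).and (ND.rel 2 1 0)

/-- the least element of the code is the name of the value of the function -/
theorem k10_least {A : Set O} {x0 : O} {α δ μ1 μ : O} (h : CofMap (val A x0) α δ) (hδ : δ < μ1) (hμ1 : Gam μ1) (hμ : Gam μ)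
    (hx0 : x0 < μ) (hb1 : pp δ μ1 < μ) (hb0 : pp 0 μ1 < μ) {χ : Fm}
    (hχ : ∀ s : ℕ → O, (∀ i, s i < μ) → (k10_P A μ s ↔ TS A μ χ s)) {ξ η : O} (hξ : ξ < δ) (hη : η < δ)
    (hf : ZFSet.pair ξ.toZFSet η.toZFSet ∈ val A x0) :
    pp (pp (pp (pp 0 (pp δ μ1)) (pp 0 μ1)) x0) (pp ξ μ1) < μ ∧
    uf (val A) (El A) 0 (pp (pp (pp (pp (pp 0 (pp δ μ1)) (pp 0 μ1)) x0) (pp ξ μ1)) (μ + (enc χ + 1 : ℕ))) = pp η μ1 := by
  have h0 : (0 : O) < μ := hμ.1.1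
  have hμ1' : μ1 < μ := (le_pp_right δ μ1).trans_lt hb1
  have ha : pp ξ μ1 < μ := hμ.2 _ ((hξ.trans hδ).trans hμ1') _ hμ1'
  have hc : pp η μ1 < μ := hμ.2 _ ((hη.trans hδ).trans hμ1') _ hμ1'
  have hz : pp (pp (pp (pp 0 (pp δ μ1)) (pp 0 μ1)) x0) (pp ξ μ1) < μ :=
    hμ.2 _ (hμ.2 _ (hμ.2 _ (hμ.2 _ h0 _ hb1) _ hb0) _ hx0) _ ha
  refine ⟨hz, ?_⟩
  generalize hzd : pp (pp (pp (pp 0 (pp δ μ1)) (pp 0 μ1)) x0) (pp ξ μ1) = z at hz ⊢
  have hd0 : dec z 0 = pp ξ μ1 := by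
    rw [← hzd, dec_pp]
    rfl
  have hd1 : dec z 1 = x0 := by
    rw [← hzd, dec_pp, dec_pp]
    rfl
  have hd2 : dec z 2 = pp 0 μ1 := by
    rw [← hzd, dec_pp, dec_pp, dec_pp]
    rfl
  have hd3 : dec z 3 = pp δ μ1 := by
    rw [← hzd, dec_pp, dec_pp, dec_pp, dec_pp]
    rfl
  have key : ∀ c, c ∈ El A (pp z (μ + (enc χ + 1 : ℕ))) ↔ c = pp η μ1 := by
    intro c
    rw [El_code A hμ.1 hz χ]
    have hiff : ∀ c, c < μ → pp z c < μ → (TT A μ χ (pp z c) ↔ k10_P A μ (cons c (dec z))) := by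
      intro c hc1 hc2
      rw [TT_iff_TS A hμ χ hc2, dec_pp]
      exact (hχ _ (cons_lt hc1 fun i => (dec_le z i).trans_lt hz)).symm
    constructor
    · rintro ⟨h1, h2⟩
      have hcμ : c < μ := (le_pp_right z c).trans_lt h1
      obtain ⟨⟨h3, h4⟩, h5⟩ := (hiff c hcμ h1).1 h2
      change ¬ c < dec z 2 at h3
      change c < dec z 3 at h4
      change ZFSet.pair (val A (dec z 0)) (val A c) ∈ val A (dec z 1) at h5
      rw [hd2] at h3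
      rw [hd3] at h4
      rw [hd0, hd1] at h5
      obtain ⟨η', hη', rfl⟩ := (interval hδ c).1 ⟨h3, h4⟩
      rw [val_ord A hμ1.1 (hξ.trans hδ), val_ord A hμ1.1 (hη'.trans hδ)] at h5
      rw [h.fn ξ η' η h5 hf]
    · rintro rfl
      have h1 : pp z (pp η μ1) < μ := hμ.2 _ hz _ hc
      refine ⟨h1, (hiff _ hc h1).2 ⟨?_, ?_⟩⟩
      · change ¬ pp η μ1 < dec z 2 ∧ pp η μ1 < dec z 3
        rw [hd2, hd3]
        exact (interval hδ _).2 ⟨η, hη, rfl⟩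
      · change ZFSet.pair (val A (dec z 0)) (val A (pp η μ1)) ∈ val A (dec z 1)
        rw [hd0, hd1, val_ord A hμ1.1 (hξ.trans hδ), val_ord A hμ1.1 (hη.trans hδ)]
        exact hf
  have hset : {ξ | ξ < pp z (μ + (enc χ + 1 : ℕ)) ∧ ξ ∈ El A (pp z (μ + (enc χ + 1 : ℕ)))} = {pp η μ1} := by
    ext c
    constructor
    · rintro ⟨-, h1⟩
      exact (key c).1 h1
    · intro h1
      have h2 : c = pp η μ1 := h1
      have h3 := (key c).2 h2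
      exact ⟨El_lt A h3, h3⟩
  show sInf {ξ | ξ < pp z (μ + (enc χ + 1 : ℕ)) ∧ ξ ∈ El A (pp z (μ + (enc χ + 1 : ℕ)))} = pp η μ1
  rw [hset, csInf_singleton]

theorem captured {A : Set O} {f : ZFSet.{0}} (hf : KK A f) {α δ : O} (hα : α < δ)
    (h : CofMap f α δ) : (mach A).Captured δ := by
  classical
  obtain ⟨x0, rfl⟩ := hf
  obtain ⟨μ1, hδ, hμ1, -⟩ := exists_gam (fun x => x) δ
  obtain ⟨μ, hm, hμ, -⟩ := exists_gam (fun x => x) (max x0 (pp δ μ1))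
  obtain ⟨χ, hχ⟩ := k10_ND A
  obtain ⟨l, hl, hΓ, -⟩ := exists_gam (fun x => x) (μ + (enc χ + 1 : ℕ))
  have hx0 : x0 < μ := (le_max_left _ _).trans_lt hm
  have hb1 : pp δ μ1 < μ := (le_max_right _ _).trans_lt hm
  have hμ1' : μ1 < μ := (le_pp_right δ μ1).trans_lt hb1
  have h0 : (0 : O) < μ := hμ.1.1
  have hb0 : pp 0 μ1 < μ := hμ.2 _ h0 _ hμ1'
  have hμl : μ < l := le_self_add.trans_lt hl
  refine ⟨l, {0, μ1, pp 0 μ1, pp δ μ1, x0, μ + (enc χ + 1 : ℕ)}, α, ?_, hα, ?_, le_top⟩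
  · intro x hx
    simp only [Finset.mem_insert, Finset.mem_singleton] at hx
    rcases hx with rfl | rfl | rfl | rfl | rfl | rfl
    · exact h0.trans hμl
    · exact hμ1'.trans hμl
    · exact hb0.trans hμl
    · exact hb1.trans hμl
    · exact hx0.trans hμl
    · exact hl
  · intro ζ hζ
    obtain ⟨ξ, hξ, η, hη, h1, h2⟩ := h.cof ζ hζ
    refine ⟨η, ?_, h1, hη⟩
    obtain ⟨hz, hu⟩ := k10_least h hδ hμ1 hμ hx0 hb1 hb0 (hχ μ hμ) (hξ.trans hα) hη h2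
    set Q : Finset O := {0, μ1, pp 0 μ1, pp δ μ1, x0, μ + (enc χ + 1 : ℕ)} with hQ
    have hpar : ∀ x ∈ Q, x < l → (mach A).Hull l (Iio α ∪ ↑Q) x := fun x hx hxl => Ops.Hull.base (Or.inr hx) hxl
    have hbin : ∀ x y, (mach A).Hull l (Iio α ∪ ↑Q) x → (mach A).Hull l (Iio α ∪ ↑Q) y → pp x y < l →
        (mach A).Hull l (Iio α ∪ ↑Q) (pp x y) := fun x y hx hy hl' => Ops.Hull.bin hx hy hl'
    have g0 := hpar 0 (by simp [hQ]) (h0.trans hμl)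
    have g1 := hpar μ1 (by simp [hQ]) (hμ1'.trans hμl)
    have g2 := hpar (pp 0 μ1) (by simp [hQ]) (hb0.trans hμl)
    have g3 := hpar (pp δ μ1) (by simp [hQ]) (hb1.trans hμl)
    have g4 := hpar x0 (by simp [hQ]) (hx0.trans hμl)
    have g5 := hpar (μ + (enc χ + 1 : ℕ)) (by simp [hQ]) hl
    have gξ : (mach A).Hull l (Iio α ∪ ↑Q) ξ := Ops.Hull.base (Or.inl hξ) ((((hξ.trans hα).trans hδ).trans hμ1').trans hμl)
    have ga := hbin ξ μ1 gξ g1 ((hμ.2 _ (((hξ.trans hα).trans hδ).trans hμ1') _ hμ1').trans hμl)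
    have gz1 := hbin 0 (pp δ μ1) g0 g3 ((hμ.2 _ h0 _ hb1).trans hμl)
    have gz2 := hbin _ (pp 0 μ1) gz1 g2 ((hμ.2 _ (hμ.2 _ h0 _ hb1) _ hb0).trans hμl)
    have gz3 := hbin _ x0 gz2 g4 ((hμ.2 _ (hμ.2 _ (hμ.2 _ h0 _ hb1) _ hb0) _ hx0).trans hμl)
    have gz := hbin _ (pp ξ μ1) gz3 ga (hz.trans hμl)
    have gy := hbin _ (μ + (enc χ + 1 : ℕ)) gz g5 (hΓ.2 _ (hz.trans hμl) _ hl)
    have hcl : pp η μ1 < l := (hμ.2 _ ((hη.trans hδ).trans hμ1') _ hμ1').trans hμl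
    have gc : (mach A).Hull l (Iio α ∪ ↑Q) (pp η μ1) := by
      have g6 := Ops.Hull.un (M := mach A) 4 gy (show (mach A).u 4 _ < l by
        show uf (val A) (El A) 0 _ < l
        rw [hu]
        exact hcl)
      have g7 : (mach A).u 4 (pp (pp (pp (pp (pp 0 (pp δ μ1)) (pp 0 μ1)) x0) (pp ξ μ1)) (μ + (enc χ + 1 : ℕ))) = pp η μ1 := hu
      rwa [g7] at g6
    have hηl : η < l := (((hη.trans hδ).trans hμ1').trans hμl)
    have g8 := Ops.Hull.un (M := mach A) 2 gc (show (mach A).u 2 _ < l by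
      show p1 _ < l
      rw [p1_pp]
      exact hηl)
    have g9 : (mach A).u 2 (pp η μ1) = η := p1_pp η μ1
    rw [g9] at g8
    exact g8

end Pool.Agent.H82K
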