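import Pool.Agent.Lib.H82K.K07
import Pool.Agent.Lib.H82K.K08
import Pool.Agent.Lib.H82K.K09
import Pool.Agent.Lib.H82K.K10
import Pool.Agent.Lib.H82K.G03
import Pool.Agent.Lib.H82K.B13
import Pool.Agent.Lib.H82K.C24

/-!
# Chunk K11 (S/M): assembly: ordinals which are singular in `L[B]` and the posed statement

`good_K`: the fields are `K_trans`, `K_ord`, `K_sep`, `K_cover`, `K_choice`; then `inner_of_good`.

`posed_of_singular`: `A = {ξ | ξ.toZFSet ∈ B}`; its elements are `< w1` (`hB`, `Ordinal.toZFSet_mem_toZFSet_iff`). `good_mach` gives `Good (mach A)`; `KK A` is an inner model which contains `B`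
(`set_mem_K`), so the cofinal map `f` is in `KK A` and `captured` applies; `posed_of_good`. For `d ≤ κ.ord` with `NS A' d` the hypothesis `hs` is applied as it is.

`exists_ns_of_cof`: if `d.cof = ℵ₁` then there is a normal sequence, and conversely. Only the direction needed: a normal sequence gives `d.cof = ℵ₁`: the range of `A'` is cofinal of cardinality `ℵ₁`, so `cof d ≤ ℵ₁`; if `cof d ≤ ℵ₀` then
there is a countable cofinal set, against `NS.bounded_countable`.
-/

set_option autoImplicit false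

open Set Order Function

open Pool.Agent.Lib.H45Osc (w1 limitPts)

namespace Pool.Agent.H82K

theorem good_K (A : Set O) : GoodClass (KK A) := by
  exact ⟨fun _ _ hx hy => K_trans hx hy, K_ord, fun φ v a hv ha => K_sep A φ v a hv ha, K_cover A,
    fun x hx h hd => K_choice A x hx h hd⟩

theorem cof_of_ns {A' : W → O} {d : O} (h : NS A' d) : d.cof = Cardinal.aleph 1 := by
  have hd : d = ⨆ i, A' i := by
    apply le_antisymm
    · by_contra hc
      rw [not_le] at hc
      obtain ⟨i, hi⟩ := h.cof _ hc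
      exact absurd (Ordinal.le_iSup A' i) (not_le.2 hi)
    · exact Ordinal.iSup_le fun i => (h.lt i).le
  have hw : Order.IsSuccLimit w1 := Cardinal.isSuccLimit_ord (Cardinal.aleph0_le_aleph 1)
  rw [hd, Ordinal.cof_iSup_Iio h.mono hw.isSuccPrelimit]
  exact Cardinal.isRegular_aleph_one.cof_ord

theorem posed_of_singular (κ : Cardinal.{0}) (B : ZFSet.{0})
    (hB : ∀ x ∈ B, x ∈ (w1 : Ordinal.{0}).toZFSet)
    (hs : ∀ d ≤ κ.ord, w1 < d → d.cof = Cardinal.aleph 1 →
      ∃ α < d, ∃ f : ZFSet.{0}, CofMap f α d ∧ InL B f) :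
    ∃ c : Ordinal.{0} → Ordinal.{0} → Ordinal.{0},
      (∀ α β : Ordinal.{0}, α < β → β < κ.ord → c α β < (Cardinal.aleph 1).ord) ∧
      ∀ A : Set Ordinal.{0}, A ⊆ Set.Iio κ.ord →
        (∀ B ⊆ A, B.Nonempty → (∃ a ∈ A, ∀ b ∈ B, b ≤ a) → sSup B ∈ A) →
        Nonempty (A ≃o Set.Iio (Cardinal.aleph 1).ord) →
        ∀ ξ < (Cardinal.aleph 1).ord, ∃ α ∈ A, ∃ β ∈ A, α < β ∧ c α β = ξ := by
  obtain ⟨A, hA⟩ : ∃ A : Set O, A = {ξ : O | ξ.toZFSet ∈ B} := ⟨_, rfl⟩
  have hAw : ∀ x ∈ A, x < w1 := by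
    intro x hx
    rw [hA] at hx
    exact Ordinal.toZFSet_mem_toZFSet_iff.1 (hB _ hx)
  have hKB : KK A B := by
    rw [hA]
    exact set_mem_K B hB
  refine posed_of_good (mach A) (good_mach hAw) κ fun d hd hw hex => ?_
  obtain ⟨A', hA'⟩ := hex
  obtain ⟨α, hα, f, hf, hL⟩ := hs d hd hw (cof_of_ns hA')
  exact captured (hL _ (inner_of_good (good_K A)) hKB) hα hf

end Pool.Agent.H82K
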