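import Pool.Agent.Lib.H82K.B05
import Pool.Agent.Lib.H82K.GDefs

/-!
# H82K, part K: the inner model of the machine (definitions)

`KK A x`: `x` has a name. `D A μ x`: `x` has a name below `μ`. `Gam μ`: `μ` is a limit closed under `pp`. `TS A μ φ s`: truth of `φ` in the structure of the
ordinals below `μ` for the assignment `s`. `ND A P`: the predicate `P μ s` is definable by one formula for all `μ` in `Gam`.
-/

set_option autoImplicit false

open Set Order Function

open Pool.Agent.Lib.H45Osc (w1 limitPts)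

namespace Pool.Agent.H82K

open Pool.Agent.H5Z (Fml Sat ModelsZFC)

/-- the sets with a name -/
def KK (A : Set O) (x : ZFSet.{0}) : Prop := ∃ ξ, x = val A ξ

/-- the sets with a name below `μ` -/
def D (A : Set O) (μ : O) (x : ZFSet.{0}) : Prop := ∃ ξ < μ, x = val A ξ

/-- `μ` is a limit ordinal closed under the pairing -/
def Gam (μ : O) : Prop := Lim μ ∧ ∀ x < μ, ∀ y < μ, pp x y < μ

/-- truth of a formula below `μ` for an assignment -/
def TS (A : Set O) (μ : O) : Fm → (ℕ → O) → Prop
  | Fm.atom a, s => AtS A (val A) (El A) s a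
  | Fm.bot, _ => False
  | Fm.imp φ ψ, s => TS A μ φ s → TS A μ ψ s
  | Fm.ex φ, s => ∃ ξ < μ, TS A μ φ (cons ξ s)

/-- `P μ s` is definable below `μ`, for all `μ` in `Gam` with the same formula -/
def ND (A : Set O) (P : O → (ℕ → O) → Prop) : Prop :=
  ∃ χ : Fm, ∀ μ, Gam μ → ∀ s : ℕ → O, (∀ i, s i < μ) → (P μ s ↔ TS A μ χ s)

/-- renaming of the variables of an atomic formula -/
def At.sub (g : ℕ → ℕ) : At → At
  | At.eps i j => At.eps (g i) (g j)
  | At.lt i j => At.lt (g i) (g j)
  | At.aa i => At.aa (g i)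
  | At.uk k i j => At.uk k (g i) (g j)
  | At.pk i j k => At.pk (g i) (g j) (g k)

/-- renaming of the variables of a formula -/
def Fm.sub : Fm → (ℕ → ℕ) → Fm
  | Fm.atom a, g => Fm.atom (a.sub g)
  | Fm.bot, _ => Fm.bot
  | Fm.imp φ ψ, g => Fm.imp (φ.sub g) (ψ.sub g)
  | Fm.ex φ, g => Fm.ex (φ.sub fun n => Nat.casesOn n 0 fun m => g m + 1)

/-- a bound for the variables of an atomic formula -/
def At.bd : At → ℕ
  | At.eps i j => max i j + 1
  | At.lt i j => max i j + 1
  | At.aa i => i + 1
  | At.uk _ i j => max i j + 1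
  | At.pk i j k => max (max i j) k + 1

/-- a bound for the free variables of a formula -/
def Fm.bd : Fm → ℕ
  | Fm.atom a => a.bd
  | Fm.bot => 0
  | Fm.imp φ ψ => max φ.bd ψ.bd
  | Fm.ex φ => φ.bd

end Pool.Agent.H82K
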